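import Pool.Agent.Lib.H69.Hopf.Main

/-!
# Chunk B2: the Gauss-Bonnet integrand vanishes on curvature tensors with a nullity vector

`gb_null`: if `R (x + s u, v, x + s u, v)` is bounded in `s` for all `x, v`, `u ≠ 0`, then
`R (u, ., ., .) = 0` (polarization and Bianchi) and `gaussBonnet n R = 0`.
`gb_pull`: `gaussBonnet n (pull g R) = det g ^ 2 * gaussBonnet n R`.
-/

namespace Pool.Agent.H46X

open Finset Pool.Agent.H69Hopf
open scoped BigOperators

variable {N : ℕ}

theorem gb_pull (n : ℕ) (R : Arr (2 * n)) (g : Fin (2 * n) → (Fin (2 * n) → ℝ)) :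
    gaussBonnet n (pull g R) = (Matrix.of g).det ^ 2 * gaussBonnet n R :=
  mgb_pull (fun _ : Fin n => R) g

/-- A quadratic polynomial which is bounded has no linear and no quadratic term. -/
theorem b2_quad {a b c C : ℝ} (h : ∀ s : ℝ, |a + b * s + c * s ^ 2| ≤ C) : b = 0 := by
  have hC : 0 ≤ C := (abs_nonneg _).trans (h 0)
  -- odd part: `|b s| ≤ C`
  have h1 : ∀ s : ℝ, |b * s| ≤ C := by
    intro s
    have h2 := abs_le.1 (h s)
    have h3 := abs_le.1 (h (-s))
    rw [abs_le]
    constructor <;> nlinarith [h2.1, h2.2, h3.1, h3.2]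
  by_contra hb
  have h4 := h1 ((C + 1) / b)
  rw [mul_div_cancel₀ _ hb, abs_of_nonneg (by linarith)] at h4
  linarith

theorem b2_ev1 {R : Arr N} (hR : IsAlgCurv R) (u x v : Fin N → ℝ) (s : ℝ) :
    ev R (x + s • u) v (x + s • u) v =
      ev R x v x v + (2 * ev R u v x v) * s + ev R u v u v * s ^ 2 := by
  simp only [ev_add1, ev_add3, ev_smul1, ev_smul3]
  rw [ev_pair hR x v u v]
  ring

theorem b2_skew34 {R : Arr N} (hR : IsAlgCurv R) (x y z w : Fin N → ℝ) :
    ev R x y w z = -ev R x y z w := by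
  rw [ev_pair hR x y w z, ev_skew hR, ev_pair hR]

theorem b2_null {R : Arr N} (hR : IsAlgCurv R) (u : Fin N → ℝ)
    (h : ∀ x v, ∃ C : ℝ, ∀ s : ℝ, |ev R (x + s • u) v (x + s • u) v| ≤ C)
    (v x w : Fin N → ℝ) : ev R u v x w = 0 := by
  have h1 : ∀ x v : Fin N → ℝ, ev R u v x v = 0 := by
    intro x v
    obtain ⟨C, hC⟩ := h x v
    have h2 : ∀ s : ℝ, |ev R x v x v + (2 * ev R u v x v) * s + ev R u v u v * s ^ 2| ≤ C := by
      intro s
      rw [← b2_ev1 hR]
      exact hC s
    have h3 := b2_quad h2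
    linarith
  -- antisymmetric in `v, w`
  have h2 : ∀ v x w : Fin N → ℝ, ev R u v x w = -ev R u w x v := by
    intro v x w
    have h3 := h1 x (v + w)
    simp only [ev_add2, ev_add4] at h3
    have h4 := h1 x v
    have h5 := h1 x w
    linarith
  have e1 := ev_bianchi hR u v x w
  -- `R v x u w = R u w v x`
  have e2 : ev R v x u w = ev R u w v x := ev_pair hR _ _ _ _
  have e3 : ev R u w v x = -ev R u x v w := h2 w v x
  have e4 : ev R u x v w = -ev R u x w v := b2_skew34 hR _ _ _ _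
  have e5 : ev R u x w v = -ev R u v w x := h2 x w v
  have e6 : ev R u v w x = -ev R u v x w := b2_skew34 hR _ _ _ _
  have e7 : ev R x u v w = -ev R u x v w := ev_skew hR _ _ _ _
  linarith

theorem gb_null (n : ℕ) {R : Arr (2 * n)} (hR : IsAlgCurv R) (u : Fin (2 * n) → ℝ) (hu : u ≠ 0)
    (h : ∀ x v, ∃ C : ℝ, ∀ s : ℝ, |ev R (x + s • u) v (x + s • u) v| ≤ C) :
    gaussBonnet n R = 0 := by
  obtain ⟨j, hj⟩ : ∃ j, u j ≠ 0 := by
    by_contra hc
    push_neg at hc
    exact hu (funext hc)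
  have hnull := b2_null hR u h
  obtain ⟨g, hg⟩ : ∃ g : Fin (2 * n) → (Fin (2 * n) → ℝ),
      g = Function.update (fun i => Pi.single i (1 : ℝ)) j u := ⟨_, rfl⟩
  have hgj : g j = u := by rw [hg, Function.update_self]
  have hdet : (Matrix.of g).det ≠ 0 := by
    have h1 : Matrix.of g = Matrix.updateRow (1 : Matrix (Fin (2 * n)) (Fin (2 * n)) ℝ) j u := by
      ext a b
      rw [Matrix.of_apply, hg]
      by_cases hab : a = j
      · subst hab
        rw [Function.update_self, Matrix.updateRow_self]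
      · rw [Function.update_of_ne hab, Matrix.updateRow_ne hab, Matrix.one_apply, Pi.single_apply]
        simp only [eq_comm]
    rw [h1]
    have h2 : (Matrix.updateRow (1 : Matrix (Fin (2 * n)) (Fin (2 * n)) ℝ) j u).det = u j := by
      have h3 : u = ∑ k, u k • (1 : Matrix (Fin (2 * n)) (Fin (2 * n)) ℝ) k := by
        funext b
        rw [Finset.sum_apply]
        simp [Matrix.one_apply]
      conv_lhs => rw [h3]
      rw [Matrix.det_updateRow_sum]
      simp
    rw [h2]
    exact hj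
  have h1 := gb_pull n R g
  have h2 : gaussBonnet n (pull g R) = 0 := by
    unfold gaussBonnet
    refine Finset.sum_eq_zero fun σ _ => Finset.sum_eq_zero fun τ _ => ?_
    obtain ⟨i, hi⟩ := exists_fst_or_snd (σ.symm j)
    have h3 : ∏ i : Fin n, pull g R (σ (fst i)) (σ (snd i)) (τ (fst i)) (τ (snd i)) = 0 := by
      refine Finset.prod_eq_zero (Finset.mem_univ i) ?_
      unfold pull
      rcases hi with hi | hi
      · rw [← hi, Equiv.apply_symm_apply, hgj]
        exact hnull _ _ _
      · rw [← hi, Equiv.apply_symm_apply, hgj, ev_skew hR, hnull, neg_zero]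
    rw [h3, mul_zero]
  rw [h2] at h1
  have h3 : (Matrix.of g).det ^ 2 ≠ 0 := pow_ne_zero 2 hdet
  rcases mul_eq_zero.1 h1.symm with h4 | h4
  · exact absurd h4 h3
  · exact h4

end Pool.Agent.H46X
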