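import Pool.Agent.Lib.H46X.B1
import Pool.Agent.Lib.H46X.B2
import Pool.Agent.Lib.H79G.P3

/-!
# Chunk B3: the relative form

`gb_frameR`: `gaussBonnet n (frameR R F) = det F ^ 2 * gaussBonnet n R`.
`gb_cx_rel`: `gb_cx_sec` with a positive definite matrix `H` instead of the standard scalar product:
choose `F` with `Fᵀ H F = 1` and `J' = Fᵀ H J F`.
`null_of_bound`, `exists_null`: a positive semidefinite matrix which is not positive definite has a
kernel vector.
-/

namespace Pool.Agent.H46X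

open Finset Pool.Agent.H46P Pool.Agent.H69Hopf H79G H31R
open scoped BigOperators

variable {N : ℕ}

theorem gb_frameR (n : ℕ) (R : Arr (2 * n)) (E : Mt (2 * n)) :
    gaussBonnet n (frameR R E) = E.det ^ 2 * gaussBonnet n R := by
  have h : frameR R E = pull (fun i a => E a i) R := rfl
  have h2 : (Matrix.of (fun i a => E a i) : Mt (2 * n)) = E.transpose := rfl
  rw [h, gb_pull, h2, Matrix.det_transpose]

theorem sp_eq (A : Matrix (Fin N) (Fin N) ℝ) (u w : Fin N → ℝ) :
    sp A u w = dotProduct u (A.mulVec w) := by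
  unfold sp
  simp only [dotProduct, Matrix.mulVec, Finset.mul_sum]
  exact Finset.sum_congr rfl fun i _ => Finset.sum_congr rfl fun j _ => by ring

theorem sp_mulVec (H A B : Matrix (Fin N) (Fin N) ℝ) (x y : Fin N → ℝ) :
    sp H (A.mulVec x) (B.mulVec y) = sp (A.transpose * H * B) x y := by
  rw [sp_eq, sp_eq, Matrix.mulVec_mulVec, ← Matrix.vecMul_transpose, ← Matrix.dotProduct_mulVec,
    Matrix.mulVec_mulVec, ← Matrix.mul_assoc]

theorem areaG_eq (H : Matrix (Fin N) (Fin N) ℝ) (x v : Fin N → ℝ) :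
    areaG H x v = sp H x x * sp H v v - sp H x v ^ 2 := rfl

theorem sp_symm {H : Matrix (Fin N) (Fin N) ℝ} (hs : H.transpose = H) (x y : Fin N → ℝ) :
    sp H y x = sp H x y := by
  unfold sp
  rw [Finset.sum_comm]
  refine Finset.sum_congr rfl fun i _ => Finset.sum_congr rfl fun j _ => ?_
  have h : H j i = H i j := congrFun (congrFun hs i) j
  rw [h]
  ring

theorem b3_JH {H J : Matrix (Fin N) (Fin N) ℝ} (hJ : J * J = -1) (hJH : J.transpose * H * J = H) :
    J.transpose * H = -(H * J) := by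
  have h1 : J.transpose * H * J * J = H * J := by rw [hJH]
  rw [Matrix.mul_assoc (J.transpose * H), hJ, Matrix.mul_neg, Matrix.mul_one] at h1
  rw [← h1, neg_neg]

theorem b3_J {H J F : Matrix (Fin N) (Fin N) ℝ} (hs : H.transpose = H) (hJ : J * J = -1)
    (hJH : J.transpose * H * J = H) (hF : F.transpose * H * F = 1) :
    (F.transpose * H * J * F).transpose = -(F.transpose * H * J * F) ∧
      (F.transpose * H * J * F) * (F.transpose * H * J * F) = -1 ∧
      ∀ x y : Fin N → ℝ, sp H (J.mulVec (F.mulVec x)) (F.mulVec y) ^ 2 =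
        sp (F.transpose * H * J * F) x y ^ 2 := by
  have hT := b3_JH hJ hJH
  have hFF : F * (F.transpose * H) = 1 := mul_eq_one_comm.1 hF
  refine ⟨?_, ?_, ?_⟩
  · rw [Matrix.transpose_mul, Matrix.transpose_mul, Matrix.transpose_mul, Matrix.transpose_transpose,
      hs, ← Matrix.mul_assoc J.transpose, hT]
    simp only [Matrix.neg_mul, Matrix.mul_neg, Matrix.mul_assoc]
  · have h1 : (F.transpose * H * J * F) * (F.transpose * H * J * F) =
        F.transpose * H * J * (F * (F.transpose * H)) * J * F := by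
      simp only [Matrix.mul_assoc]
    rw [h1, hFF, Matrix.mul_one, Matrix.mul_assoc (F.transpose * H) J J, hJ, Matrix.mul_neg,
      Matrix.mul_one, Matrix.neg_mul, hF]
  · intro x y
    rw [Matrix.mulVec_mulVec, sp_mulVec]
    have h1 : (J * F).transpose * H * F = -(F.transpose * H * J * F) := by
      rw [Matrix.transpose_mul, Matrix.mul_assoc F.transpose, hT]
      simp only [Matrix.neg_mul, Matrix.mul_neg, Matrix.mul_assoc]
    rw [h1]
    have h2 : sp (-(F.transpose * H * J * F)) x y = -sp (F.transpose * H * J * F) x y := by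
      rw [sp_eq, sp_eq, Matrix.neg_mulVec, dotProduct_neg]
    rw [h2, neg_sq]

theorem b3_frame {H : Matrix (Fin N) (Fin N) ℝ} (hH : H.PosDef) :
    ∃ F : Matrix (Fin N) (Fin N) ℝ, F.transpose * H * F = 1 := by
  have hs : ∀ i j, H i j = H j i := by
    intro i j
    have h1 := hH.isHermitian.apply i j
    simpa using h1.symm
  refine exists_frame H hs fun v hv => ?_
  have h1 := hH.dotProduct_mulVec_pos hv
  have h2 : star v ⬝ᵥ H.mulVec v = ∑ i, ∑ j, H i j * v i * v j := by
    have h3 := sp_eq H v v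
    unfold sp at h3
    rw [h3]
    rfl
  rw [← h2]
  exact h1

theorem b3_transpose {H : Matrix (Fin N) (Fin N) ℝ} (hH : H.IsHermitian) : H.transpose = H := by
  ext i j
  have h1 := hH.apply j i
  rw [Matrix.transpose_apply]
  simpa using h1.symm

theorem b3_pos (n : ℕ) {R : Arr (2 * n)} {F : Mt (2 * n)}
    (h : 0 < (-1) ^ n * gaussBonnet n (frameR R F)) : 0 < (-1) ^ n * gaussBonnet n R := by
  rw [gb_frameR, mul_left_comm] at h
  have h1 : 0 ≤ F.det ^ 2 := by positivity
  exact pos_of_mul_pos_right h h1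

theorem gb_cx_rel (n : ℕ) (hn : 1 ≤ n) {H J : Matrix (Fin (2 * n)) (Fin (2 * n)) ℝ} (hH : H.PosDef)
    (hJ : J * J = -1) (hJH : J.transpose * H * J = H) {R : Arr (2 * n)} (hR : IsAlgCurv R) {k l : ℝ}
    (hk : 0 ≤ k) (hl : 0 ≤ l) (hkl : max k (2 * l) = 1)
    (h : ∀ x y : Fin (2 * n) → ℝ, |H69Hopf.ev R x y x y + k * areaG H x y +
      3 * l * sp H (J.mulVec x) y ^ 2| ≤ cxConst n * areaG H x y) :
    0 < (-1) ^ n * gaussBonnet n R := by
  obtain ⟨F, hF⟩ := b3_frame hH
  obtain ⟨h1, h2, h3⟩ := b3_J (b3_transpose hH.isHermitian) hJ hJH hF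
  refine b3_pos n (F := F) (gb_cx_sec n hn h1 h2 (frame_algCurv hR F) hk hl hkl fun x y => ?_)
  rw [sec_frame, ← area_frame hF, ← h3]
  exact h _ _

theorem exists_null {H : Matrix (Fin N) (Fin N) ℝ} (hH : H.PosSemidef) (hn : ¬ H.PosDef) :
    ∃ u : Fin N → ℝ, u ≠ 0 ∧ H.mulVec u = 0 := by
  by_contra hc
  push Not at hc
  refine hn (Matrix.PosDef.of_dotProduct_mulVec_pos hH.isHermitian fun x hx => ?_)
  have h1 := hH.dotProduct_mulVec_nonneg x
  refine lt_of_le_of_ne h1 fun h2 => hc x hx ?_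
  exact (hH.dotProduct_mulVec_zero_iff x).1 h2.symm

theorem b3_sp_null {H : Matrix (Fin N) (Fin N) ℝ} (hs : H.transpose = H) {u : Fin N → ℝ}
    (hu : H.mulVec u = 0) (x w : Fin N → ℝ) (s : ℝ) :
    sp H (x + s • u) w = sp H x w ∧ sp H w (x + s • u) = sp H w x := by
  have h1 : sp H w (x + s • u) = sp H w x := by
    rw [sp_eq, sp_eq, Matrix.mulVec_add, Matrix.mulVec_smul, hu, smul_zero, add_zero]
  refine ⟨?_, h1⟩
  rw [sp_symm hs w (x + s • u), h1, sp_symm hs]

theorem b3_area_null {H : Matrix (Fin N) (Fin N) ℝ} (hs : H.transpose = H) {u : Fin N → ℝ}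
    (hu : H.mulVec u = 0) (x v : Fin N → ℝ) (s : ℝ) : areaG H (x + s • u) v = areaG H x v := by
  rw [areaG_eq, areaG_eq, (b3_sp_null hs hu x v s).1, (b3_sp_null hs hu x (x + s • u) s).1,
    (b3_sp_null hs hu x x s).2]

theorem b3_J_null {H J : Matrix (Fin N) (Fin N) ℝ} (hs : H.transpose = H) (hJ : J * J = -1)
    (hJH : J.transpose * H * J = H) {u : Fin N → ℝ} (hu : H.mulVec u = 0) (x v : Fin N → ℝ) (s : ℝ) :
    sp H (J.mulVec (x + s • u)) v = sp H (J.mulVec x) v := by
  have h1 : H.mulVec (J.mulVec u) = 0 := by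
    have h2 : H * J = -(J.transpose * H) := by rw [b3_JH hJ hJH, neg_neg]
    rw [Matrix.mulVec_mulVec, h2, Matrix.neg_mulVec, ← Matrix.mulVec_mulVec, hu, Matrix.mulVec_zero,
      neg_zero]
  rw [Matrix.mulVec_add, Matrix.mulVec_smul]
  exact (b3_sp_null hs h1 (J.mulVec x) v s).1

end Pool.Agent.H46X
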