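import Pool.Agent.Lib.H46X.Defs

/-!
# Chunk A1: the top coefficient of a rotated element of the exterior algebra

Both sides are linear in `w`, `ExteriorAlgebra.ιMulti_span`.  For `w = ιMulti d v`:
`lm w = (List.ofFn fun r => h2_L m (v r)).prod`, `ExteriorAlgebra.map_apply_ιMulti`.
`d ≠ m`: `lm w vac` is supported on sets of cardinality `d`, both sides are `0`.
`d = m`: `v ↦ h1_phi N (lm (ιMulti m v))` is an alternating map, `AlternatingMap.eq_smul_basis_det`
(with `Pi.basisFun`), `Module.Basis.det_comp`.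
-/

namespace Pool.Agent.H46X

open Finset Pool.Agent.H46P Pool.Agent.H69Hopf
open scoped BigOperators ComplexConjugate InnerProductSpace Nat

variable {m N : ℕ}

theorem a1_multi (d : ℕ) (v : Fin d → (Fin m → ℂ)) :
    lm m (ExteriorAlgebra.ιMulti ℂ d v) = (List.ofFn fun r => h2_L m (v r)).prod := by
  unfold lm
  rw [ExteriorAlgebra.ιMulti_apply, map_list_prod, List.map_ofFn]
  congr 1
  congr 1
  funext r
  rw [Function.comp_apply, ExteriorAlgebra.lift_ι_apply]

theorem a1_deg (d : ℕ) (x : Fin m → ℂ) (f : Fk m) (hf : h1_deg d f) :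
    h1_deg (d + 1) (h2_L m x f) := by
  rw [h2_L_apply, _root_.sum_apply]
  refine h1_deg_sum _ _ fun i _ => ?_
  exact h1_deg_smul _ _ (h1_deg_cre i f hf)

theorem a1_deg_prod (d : ℕ) (v : Fin d → (Fin m → ℂ)) :
    h1_deg d (((List.ofFn fun r => h2_L m (v r)).prod) vac) := by
  induction d with
  | zero =>
    rw [List.ofFn_zero, List.prod_nil]
    exact h1_deg_vac
  | succ d ih =>
    rw [List.ofFn_succ, List.prod_cons]
    exact a1_deg d (v 0) _ (ih fun r => v r.succ)

theorem a1_ne (d : ℕ) (hd : d ≠ N + N) (v : Fin d → (Fin (N + N) → ℂ)) :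
    h1_phi N (lm (N + N) (ExteriorAlgebra.ιMulti ℂ d v)) = 0 := by
  rw [h1_phi_apply, a1_multi]
  refine a1_deg_prod d v _ ?_
  rw [Finset.card_univ, Fintype.card_fin]
  exact hd.symm

theorem a1_eq (O : (Fin (N + N) → ℂ) →ₗ[ℂ] (Fin (N + N) → ℂ)) (v : Fin (N + N) → (Fin (N + N) → ℂ)) :
    h1_phi N (lm (N + N) (ExteriorAlgebra.ιMulti ℂ (N + N) (O ∘ v))) =
      LinearMap.det O * h1_phi N (lm (N + N) (ExteriorAlgebra.ιMulti ℂ (N + N) v)) := by
  set L : ExteriorAlgebra ℂ (Fin (N + N) → ℂ) →ₗ[ℂ] ℂ :=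
    (h1_phi N).toLinearMap ∘ₗ (lm (N + N)).toLinearMap with hL
  set F : (Fin (N + N) → ℂ) [⋀^Fin (N + N)]→ₗ[ℂ] ℂ :=
    L.compAlternatingMap (ExteriorAlgebra.ιMulti ℂ (N + N)) with hF
  have h1 : ∀ v, h1_phi N (lm (N + N) (ExteriorAlgebra.ιMulti ℂ (N + N) v)) = F v := fun _ => rfl
  have h2 := AlternatingMap.eq_smul_basis_det (Pi.basisFun ℂ (Fin (N + N))) F
  rw [h1, h1, h2]
  rw [AlternatingMap.smul_apply, AlternatingMap.smul_apply, Module.Basis.det_comp, smul_eq_mul,
    smul_eq_mul]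
  ring

theorem top_map (O : (Fin (N + N) → ℂ) →ₗ[ℂ] (Fin (N + N) → ℂ))
    (w : ExteriorAlgebra ℂ (Fin (N + N) → ℂ)) :
    h1_phi N (lm (N + N) (ExteriorAlgebra.map O w)) =
      LinearMap.det O * h1_phi N (lm (N + N) w) := by
  have hw : w ∈ Submodule.span ℂ (Set.range fun x : Σ n, (Fin n → (Fin (N + N) → ℂ)) =>
      ExteriorAlgebra.ιMulti ℂ x.1 x.2) := by
    rw [ExteriorAlgebra.ιMulti_span]
    trivial
  induction hw using Submodule.span_induction with
  | mem x hx =>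
    obtain ⟨⟨d, v⟩, rfl⟩ := hx
    simp only
    rw [ExteriorAlgebra.map_apply_ιMulti]
    by_cases hd : d = N + N
    · subst hd
      exact a1_eq O v
    · rw [a1_ne d hd, a1_ne d hd, mul_zero]
  | zero => rw [map_zero, map_zero, map_zero, mul_zero]
  | add x y _ _ hx hy => rw [map_add, map_add, map_add, hx, hy, map_add, map_add, mul_add]
  | smul a x _ hx =>
    rw [map_smul, map_smul, map_smul, hx, map_smul, map_smul, smul_eq_mul, smul_eq_mul]
    ring

end Pool.Agent.H46X
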