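import Pool.Agent.Lib.H46X.Defs

/-!
# Chunk A5: the array on all modes, rotations of arrays
-/

namespace Pool.Agent.H46X

open Finset Pool.Agent.H46P Pool.Agent.H69Hopf
open scoped BigOperators ComplexConjugate InnerProductSpace Nat

variable {m N : ℕ}

theorem a5_emb_hi (R : R4 N) (i : Fin N) (r s t : Fin (N + N)) : emb R (hi i) r s t = 0 := by
  unfold emb
  rw [zl_hi]

theorem a5_emb_lo_hi (R : R4 N) (i j : Fin N) (s t : Fin (N + N)) : emb R (lo i) (hi j) s t = 0 := by
  unfold emb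
  rw [zl_lo, zl_hi]

theorem a5_emb_lo_lo_lo (R : R4 N) (i j k : Fin N) (t : Fin (N + N)) : emb R (lo i) (lo j) (lo k) t = 0 := by
  unfold emb
  rw [zl_lo, zl_lo, zh_lo]

theorem a5_emb_lo_lo_hi_lo (R : R4 N) (i j k l : Fin N) : emb R (lo i) (lo j) (hi k) (lo l) = 0 := by
  unfold emb
  rw [zl_lo, zl_lo, zh_hi, zh_lo]

theorem a5_emb (R : R4 N) (i j k l : Fin N) : emb R (lo i) (lo j) (hi k) (hi l) = R i j k l := by
  unfold emb
  rw [zl_lo, zl_lo, zh_hi, zh_hi]

/-- the array as a vector -/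
def a5_vec (T : R4 m) : ((Fin m × Fin m) × (Fin m × Fin m)) → ℂ := fun x => T x.1.1 x.1.2 x.2.1 x.2.2

/-- fourth tensor power of a matrix -/
noncomputable def a5_kr (O : Matrix (Fin m) (Fin m) ℂ) :
    Matrix ((Fin m × Fin m) × (Fin m × Fin m)) ((Fin m × Fin m) × (Fin m × Fin m)) ℂ :=
  Matrix.kroneckerMap (fun a b => a * b) (Matrix.kroneckerMap (fun a b => a * b) O O)
    (Matrix.kroneckerMap (fun a b => a * b) O O)

theorem a5_vec_rot (O : Matrix (Fin m) (Fin m) ℂ) (T : R4 m) : a5_vec (rot O T) = (a5_kr O).mulVec (a5_vec T) := by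
  funext x
  simp only [a5_vec, rot, Matrix.mulVec, dotProduct, a5_kr, Matrix.kroneckerMap_apply, Fintype.sum_prod_type]
  refine Finset.sum_congr rfl fun p _ => Finset.sum_congr rfl fun q _ => Finset.sum_congr rfl fun r _ =>
    Finset.sum_congr rfl fun s _ => ?_
  ring

theorem a5_vec_inj {T T' : R4 m} (h : a5_vec T = a5_vec T') : T = T' := by
  funext i j k l
  exact congrFun h ((i, j), (k, l))

theorem a5_kr_mul (O O' : Matrix (Fin m) (Fin m) ℂ) : a5_kr (O * O') = a5_kr O * a5_kr O' := by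
  unfold a5_kr
  have h := Matrix.mul_kronecker_mul O O' O O'
  have h2 := Matrix.mul_kronecker_mul (Matrix.kroneckerMap (fun a b => a * b) O O)
    (Matrix.kroneckerMap (fun a b => a * b) O' O') (Matrix.kroneckerMap (fun a b => a * b) O O)
    (Matrix.kroneckerMap (fun a b => a * b) O' O')
  rw [← h2]
  rw [← h]

theorem a5_kr_one : a5_kr (1 : Matrix (Fin m) (Fin m) ℂ) = 1 := by
  unfold a5_kr
  have h := Matrix.one_kronecker_one (α := ℂ) (m := Fin m) (n := Fin m)
  have h2 := Matrix.one_kronecker_one (α := ℂ) (m := Fin m × Fin m) (n := Fin m × Fin m)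
  rw [h, h2]

theorem a5_prod4 (a b c d : Fin m → ℂ) : ((∑ i, a i) * (∑ i, b i)) * ((∑ i, c i) * (∑ i, d i)) =
    ∑ i, ∑ j, ∑ k, ∑ l, (a i * b j) * (c k * d l) := by
  rw [Finset.sum_mul_sum, Finset.sum_mul_sum, Finset.sum_mul]
  refine Finset.sum_congr rfl fun i _ => ?_
  rw [Finset.sum_mul]
  refine Finset.sum_congr rfl fun j _ => ?_
  rw [Finset.mul_sum]
  refine Finset.sum_congr rfl fun k _ => ?_
  rw [Finset.mul_sum]

theorem a5_nrm_lo (x : Fin (N + N) → ℂ) : nrm (fun i => x (lo i)) ≤ nrm x := by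
  unfold nrm
  refine Real.sqrt_le_sqrt ?_
  rw [sum_modes (fun k => ‖x k‖ ^ 2)]
  have : 0 ≤ ∑ i : Fin N, ‖x (hi i)‖ ^ 2 := Finset.sum_nonneg fun i _ => sq_nonneg _
  linarith

theorem a5_nrm_hi (x : Fin (N + N) → ℂ) : nrm (fun i => x (hi i)) ≤ nrm x := by
  unfold nrm
  refine Real.sqrt_le_sqrt ?_
  rw [sum_modes (fun k => ‖x k‖ ^ 2)]
  have : 0 ≤ ∑ i : Fin N, ‖x (lo i)‖ ^ 2 := Finset.sum_nonneg fun i _ => sq_nonneg _
  linarith

theorem a5_nrm_nonneg {κ : Type*} [Fintype κ] (x : κ → ℂ) : 0 ≤ nrm x := Real.sqrt_nonneg _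

theorem a5_nrm_orth {O : Matrix (Fin m) (Fin m) ℝ} (hO : O * O.transpose = 1) (x : Fin m → ℂ) :
    nrm (fun p => ∑ i, x i * cM O i p) = nrm x := by
  unfold nrm
  congr 1
  have h1 : ∀ (y : Fin m → ℂ), ((∑ k, ‖y k‖ ^ 2 : ℝ) : ℂ) = ∑ k, y k * conj (y k) := by
    intro y
    push_cast
    refine Finset.sum_congr rfl fun k _ => ?_
    rw [Complex.mul_conj, Complex.normSq_eq_norm_sq]
    push_cast
    ring
  have h2 : ((∑ p, ‖∑ i, x i * cM O i p‖ ^ 2 : ℝ) : ℂ) = ((∑ k, ‖x k‖ ^ 2 : ℝ) : ℂ) := by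
    rw [h1 (fun p => ∑ i, x i * cM O i p), h1 x]
    have h3 : ∀ p, conj (∑ i, x i * cM O i p) = ∑ i, conj (x i) * cM O i p := by
      intro p
      rw [map_sum]
      refine Finset.sum_congr rfl fun i _ => ?_
      rw [map_mul, cM_apply, Complex.conj_ofReal]
    simp only [h3, Finset.sum_mul_sum]
    rw [Finset.sum_comm]
    refine Finset.sum_congr rfl fun i _ => ?_
    rw [Finset.sum_comm]
    have h4 : ∀ j, ∑ p, x i * cM O i p * (conj (x j) * cM O j p) = x i * conj (x j) * ((O * O.transpose) i j : ℂ) := by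
      intro j
      rw [Matrix.mul_apply]
      push_cast
      rw [Finset.mul_sum]
      refine Finset.sum_congr rfl fun p _ => ?_
      rw [Matrix.transpose_apply, cM_apply, cM_apply]
      ring
    rw [Finset.sum_congr rfl fun j _ => h4 j, hO, Finset.sum_eq_single i]
    · rw [Matrix.one_apply_eq]
      push_cast
      ring
    · intro j _ hj
      rw [Matrix.one_apply_ne hj.symm]
      push_cast
      ring
    · intro h
      exact absurd (Finset.mem_univ i) h
  exact_mod_cast h2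

theorem Vg_emb (R : R4 N) : Vg (emb R) = Vh R := by
  have hz : ∀ B : Fk (N + N) →L[ℂ] Fk (N + N), (0 : ℂ) • B = 0 := fun B => zero_smul ℂ B
  unfold Vg H46P.Vh
  simp only [sum_modes, a5_emb_hi, a5_emb_lo_hi, a5_emb_lo_lo_lo, a5_emb_lo_lo_hi_lo, a5_emb, hz,
    Finset.sum_const_zero, add_zero, zero_add]

theorem RB_emb {R : R4 N} {ρ : ℝ} (hρ : 0 ≤ ρ) (h : RB R ρ) : RB (emb R) ρ := by
  intro x y z w
  simp only [sum_modes, a5_emb_hi, a5_emb_lo_hi, a5_emb_lo_lo_lo, a5_emb_lo_lo_hi_lo, a5_emb, zero_mul,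
    Finset.sum_const_zero, add_zero, zero_add]
  refine (h (fun i => x (lo i)) (fun i => y (lo i)) (fun i => z (hi i)) (fun i => w (hi i))).trans ?_
  have h1 := a5_nrm_lo x
  have h2 := a5_nrm_lo y
  have h3 := a5_nrm_hi z
  have h4 := a5_nrm_hi w
  have n1 := a5_nrm_nonneg (fun i => x (lo i))
  have n2 := a5_nrm_nonneg (fun i => y (lo i))
  have n3 := a5_nrm_nonneg (fun i => z (hi i))
  have n4 := a5_nrm_nonneg (fun i => w (hi i))
  have m1 := a5_nrm_nonneg x
  have m2 := a5_nrm_nonneg y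
  have m3 := a5_nrm_nonneg z
  exact mul_le_mul (mul_le_mul (mul_le_mul (mul_le_mul_of_nonneg_left h1 hρ) h2 n2 (mul_nonneg hρ m1)) h3 n3
    (mul_nonneg (mul_nonneg hρ m1) m2)) h4 n4 (mul_nonneg (mul_nonneg (mul_nonneg hρ m1) m2) m3)

theorem real_emb {R : R4 N} (h : RealR4 R) : RealR4 (emb R) := by
  intro q r s t
  refine Fin.addCases (fun i => ?_) (fun i => ?_) q
  · refine Fin.addCases (fun j => ?_) (fun j => ?_) r
    · refine Fin.addCases (fun k => ?_) (fun k => ?_) s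
      · have := a5_emb_lo_lo_lo R i j k t
        change (emb R (lo i) (lo j) (lo k) t).im = 0
        rw [this, Complex.zero_im]
      · refine Fin.addCases (fun l => ?_) (fun l => ?_) t
        · change (emb R (lo i) (lo j) (hi k) (lo l)).im = 0
          rw [a5_emb_lo_lo_hi_lo, Complex.zero_im]
        · change (emb R (lo i) (lo j) (hi k) (hi l)).im = 0
          rw [a5_emb]
          exact h i j k l
    · change (emb R (lo i) (hi j) s t).im = 0
      rw [a5_emb_lo_hi, Complex.zero_im]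
  · change (emb R (hi i) r s t).im = 0
    rw [a5_emb_hi, Complex.zero_im]

theorem rot_rot (O O' : Matrix (Fin m) (Fin m) ℂ) (T : R4 m) : rot O (rot O' T) = rot (O * O') T := by
  apply a5_vec_inj
  rw [a5_vec_rot, a5_vec_rot, a5_vec_rot, a5_kr_mul, Matrix.mulVec_mulVec]

theorem rot_one (T : R4 m) : rot 1 T = T := by
  apply a5_vec_inj
  rw [a5_vec_rot, a5_kr_one, Matrix.one_mulVec]

theorem real_rot {O : Matrix (Fin m) (Fin m) ℝ} {T : R4 m} (h : RealR4 T) :
    RealR4 (rot (cM O) T) := by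
  intro i j k l
  unfold rot
  simp only [Complex.im_sum]
  refine Finset.sum_eq_zero fun p _ => Finset.sum_eq_zero fun q _ => Finset.sum_eq_zero fun r _ =>
    Finset.sum_eq_zero fun s _ => ?_
  simp only [cM_apply]
  rw [Complex.mul_im, h p q r s, ← Complex.ofReal_mul, ← Complex.ofReal_mul, ← Complex.ofReal_mul,
    Complex.ofReal_im]
  ring

/-- `nrm (Oᵀ x) = nrm x` for a real orthogonal matrix and a complex vector -/
theorem RB_rot {O : Matrix (Fin m) (Fin m) ℝ} (hO : O * O.transpose = 1) {T : R4 m} {ρ : ℝ}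
    (hρ : 0 ≤ ρ) (h : RB T ρ) : RB (rot (cM O) T) ρ := by
  intro x y z w
  have key : ∑ i, ∑ j, ∑ k, ∑ l, rot (cM O) T i j k l * x i * y j * z k * w l =
      ∑ p, ∑ q, ∑ r, ∑ s, T p q r s * (∑ i, x i * cM O i p) * (∑ i, y i * cM O i q) * (∑ i, z i * cM O i r) *
        (∑ i, w i * cM O i s) := by
    let X : ((Fin m × Fin m) × (Fin m × Fin m)) → ℂ := fun a => x a.1.1 * y a.1.2 * (z a.2.1 * w a.2.2)
    have h1 : ∑ i, ∑ j, ∑ k, ∑ l, rot (cM O) T i j k l * x i * y j * z k * w l =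
        dotProduct X (a5_vec (rot (cM O) T)) := by
      simp only [dotProduct, Fintype.sum_prod_type, a5_vec, X]
      refine Finset.sum_congr rfl fun p _ => Finset.sum_congr rfl fun q _ => Finset.sum_congr rfl fun r _ =>
        Finset.sum_congr rfl fun s _ => ?_
      ring
    rw [h1, a5_vec_rot, Matrix.dotProduct_mulVec]
    have h2 : ∀ p q r s, Matrix.vecMul X (a5_kr (cM O)) ((p, q), (r, s)) =
        ((∑ i, x i * cM O i p) * (∑ i, y i * cM O i q)) * ((∑ i, z i * cM O i r) * (∑ i, w i * cM O i s)) := by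
      intro p q r s
      rw [a5_prod4]
      simp only [Matrix.vecMul, dotProduct, Fintype.sum_prod_type, a5_kr, Matrix.kroneckerMap_apply, X]
      refine Finset.sum_congr rfl fun i _ => Finset.sum_congr rfl fun j _ => Finset.sum_congr rfl fun k _ =>
        Finset.sum_congr rfl fun l _ => ?_
      ring
    simp only [dotProduct, Fintype.sum_prod_type, h2, a5_vec]
    refine Finset.sum_congr rfl fun i _ => Finset.sum_congr rfl fun j _ => Finset.sum_congr rfl fun k _ =>
        Finset.sum_congr rfl fun l _ => ?_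
    ring
  rw [key]
  refine (h _ _ _ _).trans ?_
  rw [a5_nrm_orth hO x, a5_nrm_orth hO y, a5_nrm_orth hO z, a5_nrm_orth hO w]

end Pool.Agent.H46X
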