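import Pool.Agent.Lib.H46X.A3
import Pool.Agent.Lib.H46X.A5

/-!
# Chunk A10: bidegree

Diagonal matrix `D = 2` on the low modes and `1 / 2` on the high modes, `det D = 1`; `map (toLin' D)`
multiplies the element of `OmA` by `4`, that of `OmB` by `1 / 4`, and fixes those of `om`, `omJ`,
`Vh R`; `exp_map` with `v = eA ^ i * eB ^ j`.
-/

namespace Pool.Agent.H46X

open Finset Pool.Agent.H46P Pool.Agent.H69Hopf
open scoped BigOperators ComplexConjugate InnerProductSpace Nat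

variable {m N : ℕ}

/-- the letters -/
noncomputable def a10_c (q : Fin (N + N)) : ExteriorAlgebra ℂ (Fin (N + N) → ℂ) :=
  ExteriorAlgebra.ι ℂ (Pi.single q 1 : Fin (N + N) → ℂ)

theorem a10_lm (q : Fin (N + N)) : lm (N + N) (a10_c q) = fA (q, true) := by
  unfold lm a10_c
  rw [ExteriorAlgebra.lift_ι_apply, h2_L_apply, Finset.sum_eq_single q]
  · simp
  · intro b _ hb
    rw [Pi.single_eq_of_ne hb]
    exact zero_smul ℂ (fA ((b, true) : Lt (N + N)) : Fk (N + N) →L[ℂ] Fk (N + N))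
  · intro h
    exact absurd (Finset.mem_univ q) h

/-- the diagonal -/
noncomputable def a10_d (N : ℕ) : Fin (N + N) → ℂ :=
  Fin.addCases (motive := fun _ => ℂ) (fun _ => 2) (fun _ => 1 / 2)

theorem a10_d_lo (i : Fin N) : a10_d N (lo i) = 2 :=
  Fin.addCases_left (motive := fun _ => ℂ) (left := fun _ => 2) (right := fun _ => 1 / 2) i

theorem a10_d_hi (i : Fin N) : a10_d N (hi i) = 1 / 2 :=
  Fin.addCases_right (motive := fun _ => ℂ) (left := fun _ => 2) (right := fun _ => 1 / 2) i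

/-- the diagonal map -/
noncomputable def a10_O (N : ℕ) : (Fin (N + N) → ℂ) →ₗ[ℂ] (Fin (N + N) → ℂ) :=
  Matrix.toLin' (Matrix.diagonal (a10_d N))

theorem a10_map (q : Fin (N + N)) : ExteriorAlgebra.map (a10_O N) (a10_c q) = a10_d N q • a10_c q := by
  unfold a10_c
  rw [ExteriorAlgebra.map_apply_ι, ← map_smul]
  congr 1
  unfold a10_O
  rw [Matrix.toLin'_apply]
  funext r
  rw [Matrix.mulVec_diagonal]
  by_cases h : r = q
  · rw [h]
    simp
  · simp [Pi.single_eq_of_ne h]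

theorem a10_map_lo (i : Fin N) : ExteriorAlgebra.map (a10_O N) (a10_c (lo i)) = (2 : ℂ) • a10_c (lo i) := by
  rw [a10_map, a10_d_lo]

theorem a10_map_hi (i : Fin N) : ExteriorAlgebra.map (a10_O N) (a10_c (hi i)) = (1 / 2 : ℂ) • a10_c (hi i) := by
  rw [a10_map, a10_d_hi]

theorem a10_det : LinearMap.det (a10_O N) = 1 := by
  unfold a10_O
  rw [LinearMap.det_toLin', Matrix.det_diagonal, Fin.prod_univ_add]
  have h1 : ∀ i : Fin N, a10_d N (Fin.castAdd N i) = 2 := a10_d_lo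
  have h2 : ∀ i : Fin N, a10_d N (Fin.natAdd N i) = 1 / 2 := a10_d_hi
  simp only [h1, h2]
  rw [← Finset.prod_mul_distrib]
  simp

/-- elements of the exterior algebra -/
noncomputable def a10_om (N : ℕ) : ExteriorAlgebra ℂ (Fin (N + N) → ℂ) := ∑ i : Fin N, a10_c (lo i) * a10_c (hi i)

noncomputable def a10_omJ (J : Matrix (Fin N) (Fin N) ℝ) : ExteriorAlgebra ℂ (Fin (N + N) → ℂ) :=
  ∑ i, ∑ j, (J i j : ℂ) • (a10_c (lo i) * a10_c (hi j))

noncomputable def a10_A (J : Matrix (Fin N) (Fin N) ℝ) : ExteriorAlgebra ℂ (Fin (N + N) → ℂ) :=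
  ∑ i, ∑ j, (J i j : ℂ) • (a10_c (lo i) * a10_c (lo j))

noncomputable def a10_B (J : Matrix (Fin N) (Fin N) ℝ) : ExteriorAlgebra ℂ (Fin (N + N) → ℂ) :=
  ∑ i, ∑ j, (J i j : ℂ) • (a10_c (hi i) * a10_c (hi j))

noncomputable def a10_V (R : R4 N) : ExteriorAlgebra ℂ (Fin (N + N) → ℂ) :=
  ∑ i, ∑ j, ∑ k, ∑ l, R i j k l • (a10_c (lo i) * a10_c (lo j) * a10_c (hi k) * a10_c (hi l))

theorem a10_lm_om : lm (N + N) (a10_om N) = om N := by
  unfold a10_om om
  rw [map_sum]
  simp only [map_mul, a10_lm]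

theorem a10_lm_omJ (J : Matrix (Fin N) (Fin N) ℝ) : lm (N + N) (a10_omJ J) = omJ J := by
  unfold a10_omJ omJ
  simp only [map_sum, map_smul, map_mul, a10_lm]

theorem a10_lm_A (J : Matrix (Fin N) (Fin N) ℝ) : lm (N + N) (a10_A J) = OmA J := by
  unfold a10_A OmA
  simp only [map_sum, map_smul, map_mul, a10_lm]

theorem a10_lm_B (J : Matrix (Fin N) (Fin N) ℝ) : lm (N + N) (a10_B J) = OmB J := by
  unfold a10_B OmB
  simp only [map_sum, map_smul, map_mul, a10_lm]

theorem a10_lm_V (R : R4 N) : lm (N + N) (a10_V R) = Vh R := by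
  unfold a10_V Vh
  simp only [map_sum, map_smul, map_mul, a10_lm]

theorem a10_m_om : ExteriorAlgebra.map (a10_O N) (a10_om N) = a10_om N := by
  unfold a10_om
  rw [map_sum]
  refine Finset.sum_congr rfl fun i _ => ?_
  rw [map_mul, a10_map_lo, a10_map_hi, smul_mul_smul_comm]
  norm_num

theorem a10_m_omJ (J : Matrix (Fin N) (Fin N) ℝ) : ExteriorAlgebra.map (a10_O N) (a10_omJ J) = a10_omJ J := by
  unfold a10_omJ
  rw [map_sum]
  refine Finset.sum_congr rfl fun i _ => ?_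
  rw [map_sum]
  refine Finset.sum_congr rfl fun j _ => ?_
  rw [map_smul, map_mul, a10_map_lo, a10_map_hi, smul_mul_smul_comm]
  norm_num

theorem a10_m_A (J : Matrix (Fin N) (Fin N) ℝ) : ExteriorAlgebra.map (a10_O N) (a10_A J) = (4 : ℂ) • a10_A J := by
  unfold a10_A
  rw [map_sum, Finset.smul_sum]
  refine Finset.sum_congr rfl fun i _ => ?_
  rw [map_sum, Finset.smul_sum]
  refine Finset.sum_congr rfl fun j _ => ?_
  rw [map_smul, map_mul, a10_map_lo, a10_map_lo, smul_mul_smul_comm, smul_comm]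
  norm_num

theorem a10_m_B (J : Matrix (Fin N) (Fin N) ℝ) : ExteriorAlgebra.map (a10_O N) (a10_B J) = (1 / 4 : ℂ) • a10_B J := by
  unfold a10_B
  rw [map_sum, Finset.smul_sum]
  refine Finset.sum_congr rfl fun i _ => ?_
  rw [map_sum, Finset.smul_sum]
  refine Finset.sum_congr rfl fun j _ => ?_
  rw [map_smul, map_mul, a10_map_hi, a10_map_hi, smul_mul_smul_comm, smul_comm]
  norm_num

theorem a10_m_V (R : R4 N) : ExteriorAlgebra.map (a10_O N) (a10_V R) = a10_V R := by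
  unfold a10_V
  rw [map_sum]
  refine Finset.sum_congr rfl fun i _ => ?_
  rw [map_sum]
  refine Finset.sum_congr rfl fun j _ => ?_
  rw [map_sum]
  refine Finset.sum_congr rfl fun k _ => ?_
  rw [map_sum]
  refine Finset.sum_congr rfl fun l _ => ?_
  rw [map_smul, map_mul, map_mul, map_mul, a10_map_lo, a10_map_lo, a10_map_hi, a10_map_hi, smul_mul_smul_comm,
    smul_mul_smul_comm, smul_mul_smul_comm]
  norm_num

theorem bideg (J : Matrix (Fin N) (Fin N) ℝ) (R : R4 N) (x y s t : ℂ) (i j : ℕ) (hij : i ≠ j) :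
    h1_phi N ((s • OmA J) ^ i * (t • OmB J) ^ j *
      NormedSpace.exp (x • om N + y • omJ J + Vh R)) = 0 := by
  have h1 := exp_map (a10_O N) ((s • a10_A J) ^ i * (t • a10_B J) ^ j) (x • a10_om N + y • a10_omJ J + a10_V R)
  have h2 : ExteriorAlgebra.map (a10_O N) (x • a10_om N + y • a10_omJ J + a10_V R) =
      x • a10_om N + y • a10_omJ J + a10_V R := by
    rw [map_add, map_add, map_smul, map_smul, a10_m_om, a10_m_omJ, a10_m_V]
  have h3 : ExteriorAlgebra.map (a10_O N) ((s • a10_A J) ^ i * (t • a10_B J) ^ j) =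
      ((4 : ℂ) ^ i * (1 / 4 : ℂ) ^ j) • ((s • a10_A J) ^ i * (t • a10_B J) ^ j) := by
    rw [map_mul, map_pow, map_pow, map_smul, map_smul, a10_m_A, a10_m_B, smul_comm s, smul_comm t, smul_pow (4 : ℂ),
      smul_pow (1 / 4 : ℂ), smul_mul_smul_comm]
  have h4 : lm (N + N) (x • a10_om N + y • a10_omJ J + a10_V R) = x • om N + y • omJ J + Vh R := by
    rw [map_add, map_add, map_smul, map_smul, a10_lm_om, a10_lm_omJ, a10_lm_V]
  have h5 : lm (N + N) ((s • a10_A J) ^ i * (t • a10_B J) ^ j) = (s • OmA J) ^ i * (t • OmB J) ^ j := by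
    rw [map_mul, map_pow, map_pow, map_smul, map_smul, a10_lm_A, a10_lm_B]
  rw [h2, h3, map_smul, h4, h5, a10_det, one_mul, smul_mul_assoc, map_smul, smul_eq_mul] at h1
  have h6 : (4 : ℂ) ^ i * (1 / 4 : ℂ) ^ j ≠ 1 := by
    intro h
    have h7 : (4 : ℂ) ^ i = 4 ^ j := by
      rw [one_div, inv_pow] at h
      have h8 : (4 : ℂ) ^ j ≠ 0 := pow_ne_zero _ (by norm_num)
      field_simp at h
      exact h
    have h9 : (4 : ℕ) ^ i = 4 ^ j := by exact_mod_cast h7
    exact hij (Nat.pow_right_injective (by norm_num) h9)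
  by_contra hne
  exact h6 (mul_right_cancel₀ hne (by rw [h1, one_mul]))

end Pool.Agent.H46X
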