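import Pool.Agent.Lib.H46X.Defs

/-!
# Chunk A11b: nilpotency

`B ^ k f` vanishes on sets of cardinality `< 2 k`.
-/

namespace Pool.Agent.H46X

open Finset Pool.Agent.H46P Pool.Agent.H69Hopf
open scoped BigOperators ComplexConjugate InnerProductSpace Nat

variable {m N : ℕ}

/-- vectors in degrees at least `d` -/
def a11b_ge {m : ℕ} (d : ℕ) (f : Fk m) : Prop := ∀ S : Finset (Fin m), S.card < d → f S = 0

theorem a11b_ge_cre {m d : ℕ} (i : Fin m) (f : Fk m) (hf : a11b_ge d f) :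
    a11b_ge (d + 1) (fA (i, true) f) := by
  intro S hS
  rw [h2_cre_apply]
  split_ifs with hi
  · rw [hf, mul_zero]
    rw [Finset.card_erase_of_mem hi]
    have := Finset.card_pos.2 ⟨i, hi⟩
    omega
  · rfl

theorem a11b_ge_pair {m d : ℕ} (i j : Fin m) (c : ℂ) (f : Fk m) (hf : a11b_ge d f) :
    a11b_ge (d + 2) ((c • (fA (i, true) * fA (j, true))) f) := by
  intro S hS
  have h := a11b_ge_cre i _ (a11b_ge_cre j _ hf) S hS
  have e : ((c • (fA (i, true) * fA (j, true))) f) S = c * (fA (i, true) (fA (j, true) f)) S := rfl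
  rw [e, h, mul_zero]

theorem a11b_ge_sum {m d : ℕ} {ι : Type*} (s : Finset ι) (B : ι → Fk m →L[ℂ] Fk m) (f : Fk m)
    (hf : ∀ i ∈ s, a11b_ge d (B i f)) : a11b_ge d ((∑ i ∈ s, B i) f) := by
  intro S hS
  rw [ContinuousLinearMap.sum_apply, WithLp.ofLp_sum, Finset.sum_apply]
  exact Finset.sum_eq_zero fun i hi => hf i hi S hS

theorem a11b_nil {m : ℕ} (B : Fk m →L[ℂ] Fk m) (hB : ∀ d f, a11b_ge d f → a11b_ge (d + 2) (B f))
    (k : ℕ) (hk : m < 2 * k) : B ^ k = 0 := by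
  have h : ∀ j : ℕ, ∀ f : Fk m, a11b_ge (2 * j) ((B ^ j) f) := by
    intro j
    induction j with
    | zero => intro f S hS; omega
    | succ j ih =>
      intro f
      have e : (B ^ (j + 1)) f = B ((B ^ j) f) := by rw [pow_succ']; rfl
      rw [e]
      have := hB _ _ (ih f)
      rwa [show 2 * (j + 1) = 2 * j + 2 from by ring]
  ext f S
  have h2 := h k f S (lt_of_le_of_lt (by simpa using Finset.card_le_univ S) hk)
  rw [h2]
  rfl

/-- nilpotency: `B ^ k f` vanishes on sets of cardinality `< 2 k` -/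
theorem om_nil : om N ^ (N + 1) = 0 := by
  refine a11b_nil _ (fun d f hf => ?_) (N + 1) (by omega)
  unfold om
  refine a11b_ge_sum _ _ _ fun i _ => ?_
  have := a11b_ge_pair (lo i) (hi i) 1 f hf
  rwa [one_smul] at this
theorem omJ_nil (J : Matrix (Fin N) (Fin N) ℝ) : omJ J ^ (N + 1) = 0 := by
  refine a11b_nil _ (fun d f hf => ?_) (N + 1) (by omega)
  unfold omJ
  exact a11b_ge_sum _ _ _ fun i _ => a11b_ge_sum _ _ _ fun j _ => a11b_ge_pair _ _ _ f hf
theorem OmA_nil (J : Matrix (Fin N) (Fin N) ℝ) : OmA J ^ (N + 1) = 0 := by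
  refine a11b_nil _ (fun d f hf => ?_) (N + 1) (by omega)
  unfold OmA
  exact a11b_ge_sum _ _ _ fun i _ => a11b_ge_sum _ _ _ fun j _ => a11b_ge_pair _ _ _ f hf
theorem OmB_nil (J : Matrix (Fin N) (Fin N) ℝ) : OmB J ^ (N + 1) = 0 := by
  refine a11b_nil _ (fun d f hf => ?_) (N + 1) (by omega)
  unfold OmB
  exact a11b_ge_sum _ _ _ fun i _ => a11b_ge_sum _ _ _ fun j _ => a11b_ge_pair _ _ _ f hf

end Pool.Agent.H46X
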