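import Pool.Agent.Lib.H46X.Defs

/-!
# Chunk A11c: algebra of the quadratic forms
-/

namespace Pool.Agent.H46X

open Finset Pool.Agent.H46P Pool.Agent.H69Hopf
open scoped BigOperators ComplexConjugate InnerProductSpace Nat

variable {m N : ℕ}

theorem c11_anti (i j : Fin (N + N)) :
    fA (i, true) * fA (j, true) = -(fA (j, true) * fA (i, true)) :=
  eq_neg_of_add_eq_zero_left (h2_anti i j)

theorem c11_abs {𝓡 : Type*} [Ring 𝓡] [Algebra ℂ 𝓡] (c d : Fin N → 𝓡)
    (hcd : ∀ i j, d i * c j = -(c j * d i)) (J : Fin N → Fin N → ℂ) (hJ : ∀ i j, J j i = -J i j)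
    (X Y Z : ℂ) :
    (1 / 2 : ℂ) • ((∑ i, (∑ j, (2 * Z * J i j) • (c i * c j) +
        ∑ j, (X * (if i = j then 1 else 0) + Y * J i j) • (c i * d j))) +
      (∑ i, (∑ j, (-X * (if i = j then 1 else 0) + Y * J i j) • (d i * c j) +
        ∑ j, (-(2 * Z) * J i j) • (d i * d j)))) =
      X • ∑ i, c i * d i + Y • ∑ i, ∑ j, J i j • (c i * d j) +
        Z • (∑ i, ∑ j, J i j • (c i * c j) - ∑ i, ∑ j, J i j • (d i * d j)) := by
  have e1 : ∑ i, ∑ j, (2 * Z * J i j) • (c i * c j) =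
      (2 * Z) • ∑ i, ∑ j, J i j • (c i * c j) := by
    simp only [Finset.smul_sum, smul_smul]
  have e4 : ∑ i, ∑ j, (-(2 * Z) * J i j) • (d i * d j) =
      (-(2 * Z)) • ∑ i, ∑ j, J i j • (d i * d j) := by
    simp only [Finset.smul_sum, smul_smul]
  have e2 : ∑ i, ∑ j, (X * (if i = j then 1 else 0) + Y * J i j) • (c i * d j) =
      X • ∑ i, c i * d i + Y • ∑ i, ∑ j, J i j • (c i * d j) := by
    simp only [add_smul, Finset.sum_add_distrib, Finset.smul_sum, smul_smul]
    congr 1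
    refine Finset.sum_congr rfl fun i _ => ?_
    rw [Finset.sum_eq_single i]
    · simp
    · intro j _ hj
      simp [Ne.symm hj]
    · simp
  have e3 : ∑ i, ∑ j, (-X * (if i = j then 1 else 0) + Y * J i j) • (d i * c j) =
      X • ∑ i, c i * d i + Y • ∑ i, ∑ j, J i j • (c i * d j) := by
    rw [← e2, Finset.sum_comm]
    refine Finset.sum_congr rfl fun i _ => Finset.sum_congr rfl fun j _ => ?_
    rw [hcd, hJ i j, smul_neg, ← neg_smul]
    congr 1
    have : (if j = i then (1 : ℂ) else 0) = if i = j then 1 else 0 := by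
      simp only [eq_comm]
    rw [this]
    ring
  simp only [Finset.sum_add_distrib]
  rw [e1, e2, e3, e4]
  module

theorem Qg_Km {J : Matrix (Fin N) (Fin N) ℝ} (hJt : J.transpose = -J) (X Y Z : ℝ) :
    Qg (cM (Km J X Y Z)) = (X : ℂ) • om N + (Y : ℂ) • omJ J + (Z : ℂ) • (OmA J - OmB J) := by
  have hJ : ∀ i j, (J j i : ℂ) = -(J i j : ℂ) := by
    intro i j
    have h := congrFun (congrFun hJt i) j
    rw [Matrix.transpose_apply, Matrix.neg_apply] at h
    rw [h]
    push_cast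
    rfl
  refine Eq.trans ?_ (c11_abs (fun i : Fin N => fA (lo i, true)) (fun i => fA (hi i, true))
    (fun i j => c11_anti _ _) (fun i j => (J i j : ℂ)) hJ X Y Z)
  unfold Qg Km
  rw [sum_modes]
  simp only [sum_modes, cM_apply, blk_lo_lo, blk_lo_hi, blk_hi_lo, blk_hi_hi, Matrix.add_apply,
    Matrix.smul_apply, smul_eq_mul, Matrix.one_apply]
  congr 2
  · refine Finset.sum_congr rfl fun i _ => ?_
    congr 1
    · refine Finset.sum_congr rfl fun j _ => ?_
      congr 1
      push_cast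
      ring
    · refine Finset.sum_congr rfl fun j _ => ?_
      congr 1
      split_ifs <;> push_cast <;> ring
  · refine Finset.sum_congr rfl fun i _ => ?_
    congr 1
    · refine Finset.sum_congr rfl fun j _ => ?_
      congr 1
      split_ifs <;> push_cast <;> ring
    · refine Finset.sum_congr rfl fun j _ => ?_
      congr 1
      push_cast
      ring

theorem c11_rJ {𝓡 : Type*} [Ring 𝓡] [Algebra ℂ 𝓡] (c d : Fin N → 𝓡)
    (hcd : ∀ i j, c i * d j = -(d j * c i)) (hdd : ∀ i j, d i * d j = -(d j * d i))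
    (J : Fin N → Fin N → ℂ) :
    ∑ i, ∑ j, ∑ k, ∑ l, (J i k * J j l - J i l * J j k + 2 * (J i j * J k l)) •
      (c i * c j * d k * d l) =
      (-2 : ℂ) • ((∑ i, ∑ j, J i j • (c i * d j)) * (∑ i, ∑ j, J i j • (c i * d j))) +
        (2 : ℂ) • ((∑ i, ∑ j, J i j • (c i * c j)) * (∑ i, ∑ j, J i j • (d i * d j))) := by
  have e1 : ∑ i, ∑ j, ∑ k, ∑ l, (J i k * J j l) • (c i * c j * d k * d l) =
      -((∑ i, ∑ j, J i j • (c i * d j)) * (∑ i, ∑ j, J i j • (c i * d j))) := by
    rw [Finset.sum_mul_sum, ← Finset.sum_neg_distrib]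
    refine Finset.sum_congr rfl fun i _ => ?_
    rw [← Finset.sum_neg_distrib]
    refine Finset.sum_congr rfl fun j _ => ?_
    rw [Finset.sum_mul_sum, ← Finset.sum_neg_distrib]
    refine Finset.sum_congr rfl fun k _ => ?_
    rw [← Finset.sum_neg_distrib]
    refine Finset.sum_congr rfl fun l _ => ?_
    rw [smul_mul_smul_comm, ← smul_neg]
    congr 1
    rw [mul_assoc (c i) (c j) (d k), hcd j k, mul_neg, neg_mul]
    congr 1
    simp only [mul_assoc]
  have e2 : ∑ i, ∑ j, ∑ k, ∑ l, (J i l * J j k) • (c i * c j * d k * d l) =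
      ((∑ i, ∑ j, J i j • (c i * d j)) * (∑ i, ∑ j, J i j • (c i * d j))) := by
    rw [← neg_neg ((∑ i, ∑ j, J i j • (c i * d j)) * (∑ i, ∑ j, J i j • (c i * d j))), ← e1,
      ← Finset.sum_neg_distrib]
    refine Finset.sum_congr rfl fun i _ => ?_
    rw [← Finset.sum_neg_distrib]
    refine Finset.sum_congr rfl fun j _ => ?_
    rw [Finset.sum_comm, ← Finset.sum_neg_distrib]
    refine Finset.sum_congr rfl fun k _ => ?_
    rw [← Finset.sum_neg_distrib]
    refine Finset.sum_congr rfl fun l _ => ?_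
    rw [← smul_neg]
    congr 1
    rw [mul_assoc, hdd l k, mul_neg, mul_assoc (c i * c j) (d k) (d l)]
  have e3 : ∑ i, ∑ j, ∑ k, ∑ l, (2 * (J i j * J k l)) • (c i * c j * d k * d l) =
      (2 : ℂ) • ((∑ i, ∑ j, J i j • (c i * c j)) * (∑ i, ∑ j, J i j • (d i * d j))) := by
    rw [Finset.sum_mul, Finset.smul_sum]
    refine Finset.sum_congr rfl fun i _ => ?_
    rw [Finset.sum_mul, Finset.smul_sum]
    refine Finset.sum_congr rfl fun j _ => ?_
    rw [Finset.mul_sum, Finset.smul_sum]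
    refine Finset.sum_congr rfl fun k _ => ?_
    rw [Finset.mul_sum, Finset.smul_sum]
    refine Finset.sum_congr rfl fun l _ => ?_
    rw [smul_mul_smul_comm, smul_smul]
    congr 1
    simp only [mul_assoc]
  simp only [add_smul, sub_smul, Finset.sum_add_distrib, Finset.sum_sub_distrib]
  rw [e1, e2, e3]
  module

theorem Vh_rJ (J : Matrix (Fin N) (Fin N) ℝ) :
    Vh (RC (rJ J)) = (-2 : ℂ) • (omJ J * omJ J) + (2 : ℂ) • (OmA J * OmB J) := by
  refine Eq.trans ?_ (c11_rJ (fun i : Fin N => fA (lo i, true)) (fun i => fA (hi i, true))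
    (fun i j => c11_anti _ _) (fun i j => c11_anti _ _) (fun i j => (J i j : ℂ)))
  unfold Vh RC rJ
  refine Finset.sum_congr rfl fun i _ => Finset.sum_congr rfl fun j _ =>
    Finset.sum_congr rfl fun k _ => Finset.sum_congr rfl fun l _ => ?_
  congr 1
  push_cast
  rfl

theorem c11_comb {𝓡 : Type*} [Ring 𝓡] [Algebra ℂ 𝓡] (c d : Fin N → 𝓡)
    (P Q S : R4 N) (k l : ℂ) :
    ∑ i, ∑ j, ∑ a, ∑ b, (P i j a b - k * Q i j a b - l * S i j a b) •
      (c i * c j * d a * d b) =
    ∑ i, ∑ j, ∑ a, ∑ b, P i j a b • (c i * c j * d a * d b) -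
      k • ∑ i, ∑ j, ∑ a, ∑ b, Q i j a b • (c i * c j * d a * d b) -
      l • ∑ i, ∑ j, ∑ a, ∑ b, S i j a b • (c i * c j * d a * d b) := by
  simp only [Finset.smul_sum, smul_smul, sub_smul, Finset.sum_sub_distrib]

theorem c11_fin {M : Type*} [AddCommGroup M] [Module ℂ M] (P u v w : M) (k l : ℂ) :
    P - k • (-2 : ℂ) • u - l • ((-2 : ℂ) • v + (2 : ℂ) • w) =
      P + (2 * k) • u + (2 * l) • v - (2 * l) • w := by
  module

theorem Vh_comb (P : Arr N) (J : Matrix (Fin N) (Fin N) ℝ) (k l : ℝ) :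
    Vh (RC (fun i j a b => P i j a b - k * idA N i j a b - l * rJ J i j a b)) =
      Vh (RC P) + (2 * k : ℂ) • (om N * om N) + (2 * l : ℂ) • (omJ J * omJ J) -
        (2 * l : ℂ) • (OmA J * OmB J) := by
  have h1 : Vh (RC (fun i j a b => P i j a b - k * idA N i j a b - l * rJ J i j a b)) =
      Vh (RC P) - (k : ℂ) • Vh (RC (idA N)) - (l : ℂ) • Vh (RC (rJ J)) := by
    refine Eq.trans ?_ (c11_comb (fun i : Fin N => fA (lo i, true)) (fun i => fA (hi i, true))
      (RC P) (RC (idA N)) (RC (rJ J)) k l)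
    unfold Vh
    refine Finset.sum_congr rfl fun i _ => Finset.sum_congr rfl fun j _ =>
      Finset.sum_congr rfl fun a _ => Finset.sum_congr rfl fun b _ => ?_
    congr 1
    unfold RC
    push_cast
    rfl
  rw [h1, vh_idA, Vh_rJ, pow_two]
  exact c11_fin _ _ _ _ _ _

end Pool.Agent.H46X
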