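import Pool.Agent.Lib.H46X.Defs

/-!
# Chunk A11a: the forms commute
-/

namespace Pool.Agent.H46X

open Finset Pool.Agent.H46P Pool.Agent.H69Hopf
open scoped BigOperators ComplexConjugate InnerProductSpace Nat

variable {m N : ℕ}

theorem a11a_pair2 {m : ℕ} (i j k l : Fin m) :
    Commute (fA (i, true) * fA (j, true)) (fA (k, true) * fA (l, true)) :=
  (g1_comm2 i j k).mul_right (g1_comm2 i j l)

/-- quadratic words commute with all creation operators: see `H46P.om_Vh_comm`, `g1_comm2` -/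
theorem om_omJ_comm (J : Matrix (Fin N) (Fin N) ℝ) : Commute (om N) (omJ J) := by
  unfold om omJ
  exact Commute.sum_left _ _ _ fun _ _ => Commute.sum_right _ _ _ fun _ _ =>
    Commute.sum_right _ _ _ fun _ _ => Commute.smul_right (a11a_pair2 _ _ _ _) _
theorem om_OmA_comm (J : Matrix (Fin N) (Fin N) ℝ) : Commute (om N) (OmA J) := by
  unfold om OmA
  exact Commute.sum_left _ _ _ fun _ _ => Commute.sum_right _ _ _ fun _ _ =>
    Commute.sum_right _ _ _ fun _ _ => Commute.smul_right (a11a_pair2 _ _ _ _) _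
theorem om_OmB_comm (J : Matrix (Fin N) (Fin N) ℝ) : Commute (om N) (OmB J) := by
  unfold om OmB
  exact Commute.sum_left _ _ _ fun _ _ => Commute.sum_right _ _ _ fun _ _ =>
    Commute.sum_right _ _ _ fun _ _ => Commute.smul_right (a11a_pair2 _ _ _ _) _
theorem omJ_OmA_comm (J : Matrix (Fin N) (Fin N) ℝ) : Commute (omJ J) (OmA J) := by
  unfold omJ OmA
  exact Commute.sum_left _ _ _ fun _ _ => Commute.sum_left _ _ _ fun _ _ =>
    Commute.sum_right _ _ _ fun _ _ => Commute.sum_right _ _ _ fun _ _ =>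
      Commute.smul_left (Commute.smul_right (a11a_pair2 _ _ _ _) _) _
theorem omJ_OmB_comm (J : Matrix (Fin N) (Fin N) ℝ) : Commute (omJ J) (OmB J) := by
  unfold omJ OmB
  exact Commute.sum_left _ _ _ fun _ _ => Commute.sum_left _ _ _ fun _ _ =>
    Commute.sum_right _ _ _ fun _ _ => Commute.sum_right _ _ _ fun _ _ =>
      Commute.smul_left (Commute.smul_right (a11a_pair2 _ _ _ _) _) _
theorem OmA_OmB_comm (J : Matrix (Fin N) (Fin N) ℝ) : Commute (OmA J) (OmB J) := by
  unfold OmA OmB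
  exact Commute.sum_left _ _ _ fun _ _ => Commute.sum_left _ _ _ fun _ _ =>
    Commute.sum_right _ _ _ fun _ _ => Commute.sum_right _ _ _ fun _ _ =>
      Commute.smul_left (Commute.smul_right (a11a_pair2 _ _ _ _) _) _
theorem omJ_Vh_comm (J : Matrix (Fin N) (Fin N) ℝ) (R : R4 N) : Commute (omJ J) (Vh R) := by
  unfold omJ
  exact Commute.sum_left _ _ _ fun _ _ => Commute.sum_left _ _ _ fun _ _ =>
    Commute.smul_left (h1_pair R _ _) _
theorem OmA_Vh_comm (J : Matrix (Fin N) (Fin N) ℝ) (R : R4 N) : Commute (OmA J) (Vh R) := by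
  unfold OmA
  exact Commute.sum_left _ _ _ fun _ _ => Commute.sum_left _ _ _ fun _ _ =>
    Commute.smul_left (h1_pair R _ _) _
theorem OmB_Vh_comm (J : Matrix (Fin N) (Fin N) ℝ) (R : R4 N) : Commute (OmB J) (Vh R) := by
  unfold OmB
  exact Commute.sum_left _ _ _ fun _ _ => Commute.sum_left _ _ _ fun _ _ =>
    Commute.smul_left (h1_pair R _ _) _

end Pool.Agent.H46X
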