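import Pool.Agent.Lib.H46X.Defs

/-!
# Chunk A4: the rotation

`E = Km J 1 0 0`, `K = Km J X Y Z`; `Kᵀ = - K`, `K * K = - ρ ^ 2`, `K * E + E * K = - 2 X`
(`Matrix.fromBlocks_multiply`, `blk A B C D * blk A' B' C' D' = blk ...`).
`ρ = 0`: `O = 1` (`X = Y = Z = 0`).
`ρ + X ≤ 0 < ρ`: then `X = - ρ`, `Y = Z = 0`, `O = Km J 0 1 0`.
Otherwise `O = (ρ - K * E) / √(2 ρ (ρ + X))`; `O * Oᵀ = 1`, `O * E = (K * O) / ρ`.
Determinant: in both cases `O + Oᵀ = t • 1` with `0 ≤ t`, so `(1 + O) ^ 2 = (2 + t) • O`, so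
`0 ≤ det O`, and `(det O) ^ 2 = 1`.
-/

namespace Pool.Agent.H46X

open Finset Pool.Agent.H46P Pool.Agent.H69Hopf
open scoped BigOperators ComplexConjugate InnerProductSpace Nat

variable {m N : ℕ}

/-- a real matrix with `O Oᵀ = 1`, `O + Oᵀ = t`, `0 ≤ t`, has determinant one -/
theorem det_one {O : Matrix (Fin m) (Fin m) ℝ} {t : ℝ} (ht : 0 ≤ t) (h1 : O * O.transpose = 1)
    (h2 : O + O.transpose = t • 1) : O.det = 1 := by
  have h3 : O * O = t • O - 1 := by
    have : O * (O + O.transpose) = t • O := by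
      rw [h2, Matrix.mul_smul, mul_one]
    rw [mul_add, h1] at this
    rw [← this]
    abel
  have h4 : (1 + O) * (1 + O) = (2 + t) • O := by
    have e : (1 + O) * (1 + O) = 1 + O + O + O * O := by noncomm_ring
    rw [e, h3]
    module
  have h5 : (1 + O).det ^ 2 = (2 + t) ^ m * O.det := by
    have := congrArg Matrix.det h4
    rw [Matrix.det_mul, Matrix.det_smul, Fintype.card_fin] at this
    rw [sq, this]
  have h6 : 0 ≤ O.det := by
    have h7 : 0 < (2 + t) ^ m := by positivity
    have h8 : 0 ≤ (2 + t) ^ m * O.det := by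
      rw [← h5]
      positivity
    exact nonneg_of_mul_nonneg_right h8 h7
  have h9 : O.det * O.det = 1 := by
    have := congrArg Matrix.det h1
    rw [Matrix.det_mul, Matrix.det_transpose, Matrix.det_one] at this
    exact this
  nlinarith

theorem a4_blk_mul (A B C D A' B' C' D' : Matrix (Fin N) (Fin N) ℝ) :
    blk A B C D * blk A' B' C' D' =
      blk (A * A' + B * C') (A * B' + B * D') (C * A' + D * C') (C * B' + D * D') := by
  simp only [blk, Matrix.reindex_apply, Matrix.submatrix_mul_equiv, Matrix.fromBlocks_multiply]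

theorem a4_blk_add (A B C D A' B' C' D' : Matrix (Fin N) (Fin N) ℝ) :
    blk A B C D + blk A' B' C' D' = blk (A + A') (B + B') (C + C') (D + D') := by
  simp only [blk, Matrix.reindex_apply, ← Matrix.fromBlocks_add]
  rfl

theorem a4_blk_smul (c : ℝ) (A B C D : Matrix (Fin N) (Fin N) ℝ) :
    c • blk A B C D = blk (c • A) (c • B) (c • C) (c • D) := by
  simp only [blk, Matrix.reindex_apply, ← Matrix.fromBlocks_smul]
  rfl

theorem a4_blk_one : (1 : Matrix (Fin (N + N)) (Fin (N + N)) ℝ) = blk 1 0 0 1 := by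
  simp only [blk, Matrix.reindex_apply, Matrix.fromBlocks_one, Matrix.submatrix_one_equiv]

theorem a4_blk_transpose (A B C D : Matrix (Fin N) (Fin N) ℝ) :
    (blk A B C D).transpose = blk A.transpose C.transpose B.transpose D.transpose := by
  simp only [blk, Matrix.reindex_apply, Matrix.transpose_submatrix, Matrix.fromBlocks_transpose]

theorem a4_anti (J : Matrix (Fin N) (Fin N) ℝ) (hJ2 : J * J = -1) (X Y Z X' Y' Z' : ℝ) :
    Km J X Y Z * Km J X' Y' Z' + Km J X' Y' Z' * Km J X Y Z =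
      (-(2 * (X * X' + Y * Y' + 4 * Z * Z'))) • 1 := by
  unfold Km
  rw [a4_blk_mul, a4_blk_mul, a4_blk_add, a4_blk_one, a4_blk_smul]
  have e : ∀ {A B C D A' B' C' D' : Matrix (Fin N) (Fin N) ℝ}, A = A' → B = B' → C = C' → D = D' →
      blk A B C D = blk A' B' C' D' := by
    rintro _ _ _ _ _ _ _ _ rfl rfl rfl rfl
    rfl
  apply e
  all_goals
    simp only [add_mul, mul_add, smul_mul_assoc, mul_smul_comm, one_mul, mul_one, hJ2, smul_smul,
      neg_smul, neg_mul, mul_neg, smul_neg, neg_neg, smul_zero]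
    module

theorem a4_transpose (J : Matrix (Fin N) (Fin N) ℝ) (hJt : J.transpose = -J) (X Y Z : ℝ) :
    (Km J X Y Z).transpose = - Km J X Y Z := by
  unfold Km
  rw [a4_blk_transpose, ← neg_one_smul ℝ (blk _ _ _ _), a4_blk_smul]
  have e : ∀ {A B C D A' B' C' D' : Matrix (Fin N) (Fin N) ℝ}, A = A' → B = B' → C = C' → D = D' →
      blk A B C D = blk A' B' C' D' := by
    rintro _ _ _ _ _ _ _ _ rfl rfl rfl rfl
    rfl
  apply e
  all_goals
    simp only [Matrix.transpose_smul, Matrix.transpose_add, Matrix.transpose_one, Matrix.transpose_neg, hJt,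
      neg_smul, smul_neg, one_smul]
    try module

theorem exists_rot (J : Matrix (Fin N) (Fin N) ℝ) (hJt : J.transpose = -J) (hJ2 : J * J = -1)
    (X Y Z ρ : ℝ) (hρ : 0 ≤ ρ) (h : ρ ^ 2 = X ^ 2 + Y ^ 2 + 4 * Z ^ 2) :
    ∃ O : Matrix (Fin (N + N)) (Fin (N + N)) ℝ, O * O.transpose = 1 ∧ O.det = 1 ∧
      Km J X Y Z = ρ • (O * Km J 1 0 0 * O.transpose) := by
  have hEE : Km J 1 0 0 * Km J 1 0 0 = -1 := by
    have := a4_anti J hJ2 1 0 0 1 0 0
    have h2 : (2 : ℝ) • (Km J 1 0 0 * Km J 1 0 0) = (2 : ℝ) • (-1 : Matrix (Fin (N + N)) (Fin (N + N)) ℝ) := by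
      rw [two_smul, this]
      module
    exact smul_right_injective _ (two_ne_zero (α := ℝ)) h2
  have hEt := a4_transpose J hJt 1 0 0
  rcases eq_or_lt_of_le hρ with h0 | hpos
  · have hX : X = 0 := by nlinarith [sq_nonneg X, sq_nonneg Y, sq_nonneg Z]
    have hY : Y = 0 := by nlinarith [sq_nonneg X, sq_nonneg Y, sq_nonneg Z]
    have hZ : Z = 0 := by nlinarith [sq_nonneg X, sq_nonneg Y, sq_nonneg Z]
    refine ⟨1, by simp, by simp, ?_⟩
    rw [← h0, zero_smul, hX, hY, hZ]
    have : Km J 0 0 0 = (0 : ℝ) • Km J 0 0 0 := by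
      unfold Km
      rw [a4_blk_smul]
      simp
    rw [this, zero_smul]
  · rcases le_or_gt (ρ + X) 0 with hc | hc
    · have hXsq : ρ ^ 2 ≤ X ^ 2 := by nlinarith
      have hY : Y = 0 := by nlinarith [sq_nonneg Y, sq_nonneg Z]
      have hZ : Z = 0 := by nlinarith [sq_nonneg Y, sq_nonneg Z]
      have hX : X = -ρ := by
        have : (X - ρ) * (X + ρ) = 0 := by rw [hY, hZ] at h; nlinarith
        rcases mul_eq_zero.1 this with h3 | h3
        · linarith
        · linarith
      have hOO : Km J 0 1 0 * Km J 0 1 0 = -1 := by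
        have := a4_anti J hJ2 0 1 0 0 1 0
        have h2 : (2 : ℝ) • (Km J 0 1 0 * Km J 0 1 0) =
            (2 : ℝ) • (-1 : Matrix (Fin (N + N)) (Fin (N + N)) ℝ) := by
          rw [two_smul, this]
          module
        exact smul_right_injective _ (two_ne_zero (α := ℝ)) h2
      have hOt := a4_transpose J hJt 0 1 0
      have hOE : Km J 0 1 0 * Km J 1 0 0 + Km J 1 0 0 * Km J 0 1 0 = 0 := by
        rw [a4_anti J hJ2 0 1 0 1 0 0]
        simp
      have h1 : Km J 0 1 0 * (Km J 0 1 0).transpose = 1 := by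
        rw [hOt, mul_neg, hOO, neg_neg]
      refine ⟨Km J 0 1 0, h1, det_one (t := 0) le_rfl h1 (by rw [hOt]; simp), ?_⟩
      have h4 : Km J 0 1 0 * Km J 1 0 0 = - (Km J 1 0 0 * Km J 0 1 0) := eq_neg_of_add_eq_zero_left hOE
      have h5 : Km J X Y Z = X • Km J 1 0 0 := by
        rw [hY, hZ]
        unfold Km
        rw [a4_blk_smul]
        simp
      rw [h5, hOt, h4, hX, mul_neg, neg_mul, neg_neg, mul_assoc, hOO, mul_neg, mul_one]
      module
    · set K := Km J X Y Z with hK
      set E := Km J 1 0 0 with hE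
      have hKK : K * K = (-(ρ ^ 2)) • (1 : Matrix (Fin (N + N)) (Fin (N + N)) ℝ) := by
        have := a4_anti J hJ2 X Y Z X Y Z
        have h2 : (2 : ℝ) • (K * K) =
            (2 : ℝ) • ((-(ρ ^ 2)) • (1 : Matrix (Fin (N + N)) (Fin (N + N)) ℝ)) := by
          rw [two_smul, this, h]
          module
        exact smul_right_injective _ (two_ne_zero (α := ℝ)) h2
      have hKE : K * E + E * K = (-(2 * X)) • (1 : Matrix (Fin (N + N)) (Fin (N + N)) ℝ) := by
        have := a4_anti J hJ2 X Y Z 1 0 0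
        rw [this]
        module
      have hKt : K.transpose = -K := a4_transpose J hJt X Y Z
      set c := Real.sqrt (2 * ρ * (ρ + X)) with hcdef
      have hc0 : 0 < 2 * ρ * (ρ + X) := by positivity
      have hcpos : 0 < c := Real.sqrt_pos.2 hc0
      have hcsq : c ^ 2 = 2 * ρ * (ρ + X) := Real.sq_sqrt hc0.le
      set O := c⁻¹ • (ρ • (1 : Matrix (Fin (N + N)) (Fin (N + N)) ℝ) - K * E) with hO
      have hOt : O.transpose = c⁻¹ • (ρ • (1 : Matrix (Fin (N + N)) (Fin (N + N)) ℝ) - E * K) := by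
        rw [hO, Matrix.transpose_smul, Matrix.transpose_sub, Matrix.transpose_smul, Matrix.transpose_one,
          Matrix.transpose_mul, hKt, hEt, neg_mul_neg]
      have e1 : (ρ • (1 : Matrix (Fin (N + N)) (Fin (N + N)) ℝ) - K * E) * (ρ • 1 - E * K) =
          (2 * ρ * (ρ + X)) • 1 := by
        have e2 : (ρ • (1 : Matrix (Fin (N + N)) (Fin (N + N)) ℝ) - K * E) * (ρ • 1 - E * K) =
            (ρ ^ 2) • 1 - ρ • (K * E + E * K) + K * (E * E) * K := by
          have e9 : K * E * (E * K) = K * (E * E) * K := by simp only [mul_assoc]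
          simp only [sub_mul, mul_sub, smul_mul_assoc, mul_smul_comm, one_mul, mul_one, smul_add]
          rw [e9]
          module
        rw [e2, hKE, hEE, mul_neg, mul_one, neg_mul, hKK]
        module
      have h1 : O * O.transpose = 1 := by
        rw [hOt, hO, smul_mul_smul_comm, e1, smul_smul, ← hcsq]
        have : c⁻¹ * c⁻¹ * c ^ 2 = 1 := by field_simp
        rw [this, one_smul]
      refine ⟨O, h1, det_one (t := 2 * (ρ + X) / c) (by positivity) h1 ?_, ?_⟩
      · rw [hOt, hO, ← smul_add]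
        have e3 : ρ • (1 : Matrix (Fin (N + N)) (Fin (N + N)) ℝ) - K * E + (ρ • 1 - E * K) =
            (2 * (ρ + X)) • 1 := by
          have : ρ • (1 : Matrix (Fin (N + N)) (Fin (N + N)) ℝ) - K * E + (ρ • 1 - E * K) =
            (2 * ρ) • 1 - (K * E + E * K) := by module
          rw [this, hKE]
          module
        rw [e3, smul_smul]
        congr 1
        rw [div_eq_inv_mul]
      · have e4 : O * E = ρ⁻¹ • (K * O) := by
          have e5 : (ρ • (1 : Matrix (Fin (N + N)) (Fin (N + N)) ℝ) - K * E) * E = ρ • E + K := by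
            rw [sub_mul, smul_mul_assoc, one_mul, mul_assoc, hEE, mul_neg, mul_one, sub_neg_eq_add]
          have e6 : K * (ρ • (1 : Matrix (Fin (N + N)) (Fin (N + N)) ℝ) - K * E) = ρ • (ρ • E + K) := by
            rw [mul_sub, mul_smul_comm, mul_one, ← mul_assoc, hKK, smul_mul_assoc, one_mul]
            module
          rw [hO, smul_mul_assoc, e5, mul_smul_comm, e6, smul_smul, smul_smul]
          congr 1
          field_simp
        rw [e4, smul_mul_assoc, mul_assoc, h1, mul_one, smul_smul, mul_inv_cancel₀ hpos.ne', one_smul]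

end Pool.Agent.H46X
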