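import Pool.Agent.Lib.H46X.A6

/-!
# Chunk A7: lower bound of the polynomial

`c k = (-1) ^ n * (zg n T k).re`; nonvanishing for `a ≤ ‖ζ‖` from `H46P.zero_free_maj` for
`ζ⁻¹ • T` (`ellg (s T) vac = h1_phi (exp (om + s • Vg T))`, `exp_poly` with `r = 1`), see
`H46P.gb_sign` (H7.lean); then `H46P.poly_bounds` and the case distinction in `H46P.mean_pos`
(H6.lean).
-/

namespace Pool.Agent.H46X

open Finset Pool.Agent.H46P Pool.Agent.H69Hopf
open scoped BigOperators ComplexConjugate InnerProductSpace Nat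

variable {m N : ℕ}

theorem a7_smul {m : ℕ} (T : R4 m) (s : ℂ) :
    Vg (fun i j k l => s * T i j k l) = s • Vg T := by
  unfold Vg
  simp only [Finset.smul_sum, mul_smul]

theorem poly_lower (n : ℕ) (hn : 1 ≤ n) {T : R4 (2 * n + 2 * n)} (hT : RealR4 T) {r a : ℝ}
    (hr : 0 ≤ r) (ha : 0 < a) (hb : RB T r) {lam : ℕ} (hlam : (8 * n : ℝ) ≤ Real.exp lam)
    (hsmall : 16 * Real.exp 1 ^ 2 * (17 * (6 * (lam + 5)) ^ 2 * (5 + lam)) * (8 * n) * (4 * r) ≤
      a / 100) {x : ℝ} (hx : 0 ≤ x) :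
    (3 / 4) ^ n * (x ^ n - (4 * a) ^ n) - (2 * a) ^ n ≤
      (-1) ^ n * ∑ k ∈ range (n + 1), (zg n T k).re * x ^ (n - k) := by
  have hnR : (1 : ℝ) ≤ n := by exact_mod_cast hn
  set c : ℕ → ℝ := fun k => (-1) ^ n * (zg n T k).re with hc
  have hc0 : c 0 = 1 := by
    rw [hc]
    simp only
    rw [zg_zero]
    have h1 : (((-1 : ℂ)) ^ n).re = (-1) ^ n := by
      have h2 : ((-1 : ℂ)) ^ n = (((-1 : ℝ) ^ n : ℝ) : ℂ) := by push_cast; rfl
      rw [h2, Complex.ofReal_re]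
    rw [h1, ← mul_pow]
    norm_num
  have hcc : ∀ k, (c k : ℂ) = (-1) ^ n * zg n T k := by
    intro k
    rw [hc]
    simp only
    rw [Complex.ofReal_mul, zg_real n hT]
    push_cast
    rfl
  have hnz : ∀ ζ : ℂ, a ≤ ‖ζ‖ →
      ∑ k ∈ range (n + 1), (c k : ℂ) * ζ ^ (n - k) ≠ 0 := by
    intro ζ hζ
    have hζ0 : 0 < ‖ζ‖ := lt_of_lt_of_le ha hζ
    have hζ1 : ζ ≠ 0 := norm_pos_iff.1 hζ0
    have h0 : ellg (fun i j k l => ζ⁻¹ * T i j k l) vac =
        ∑ k ∈ range (n + 1), ζ⁻¹ ^ k * zg n T k := by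
      have h := exp_poly n T 1 ζ⁻¹
      rw [one_smul] at h
      unfold ellg
      rw [a7_smul, ← h1_phi_apply, h]
      refine Finset.sum_congr rfl fun k _ => ?_
      rw [one_pow, one_mul]
    have h1 : ∑ k ∈ range (n + 1), (c k : ℂ) * ζ ^ (n - k) =
        (-1) ^ n * ζ ^ n * ellg (fun i j k l => ζ⁻¹ * T i j k l) vac := by
      rw [h0, Finset.mul_sum]
      refine Finset.sum_congr rfl fun k hk => ?_
      have hk' : k ≤ n := by
        have := Finset.mem_range.1 hk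
        omega
      have h2 : ζ ^ n = ζ ^ (n - k) * ζ ^ k := by rw [← pow_add]; congr 1; omega
      have h3 : ζ ^ k * ζ⁻¹ ^ k = 1 := by rw [← mul_pow, mul_inv_cancel₀ hζ1, one_pow]
      rw [hcc, h2]
      calc (-1) ^ n * zg n T k * ζ ^ (n - k)
          = (-1) ^ n * zg n T k * ζ ^ (n - k) * (ζ ^ k * ζ⁻¹ ^ k) := by rw [h3, mul_one]
        _ = _ := by ring
    rw [h1]
    have hζ2 : ‖ζ⁻¹‖ ≤ a⁻¹ := by
      rw [norm_inv]
      exact inv_anti₀ ha hζ
    have hb' : RB (fun i j k l => ζ⁻¹ * T i j k l) (a⁻¹ * r) :=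
      h7_rb_mono (h7_rb hb ζ⁻¹) (mul_le_mul_of_nonneg_right hζ2 hr)
    refine mul_ne_zero (mul_ne_zero (by simp) (pow_ne_zero _ hζ1)) ?_
    refine zero_free_maj (N := 2 * n) (by omega) (by positivity) hb' (lam := lam) ?_ ?_
    · push_cast
      refine le_trans (le_of_eq ?_) hlam
      ring
    · have h2 : 16 * Real.exp 1 ^ 2 * (17 * (6 * ((lam : ℝ) + 5)) ^ 2 * (5 + lam)) *
          (4 * ((2 * n : ℕ) : ℝ)) * (4 * (a⁻¹ * r)) =
          (16 * Real.exp 1 ^ 2 * (17 * (6 * ((lam : ℝ) + 5)) ^ 2 * (5 + lam)) *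
          (8 * n) * (4 * r)) / a := by
        push_cast
        field_simp
        ring
      rw [h2, div_le_iff₀ ha]
      linarith
  obtain ⟨h1, h2⟩ := poly_bounds n c hc0 a ha hnz
  have hq : (-1) ^ n * ∑ k ∈ range (n + 1), (zg n T k).re * x ^ (n - k) =
      ∑ k ∈ range (n + 1), c k * x ^ (n - k) := by
    rw [Finset.mul_sum]
    refine Finset.sum_congr rfl fun k _ => ?_
    rw [hc, mul_assoc]
  rw [hq]
  rcases le_total x a with hxa | hxa
  · have h3 := (abs_le.1 (h2 x hx hxa)).1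
    have h4 : x ^ n ≤ (4 * a) ^ n := pow_le_pow_left₀ hx (by linarith) n
    have h5 : (3 / 4 : ℝ) ^ n * (x ^ n - (4 * a) ^ n) ≤ 0 :=
      mul_nonpos_of_nonneg_of_nonpos (by positivity) (by linarith)
    linarith
  · have h3 := h1 x hxa
    have h6 : 0 ≤ (2 * a) ^ n := by positivity
    rcases le_total x (4 * a) with hx4 | hx4
    · have h4 : x ^ n ≤ (4 * a) ^ n := pow_le_pow_left₀ hx hx4 n
      have h5 : (3 / 4 : ℝ) ^ n * (x ^ n - (4 * a) ^ n) ≤ 0 :=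
        mul_nonpos_of_nonneg_of_nonpos (by positivity) (by linarith)
      have h7 : 0 ≤ (x - a) ^ n := pow_nonneg (by linarith) n
      linarith
    · have h4 : (3 / 4 * x) ^ n ≤ (x - a) ^ n := pow_le_pow_left₀ (by positivity) (by linarith) n
      rw [mul_pow] at h4
      have h5 : 0 ≤ (3 / 4 : ℝ) ^ n * (4 * a) ^ n := by positivity
      have h7 : (3 / 4 : ℝ) ^ n * (x ^ n - (4 * a) ^ n) =
        (3 / 4 : ℝ) ^ n * x ^ n - (3 / 4 : ℝ) ^ n * (4 * a) ^ n := by ring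
      linarith

end Pool.Agent.H46X
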