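import Pool.Agent.Lib.H46X.A3
import Pool.Agent.Lib.H46X.A4
import Pool.Agent.Lib.H46X.A5
import Pool.Agent.Lib.H46X.A7
import Pool.Agent.Lib.H46X.A11

/-!
# Chunk A12: lower bound for `⟨top, exp (Q_K + V)⟩`
-/

namespace Pool.Agent.H46X

open Finset Pool.Agent.H46P Pool.Agent.H69Hopf
open scoped BigOperators ComplexConjugate InnerProductSpace Nat

variable {m N : ℕ}

theorem Qg_smul (c : ℂ) (K : Matrix (Fin m) (Fin m) ℂ) : Qg (c • K) = c • Qg K := by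
  unfold Qg
  simp only [Matrix.smul_apply, smul_eq_mul, mul_smul, ← Finset.smul_sum]
  exact smul_comm _ _ _

theorem a12_abs {M : Type*} [AddCommGroup M] [Module ℂ M] (x y z : M) :
    ((1 : ℝ) : ℂ) • x + ((0 : ℝ) : ℂ) • y + ((0 : ℝ) : ℂ) • z = x := by
  simp

theorem F_lower (n : ℕ) (hn : 1 ≤ n) {J : Matrix (Fin (2 * n)) (Fin (2 * n)) ℝ}
    (hJt : J.transpose = -J) (hJ2 : J * J = -1) (P : Arr (2 * n)) {r a : ℝ}
    (hr : 0 ≤ r) (ha : 0 < a) (hb : RB (RC P) r) {lam : ℕ} (hlam : (8 * n : ℝ) ≤ Real.exp lam)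
    (hsmall : 16 * Real.exp 1 ^ 2 * (17 * (6 * (lam + 5)) ^ 2 * (5 + lam)) * (8 * n) * (4 * r) ≤
      a / 100) (X Y Z : ℝ) :
    (3 / 4) ^ n * ((X ^ 2 + Y ^ 2 + 4 * Z ^ 2) ^ n - (4 * a) ^ n) - (2 * a) ^ n ≤
      (-1) ^ n * (h1_phi (2 * n) (NormedSpace.exp
        ((X : ℂ) • om (2 * n) + (Y : ℂ) • omJ J + (Z : ℂ) • (OmA J - OmB J) + Vh (RC P)))).re := by
  obtain ⟨ρ, hρdef⟩ : ∃ ρ : ℝ, ρ = √(X ^ 2 + Y ^ 2 + 4 * Z ^ 2) := ⟨_, rfl⟩
  have hρ : 0 ≤ ρ := by rw [hρdef]; exact Real.sqrt_nonneg _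
  have hρ2 : ρ ^ 2 = X ^ 2 + Y ^ 2 + 4 * Z ^ 2 := by
    rw [hρdef]
    exact Real.sq_sqrt (by positivity)
  obtain ⟨O, hO, hdet, hK⟩ := exists_rot J hJt hJ2 X Y Z ρ hρ hρ2
  have hO' : O.transpose * O.transpose.transpose = 1 := by
    rw [Matrix.transpose_transpose]
    exact mul_eq_one_comm.1 hO
  have hreal : RealR4 (RC P) := fun i j k l => Complex.ofReal_im _
  have hT : RealR4 (rot (cM O.transpose) (emb (RC P))) := real_rot (real_emb hreal)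
  have hRB : RB (rot (cM O.transpose) (emb (RC P))) r := RB_rot hO' hr (RB_emb hr hb)
  have hmain := poly_lower n hn hT hr ha hRB hlam hsmall (x := ρ ^ 2) (by positivity)
  have h1 := exp_rot (cM O) ((ρ : ℂ) • cM (Km J 1 0 0)) (rot (cM O.transpose) (emb (RC P)))
  have h2 : rot (cM O) (rot (cM O.transpose) (emb (RC P))) = emb (RC P) := by
    rw [rot_rot, ← map_mul, hO, map_one, rot_one]
  have h3 : (cM O).transpose = cM O.transpose := rfl
  have h4 : cM O * ((ρ : ℂ) • cM (Km J 1 0 0)) * (cM O).transpose = cM (Km J X Y Z) := by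
    rw [h3, hK, mul_smul_comm, smul_mul_assoc, ← map_mul, ← map_mul]
    ext i j
    simp only [Matrix.smul_apply, cM_apply, smul_eq_mul, Complex.ofReal_mul]
  have h5 : (cM O).det = 1 := by
    have h6 : (cM O).det = ((O.det : ℝ) : ℂ) := (RingHom.map_det Complex.ofRealHom O).symm
    rw [h6, hdet, Complex.ofReal_one]
  have h7 : Qg ((ρ : ℂ) • cM (Km J 1 0 0)) = (ρ : ℂ) • om (2 * n) := by
    rw [Qg_smul, Qg_Km hJt]
    exact congrArg (fun B => (ρ : ℂ) • B) (a12_abs _ _ _)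
  rw [h2, h4, h5, one_mul, Vg_emb, Qg_Km hJt, h7] at h1
  have h8 := exp_poly n (rot (cM O.transpose) (emb (RC P))) (ρ : ℂ) 1
  rw [one_smul] at h8
  rw [h1, h8]
  have h9 : (∑ k ∈ range (n + 1), (ρ : ℂ) ^ (2 * n - 2 * k) * 1 ^ k *
      zg n (rot (cM O.transpose) (emb (RC P))) k).re =
      ∑ k ∈ range (n + 1), (zg n (rot (cM O.transpose) (emb (RC P))) k).re * (ρ ^ 2) ^ (n - k) := by
    rw [Complex.re_sum]
    refine Finset.sum_congr rfl fun k _ => ?_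
    rw [← zg_real n hT k]
    have e : (ρ : ℂ) ^ (2 * n - 2 * k) * 1 ^ k *
        (((zg n (rot (cM O.transpose) (emb (RC P))) k).re : ℝ) : ℂ) =
        (((zg n (rot (cM O.transpose) (emb (RC P))) k).re * (ρ ^ 2) ^ (n - k) : ℝ) : ℂ) := by
      push_cast
      rw [← pow_mul, show 2 * (n - k) = 2 * n - 2 * k by omega]
      ring
    rw [e, Complex.ofReal_re, Complex.ofReal_re]
  rw [h9, ← hρ2]
  exact hmain

end Pool.Agent.H46X
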