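import Pool.Agent.Lib.H46X.A9

/-!
# Chunk A13: the three linearisations together
-/

namespace Pool.Agent.H46X

open Finset Pool.Agent.H46P Pool.Agent.H69Hopf
open scoped BigOperators ComplexConjugate InnerProductSpace Nat

variable {𝓐 : Type*} [NormedRing 𝓐] [NormedAlgebra ℂ 𝓐] [CompleteSpace 𝓐]

theorem three_stage (ph : 𝓐 →L[ℂ] ℂ) {u v A B V : 𝓐} (huv : Commute u v) (huA : Commute u A)
    (huB : Commute u B) (huV : Commute u V) (hvA : Commute v A) (hvB : Commute v B)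
    (hvV : Commute v V) (hAB : Commute A B) (hAV : Commute A V) (hBV : Commute B V) {M : ℕ}
    (hu : u ^ M = 0) (hv : v ^ M = 0) (hA : A ^ M = 0) (hB : B ^ M = 0)
    (hbi : ∀ (x y : ℝ) (i j : ℕ), i ≠ j →
      ph (A ^ i * B ^ j * NormedSpace.exp ((x : ℂ) • u + (y : ℂ) • v + V)) = 0)
    (n : ℕ) (e1 e2 h0 : ℝ)
    (hxyz : ∀ x y z : ℝ, e1 * x ^ (2 * n) + e2 * z ^ (2 * n) + h0 ≤
      (ph (NormedSpace.exp ((x : ℂ) • u + (y : ℂ) • v + (z : ℂ) • (A - B) + V))).re) :
    e1 * (((2 * n - 1)‼ : ℕ) : ℝ) + e2 * (n ! : ℝ) + h0 ≤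
      (ph (NormedSpace.exp ((1 / 2 : ℂ) • (u * u) + (1 / 2 : ℂ) • (v * v) - A * B + V))).re := by
  -- the complex stage
  have s1 : ∀ x y : ℝ, e2 * (n ! : ℝ) + (e1 * x ^ (2 * n) + h0) ≤
      (ph (NormedSpace.exp (-(A * B) + ((x : ℂ) • u + (y : ℂ) • v + V)))).re := by
    intro x y
    refine stage_ray ph hAB ?_ ?_ hA hB (hbi x y) n e2 (e1 * x ^ (2 * n) + h0) ?_
    · exact ((huA.symm.smul_right _).add_right (hvA.symm.smul_right _)).add_right hAV
    · exact ((huB.symm.smul_right _).add_right (hvB.symm.smul_right _)).add_right hBV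
    · intro z _
      have h1 := hxyz x y z
      have e : (x : ℂ) • u + (y : ℂ) • v + (z : ℂ) • (A - B) + V =
          (z : ℂ) • (A - B) + ((x : ℂ) • u + (y : ℂ) • v + V) := by abel
      rw [e] at h1
      linarith
  -- the stage in `y`
  have s2 : ∀ x : ℝ, 0 * (((2 * n - 1)‼ : ℕ) : ℝ) + (e2 * (n ! : ℝ) + (e1 * x ^ (2 * n) + h0)) ≤
      (ph (NormedSpace.exp ((1 / 2 : ℂ) • (v * v) + (-(A * B) + ((x : ℂ) • u + V))))).re := by
    intro x
    refine stage_gauss ph ?_ hv n 0 _ ?_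
    · exact ((hvA.mul_right hvB).neg_right).add_right ((huv.symm.smul_right _).add_right hvV)
    · intro y
      have h1 := s1 x y
      have e : -(A * B) + ((x : ℂ) • u + (y : ℂ) • v + V) =
          (y : ℂ) • v + (-(A * B) + ((x : ℂ) • u + V)) := by abel
      rw [e] at h1
      linarith
  -- the stage in `x`
  have s3 := stage_gauss ph (u := u) (W := (1 / 2 : ℂ) • (v * v) + (-(A * B) + V)) (M := M) ?_ hu n
    e1 (e2 * (n ! : ℝ) + h0) ?_
  · have e : (1 / 2 : ℂ) • (u * u) + ((1 / 2 : ℂ) • (v * v) + (-(A * B) + V)) =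
        (1 / 2 : ℂ) • (u * u) + (1 / 2 : ℂ) • (v * v) - A * B + V := by abel
    rw [e] at s3
    linarith
  · exact ((huv.mul_right huv).smul_right _).add_right (((huA.mul_right huB).neg_right).add_right huV)
  · intro x
    have h1 := s2 x
    have e : (1 / 2 : ℂ) • (v * v) + (-(A * B) + ((x : ℂ) • u + V)) =
        (x : ℂ) • u + ((1 / 2 : ℂ) • (v * v) + (-(A * B) + V)) := by abel
    rw [e] at h1
    linarith

end Pool.Agent.H46X
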