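import Pool.Agent.Lib.H46X.A10
import Pool.Agent.Lib.H46X.A12
import Pool.Agent.Lib.H46X.A13

/-!
# Chunk A14: sign of the Gauss-Bonnet integrand near real or complex hyperbolic curvature
-/

namespace Pool.Agent.H46X

open Finset Pool.Agent.H46P Pool.Agent.H69Hopf
open scoped BigOperators ComplexConjugate InnerProductSpace Nat

variable {m N : ℕ}

/-- the integrand from the exponential -/
theorem gb_exp (n : ℕ) (R : Arr (2 * n)) :
    h1_phi (2 * n) (NormedSpace.exp (Vh (RC R))) = (gaussBonnet n R : ℂ) / (n ! : ℂ) := by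
  have h := exp_poly n (emb (RC R)) 0 1
  have e : (0 : ℂ) • om (2 * n) + (1 : ℂ) • Vg (emb (RC R)) = Vh (RC R) := by
    rw [Vg_emb, one_smul]
    exact (congrArg (· + Vh (RC R)) (zero_smul ℂ (om (2 * n)))).trans (zero_add _)
  rw [e] at h
  rw [h, Finset.sum_eq_single n]
  · unfold zg
    rw [Vg_emb, Nat.sub_self, pow_zero, pow_zero, one_mul, one_mul, one_pow, one_mul,
      Nat.factorial_zero, Nat.cast_one, one_mul, h1_phi_apply, vh_pow]
  · intro k hk hkn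
    have h1 : 2 * n - 2 * k ≠ 0 := by
      have := Finset.mem_range.1 hk
      omega
    rw [zero_pow h1, zero_mul, zero_mul]
  · intro h1
    exact absurd (Finset.mem_range.2 (Nat.lt_succ_self n)) h1

theorem a14_num (n : ℕ) (hn : 1 ≤ n) :
    (3 * ((n : ℝ) / 20)) ^ n + (2 * ((n : ℝ) / 20)) ^ n < (3 / 4) ^ n * (n ! : ℝ) := by
  have hnR : (1 : ℝ) ≤ n := by exact_mod_cast hn
  have h1 : (3 * ((n : ℝ) / 20)) ^ n + (2 * ((n : ℝ) / 20)) ^ n ≤ ((n : ℝ) / 4) ^ n := by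
    refine (pow_add_pow_le (by positivity) (by positivity) (by omega)).trans (le_of_eq ?_)
    congr 1
    ring
  refine h1.trans_lt ?_
  have h3 : (n : ℝ) ^ n / n ! ≤ Real.exp n := Real.pow_div_factorial_le_exp n (by positivity) n
  have h4 : Real.exp n < 3 ^ n := by
    have : Real.exp n = Real.exp 1 ^ n := by
      rw [← Real.exp_nat_mul]; simp
    rw [this]
    exact pow_lt_pow_left₀ (by linarith [Real.exp_one_lt_d9]) (Real.exp_pos 1).le (by omega)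
  have h5 : (n : ℝ) ^ n < 3 ^ n * n ! := by
    have hf : (0 : ℝ) < n ! := by positivity
    exact (div_lt_iff₀ hf).1 (h3.trans_lt h4)
  rw [div_pow, div_pow, div_mul_eq_mul_div]
  exact div_lt_div_of_pos_right h5 (by positivity)

theorem a14_num' (n : ℕ) (hn : 1 ≤ n) {t : ℝ} (ht : 0 < t) :
    (3 * ((n : ℝ) / 20 * t)) ^ n + (2 * ((n : ℝ) / 20 * t)) ^ n <
      (3 / 4) ^ n * t ^ n * (n ! : ℝ) := by
  have h := mul_lt_mul_of_pos_right (a14_num n hn) (pow_pos ht n)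
  have e : (3 * ((n : ℝ) / 20 * t)) ^ n + (2 * ((n : ℝ) / 20 * t)) ^ n =
      ((3 * ((n : ℝ) / 20)) ^ n + (2 * ((n : ℝ) / 20)) ^ n) * t ^ n := by
    rw [add_mul, ← mul_pow, ← mul_pow]
    congr 2 <;> ring
  rw [e]
  linarith

/-- abstract rearrangements -/
theorem a14_abs1 {M : Type*} [AddCommGroup M] [Module ℂ M] (x y z a b c : ℂ) (u v A B V : M) :
    x • a • u + y • b • v + z • (c • A - c • B) + V =
      (x * a) • u + (y * b) • v + (z * c) • (A - B) + V := by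
  module

theorem a14_abs2 {𝓡 : Type*} [Ring 𝓡] [Algebra ℂ 𝓡] (a b c : ℂ) (u v A B V : 𝓡) :
    (1 / 2 : ℂ) • ((a • u) * (a • u)) + (1 / 2 : ℂ) • ((b • v) * (b • v)) - (c • A) * (c • B) + V =
      V + (a * a / 2) • (u * u) + (b * b / 2) • (v * v) - (c * c) • (A * B) := by
  simp only [smul_mul_smul_comm, smul_smul]
  have e1 : (1 / 2 : ℂ) * (a * a) = a * a / 2 := by ring
  have e2 : (1 / 2 : ℂ) * (b * b) = b * b / 2 := by ring
  rw [e1, e2]
  abel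

theorem a14_nil {𝓡 : Type*} [Ring 𝓡] [Algebra ℂ 𝓡] (a : ℂ) {u : 𝓡} {M : ℕ} (h : u ^ M = 0) :
    (a • u) ^ M = 0 := by
  rw [smul_pow, h, smul_zero]

theorem gb_cx (n : ℕ) (hn : 1 ≤ n) {J : Matrix (Fin (2 * n)) (Fin (2 * n)) ℝ}
    (hJt : J.transpose = -J) (hJ2 : J * J = -1) (P : Arr (2 * n)) {r k l : ℝ}
    (hr : 0 ≤ r) (hk : 0 ≤ k) (hl : 0 ≤ l) (hkl : 0 < max k (2 * l)) (hb : RB (RC P) r) {lam : ℕ}
    (hlam : (8 * n : ℝ) ≤ Real.exp lam)
    (hsmall : 16 * Real.exp 1 ^ 2 * (17 * (6 * (lam + 5)) ^ 2 * (5 + lam)) * (160 * r) ≤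
      max k (2 * l) / 100) :
    0 < (-1) ^ n * gaussBonnet n
      (fun i j a b => P i j a b - k * idA (2 * n) i j a b - l * rJ J i j a b) := by
  have hnR : (1 : ℝ) ≤ n := by exact_mod_cast hn
  obtain ⟨t, ht⟩ : ∃ t, t = 4 * max k (2 * l) := ⟨_, rfl⟩
  have ht0 : 0 < t := by rw [ht]; positivity
  obtain ⟨a, ha⟩ : ∃ a, a = (n : ℝ) / 20 * t := ⟨_, rfl⟩
  have ha0 : 0 < a := by rw [ha]; positivity
  have hF := F_lower n hn hJt hJ2 P hr ha0 hb hlam (by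
    rw [ha, ht]
    have h1 := mul_le_mul_of_nonneg_left hsmall (show (0 : ℝ) ≤ (n : ℝ) / 5 by positivity)
    refine le_trans (le_of_eq ?_) (h1.trans (le_of_eq ?_)) <;> ring)
  obtain ⟨h0, hh0⟩ : ∃ h0, h0 = -((3 * a) ^ n) - (2 * a) ^ n := ⟨_, rfl⟩
  obtain ⟨ph, hph⟩ : ∃ ph, ph = ((-1 : ℂ) ^ n) • h1_phi (2 * n) := ⟨_, rfl⟩
  have hphre : ∀ B, (ph B).re = (-1) ^ n * (h1_phi (2 * n) B).re := by
    intro B
    rw [hph]
    have e : (((-1 : ℂ) ^ n) • h1_phi (2 * n)) B = ((-1 : ℂ) ^ n) * h1_phi (2 * n) B := rfl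
    have e2 : ((-1 : ℂ) ^ n) = (((-1 : ℝ) ^ n : ℝ) : ℂ) := by push_cast; rfl
    rw [e, e2, Complex.re_ofReal_mul]
  -- the coefficients
  obtain ⟨e1, e2, he⟩ : ∃ e1 e2 : ℝ, (∀ x y z : ℝ, e1 * x ^ (2 * n) + e2 * z ^ (2 * n) + h0 ≤
      (3 / 4) ^ n * (((2 * √k * x) ^ 2 + (2 * √l * y) ^ 2 + 4 * (√(2 * l) * z) ^ 2) ^ n -
        (4 * a) ^ n) - (2 * a) ^ n) ∧
      0 < e1 * (((2 * n - 1)‼ : ℕ) : ℝ) + e2 * (n ! : ℝ) + h0 := by
    have hsk : √k ^ 2 = k := Real.sq_sqrt hk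
    have hsl : √l ^ 2 = l := Real.sq_sqrt hl
    have hsl2 : √(2 * l) ^ 2 = 2 * l := Real.sq_sqrt (by positivity)
    have e4 : (3 / 4 : ℝ) ^ n * (4 * a) ^ n = (3 * a) ^ n := by
      rw [← mul_pow]
      congr 1
      ring
    have hnum := a14_num' n hn ht0
    rw [← ha] at hnum
    rcases le_total (2 * l) k with hc | hc
    · rw [max_eq_left hc] at ht
      refine ⟨(3 / 4) ^ n * t ^ n, 0, ?_, ?_⟩
      · intro x y z
        have h1 : (t * x ^ 2) ^ n ≤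
            ((2 * √k * x) ^ 2 + (2 * √l * y) ^ 2 + 4 * (√(2 * l) * z) ^ 2) ^ n := by
          refine pow_le_pow_left₀ (by positivity) ?_ n
          have e5 : (2 * √k * x) ^ 2 = t * x ^ 2 := by
            rw [mul_pow, mul_pow, hsk, ht]
            ring
          rw [e5]
          have h5 : 0 ≤ (2 * √l * y) ^ 2 := by positivity
          have h6 : 0 ≤ 4 * (√(2 * l) * z) ^ 2 := by positivity
          linarith
        have h2 := mul_le_mul_of_nonneg_left h1 (show (0 : ℝ) ≤ (3 / 4) ^ n by positivity)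
        rw [mul_pow, ← pow_mul] at h2
        rw [mul_sub, e4, hh0]
        linarith
      · have h3 : (n ! : ℝ) ≤ (((2 * n - 1)‼ : ℕ) : ℝ) := by exact_mod_cast h6_fact n hn
        have h4 := mul_le_mul_of_nonneg_left h3 (show (0 : ℝ) ≤ (3 / 4) ^ n * t ^ n by positivity)
        rw [hh0]
        linarith
    · rw [max_eq_right hc] at ht
      refine ⟨0, (3 / 4) ^ n * t ^ n, ?_, ?_⟩
      · intro x y z
        have h1 : (t * z ^ 2) ^ n ≤
            ((2 * √k * x) ^ 2 + (2 * √l * y) ^ 2 + 4 * (√(2 * l) * z) ^ 2) ^ n := by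
          refine pow_le_pow_left₀ (by positivity) ?_ n
          have e5 : 4 * (√(2 * l) * z) ^ 2 = t * z ^ 2 := by
            rw [mul_pow, hsl2, ht]
            ring
          rw [e5]
          have h5 : 0 ≤ (2 * √l * y) ^ 2 := by positivity
          have h6 : 0 ≤ (2 * √k * x) ^ 2 := by positivity
          linarith
        have h2 := mul_le_mul_of_nonneg_left h1 (show (0 : ℝ) ≤ (3 / 4) ^ n by positivity)
        rw [mul_pow, ← pow_mul] at h2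
        rw [mul_sub, e4, hh0]
        linarith
      · rw [hh0]
        linarith
  obtain ⟨he1, he2⟩ := he
  have hnil : ∀ {u : Fk (2 * n + 2 * n) →L[ℂ] Fk (2 * n + 2 * n)} (c : ℂ),
      u ^ (2 * n + 1) = 0 → (c • u) ^ (2 * n + 1) = 0 := fun c h => a14_nil c h
  have hmain := three_stage ph (u := ((2 * √k : ℝ) : ℂ) • om (2 * n))
    (v := ((2 * √l : ℝ) : ℂ) • omJ J) (A := ((√(2 * l) : ℝ) : ℂ) • OmA J)
    (B := ((√(2 * l) : ℝ) : ℂ) • OmB J) (V := Vh (RC P))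
    (((om_omJ_comm J).smul_right _).smul_left _) (((om_OmA_comm J).smul_right _).smul_left _)
    (((om_OmB_comm J).smul_right _).smul_left _) ((om_Vh_comm _).smul_left _)
    (((omJ_OmA_comm J).smul_right _).smul_left _) (((omJ_OmB_comm J).smul_right _).smul_left _)
    ((omJ_Vh_comm J _).smul_left _) (((OmA_OmB_comm J).smul_right _).smul_left _)
    ((OmA_Vh_comm J _).smul_left _) ((OmB_Vh_comm J _).smul_left _) (M := 2 * n + 1)
    (hnil _ om_nil) (hnil _ (omJ_nil J)) (hnil _ (OmA_nil J)) (hnil _ (OmB_nil J))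
    (by
      intro x y i j hij
      have h1 := bideg J (RC P) ((x : ℂ) * ((2 * √k : ℝ) : ℂ)) ((y : ℂ) * ((2 * √l : ℝ) : ℂ))
        ((√(2 * l) : ℝ) : ℂ) ((√(2 * l) : ℝ) : ℂ) i j hij
      have e : (x : ℂ) • ((2 * √k : ℝ) : ℂ) • om (2 * n) + (y : ℂ) • ((2 * √l : ℝ) : ℂ) • omJ J +
          Vh (RC P) = ((x : ℂ) * ((2 * √k : ℝ) : ℂ)) • om (2 * n) +
            ((y : ℂ) * ((2 * √l : ℝ) : ℂ)) • omJ J + Vh (RC P) := by
        rw [smul_smul, smul_smul]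
      rw [e, hph]
      have e' : ∀ B, (((-1 : ℂ) ^ n) • h1_phi (2 * n)) B = ((-1 : ℂ) ^ n) * h1_phi (2 * n) B :=
        fun B => rfl
      rw [e', h1, mul_zero])
    n e1 e2 h0 (by
      intro x y z
      have hE : (x : ℂ) • ((2 * √k : ℝ) : ℂ) • om (2 * n) + (y : ℂ) • ((2 * √l : ℝ) : ℂ) • omJ J +
          (z : ℂ) • (((√(2 * l) : ℝ) : ℂ) • OmA J - ((√(2 * l) : ℝ) : ℂ) • OmB J) + Vh (RC P) =
          ((x : ℂ) * ((2 * √k : ℝ) : ℂ)) • om (2 * n) + ((y : ℂ) * ((2 * √l : ℝ) : ℂ)) • omJ J +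
          ((z : ℂ) * ((√(2 * l) : ℝ) : ℂ)) • (OmA J - OmB J) + Vh (RC P) :=
        a14_abs1 _ _ _ _ _ _ _ _ _ _ _
      rw [hE, hphre]
      have h1 := hF (x * (2 * √k)) (y * (2 * √l)) (z * √(2 * l))
      have h2 := he1 x y z
      have c1 : ((x * (2 * √k) : ℝ) : ℂ) = (x : ℂ) * ((2 * √k : ℝ) : ℂ) := Complex.ofReal_mul _ _
      have c2 : ((y * (2 * √l) : ℝ) : ℂ) = (y : ℂ) * ((2 * √l : ℝ) : ℂ) := Complex.ofReal_mul _ _
      have c3 : ((z * √(2 * l) : ℝ) : ℂ) = (z : ℂ) * ((√(2 * l) : ℝ) : ℂ) := Complex.ofReal_mul _ _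
      rw [c1, c2, c3] at h1
      refine h2.trans (le_trans (le_of_eq ?_) h1)
      rw [mul_comm x, mul_comm y, mul_comm z])
  have hE2 : (1 / 2 : ℂ) • ((((2 * √k : ℝ) : ℂ) • om (2 * n)) * (((2 * √k : ℝ) : ℂ) • om (2 * n))) +
      (1 / 2 : ℂ) • ((((2 * √l : ℝ) : ℂ) • omJ J) * (((2 * √l : ℝ) : ℂ) • omJ J)) -
      (((√(2 * l) : ℝ) : ℂ) • OmA J) * (((√(2 * l) : ℝ) : ℂ) • OmB J) + Vh (RC P) =
      Vh (RC P) + ((((2 * √k : ℝ) : ℂ) * ((2 * √k : ℝ) : ℂ)) / 2) • (om (2 * n) * om (2 * n)) +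
      ((((2 * √l : ℝ) : ℂ) * ((2 * √l : ℝ) : ℂ)) / 2) • (omJ J * omJ J) -
      (((√(2 * l) : ℝ) : ℂ) * ((√(2 * l) : ℝ) : ℂ)) • (OmA J * OmB J) :=
    a14_abs2 _ _ _ _ _ _ _ _
  rw [hE2] at hmain
  have hS : Vh (RC P) + ((((2 * √k : ℝ) : ℂ) * ((2 * √k : ℝ) : ℂ)) / 2) • (om (2 * n) * om (2 * n)) +
      ((((2 * √l : ℝ) : ℂ) * ((2 * √l : ℝ) : ℂ)) / 2) • (omJ J * omJ J) -
      (((√(2 * l) : ℝ) : ℂ) * ((√(2 * l) : ℝ) : ℂ)) • (OmA J * OmB J) =
      Vh (RC (fun i j a b => P i j a b - k * idA (2 * n) i j a b - l * rJ J i j a b)) := by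
    rw [Vh_comb]
    have c1 : (((2 * √k : ℝ) : ℂ) * ((2 * √k : ℝ) : ℂ)) / 2 = 2 * (k : ℂ) := by
      rw [← Complex.ofReal_mul, show 2 * √k * (2 * √k) = 4 * (√k * √k) by ring, Real.mul_self_sqrt hk]
      push_cast
      ring
    have c2 : (((2 * √l : ℝ) : ℂ) * ((2 * √l : ℝ) : ℂ)) / 2 = 2 * (l : ℂ) := by
      rw [← Complex.ofReal_mul, show 2 * √l * (2 * √l) = 4 * (√l * √l) by ring, Real.mul_self_sqrt hl]
      push_cast
      ring
    have c3 : ((√(2 * l) : ℝ) : ℂ) * ((√(2 * l) : ℝ) : ℂ) = 2 * (l : ℂ) := by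
      rw [← Complex.ofReal_mul, Real.mul_self_sqrt (by positivity)]
      push_cast
      ring
    rw [c1, c2, c3]
  rw [hS, hphre, gb_exp] at hmain
  have hfin : ((gaussBonnet n (fun i j a b => P i j a b - k * idA (2 * n) i j a b -
      l * rJ J i j a b) : ℂ) / (n ! : ℂ)).re = gaussBonnet n (fun i j a b => P i j a b -
      k * idA (2 * n) i j a b - l * rJ J i j a b) / (n ! : ℝ) := by
    rw [← Complex.ofReal_natCast, ← Complex.ofReal_div, Complex.ofReal_re]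
  rw [hfin, ← mul_div_assoc] at hmain
  have hpos := he2.trans_le hmain
  exact (div_pos_iff_of_pos_right (by positivity)).1 hpos

end Pool.Agent.H46X
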