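import Pool.Agent.Lib.H46X.Defs

/-!
# Chunk A15a: curvature facts
-/

namespace Pool.Agent.H46X

open Finset Pool.Agent.H46P Pool.Agent.H69Hopf
open scoped BigOperators ComplexConjugate InnerProductSpace Nat

variable {m N : ℕ}

/-- `x ↦ ∑ w i j x i y j` -/
def bil (w : Matrix (Fin N) (Fin N) ℝ) (x y : Fin N → ℝ) : ℝ := ∑ i, ∑ j, w i j * x i * y j

theorem rJ_algCurv {w : Matrix (Fin N) (Fin N) ℝ} (hw : w.transpose = -w) : IsAlgCurv (rJ w) := by
  sorry

theorem ev_rJ {w : Matrix (Fin N) (Fin N) ℝ} (hw : w.transpose = -w) (x y : Fin N → ℝ) :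
    ev (rJ w) x y x y = 3 * bil w x y ^ 2 := by
  sorry

theorem ev_comb (P Q : Arr N) (t : ℝ) (x y z w : Fin N → ℝ) :
    ev (fun i j a b => P i j a b + t * Q i j a b) x y z w = ev P x y z w + t * ev Q x y z w := by
  sorry

theorem algCurv_comb {P Q : Arr N} (hP : IsAlgCurv P) (hQ : IsAlgCurv Q) (t : ℝ) :
    IsAlgCurv (fun i j a b => P i j a b + t * Q i j a b) := by
  sorry

end Pool.Agent.H46X
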