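import Pool.Agent.Lib.H46X.A14
import Pool.Agent.Lib.H46X.A15a

/-!
# Chunk A15b: sectional version with the logarithmic constant

See `H46P.pointwise_neg` (H9.lean): `P = R + k idA + l rJ J`, `rb_of_sec`, `h9_lam`, `a15_num`, `gb_cx`.
-/

namespace Pool.Agent.H46X

open Finset Pool.Agent.H46P Pool.Agent.H69Hopf
open scoped BigOperators ComplexConjugate InnerProductSpace Nat

variable {m N : ℕ}

/-- `H9.h9_num` with another normalisation: `1 ≤ L`, `lam + 5 ≤ 9 L`, `10 ^ 13 L ^ 3 e ≤ M` -/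
theorem a15_num {L lam e M : ℝ} (hL : 1 ≤ L) (hlam0 : 0 ≤ lam) (hlam : lam + 5 ≤ 9 * L)
    (he0 : 0 ≤ e) (he : 10 ^ 13 * L ^ 3 * e ≤ M) :
    16 * Real.exp 1 ^ 2 * (17 * (6 * (lam + 5)) ^ 2 * (5 + lam)) * (160 * (16 / 3 * e)) ≤
      M / 100 := by
  sorry

/-- pointwise theorem for the standard scalar product -/
theorem point_cx (n : ℕ) (hn : 1 ≤ n) {R : Arr (2 * n)} (hR : IsAlgCurv R)
    {J : Matrix (Fin (2 * n)) (Fin (2 * n)) ℝ} (hJt : J.transpose = -J) (hJ2 : J * J = -1)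
    {k l e : ℝ} (hk : 0 ≤ k) (hl : 0 ≤ l) (hkl : 0 < max k (2 * l))
    (he : 10 ^ 13 * (1 + Real.log n) ^ 3 * e ≤ max k (2 * l))
    (hsec : ∀ x y : Fin (2 * n) → ℝ,
      |ev R x y x y + k * area2 x y + 3 * l * bil J x y ^ 2| ≤ e * area2 x y) :
    0 < (-1) ^ n * gaussBonnet n R := by
  sorry

end Pool.Agent.H46X
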