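import Pool.Agent.Lib.H46X.Defs
import Pool.Agent.Lib.H79G.P3

/-!
# Chunk A15c: change of basis
-/

namespace Pool.Agent.H46X

open Finset Pool.Agent.H46P Pool.Agent.H69Hopf
open scoped BigOperators ComplexConjugate InnerProductSpace Nat

variable {m N : ℕ}

/-- `gaussBonnet` and a change of basis, from `H79G.evM_PC_trC`, `H79G.evM_zero_PC`, see the proof of
`H79G.gb_frame` -/
theorem gb_pull (n : ℕ) (R : Arr (2 * n)) (E : Matrix (Fin (2 * n)) (Fin (2 * n)) ℝ) :
    gaussBonnet n (H79G.frameR R E) = E.det ^ 2 * gaussBonnet n R := by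
  sorry

end Pool.Agent.H46X
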