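import Pool.Agent.Lib.H46X.A15b
import Pool.Agent.Lib.H46X.A15c

/-!
# Chunk A15d: relative version

`E` with `Eᵀ H E = 1` (`H79G.exists_frame`), `J_E = Eᵀ H J E` is antisymmetric with square `-1`
(`E Eᵀ H = 1`), `bil J_E x y = bil (H J) (E x) (E y)`, `H79G.sec_frame`, `H79G.area_frame`,
`H79G.frame_algCurv`, `point_cx`, `gb_pull`.
-/

namespace Pool.Agent.H46X

open Finset Pool.Agent.H46P Pool.Agent.H69Hopf
open scoped BigOperators ComplexConjugate InnerProductSpace Nat

variable {m N : ℕ}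

/-- pointwise theorem relative to a scalar product `H` with an orthogonal complex structure `J` -/
theorem point_rel (n : ℕ) (hn : 1 ≤ n) {R : Arr (2 * n)} (hR : IsAlgCurv R)
    {H J : Matrix (Fin (2 * n)) (Fin (2 * n)) ℝ} (hH : H.PosDef) (hHJ : J.transpose * H * J = H)
    (hJ2 : J * J = -1)
    {k l e : ℝ} (hk : 0 ≤ k) (hl : 0 ≤ l) (hkl : 0 < max k (2 * l))
    (he : 10 ^ 13 * (1 + Real.log n) ^ 3 * e ≤ max k (2 * l))
    (hsec : ∀ x y : Fin (2 * n) → ℝ,
      |ev R x y x y + k * H79G.areaG H x y + 3 * l * bil (H * J) x y ^ 2| ≤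
        e * H79G.areaG H x y) :
    0 < (-1) ^ n * gaussBonnet n R := by
  sorry

end Pool.Agent.H46X
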