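import Pool.Agent.Lib.H46X.A16c

/-!
# Chunk A16d: kernel vectors

`x ≠ 0`, `H x = 0`: `areaG H x y = 0`, `bil (H J) x y = 0` (`Jᵀ H = - H J`).
-/

namespace Pool.Agent.H46X

open Finset Pool.Agent.H46P Pool.Agent.H69Hopf
open scoped BigOperators ComplexConjugate InnerProductSpace Nat

variable {m N : ℕ}

/-- on a nonzero vector of the kernel of `H` the tensor vanishes -/
theorem near_kernel (n : ℕ) {k l e : ℝ} {R : Arr (2 * n)}
    {H J : Matrix (Fin (2 * n)) (Fin (2 * n)) ℝ} (hH : H.PosSemidef)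
    (hHJ : J.transpose * H * J = H) (hJ2 : J * J = -1) (hN : Near n k l e R H J)
    (hnd : ¬ H.PosDef) : ∃ x : Fin (2 * n) → ℝ, x ≠ 0 ∧ ∀ y, ev R x y x y = 0 := by
  sorry


theorem near_kernel0 (n : ℕ) {k e : ℝ} {R : Arr (2 * n)}
    {H : Matrix (Fin (2 * n)) (Fin (2 * n)) ℝ} (hH : H.PosSemidef) (hN : Near0 n k e R H)
    (hnd : ¬ H.PosDef) : ∃ x : Fin (2 * n) → ℝ, x ≠ 0 ∧ ∀ y, ev R x y x y = 0 := by
  sorry

end Pool.Agent.H46X
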