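import Pool.Agent.Lib.H46X.A15a
import Pool.Agent.Lib.H79G.P3

/-!
# Chunk A16a: the array of a symmetric form
-/

namespace Pool.Agent.H46X

open Finset Pool.Agent.H46P Pool.Agent.H69Hopf
open scoped BigOperators ComplexConjugate InnerProductSpace Nat

variable {m N : ℕ}

/-- `ev (kH H) x y x y = areaG H x y` -/
def kH (H : Matrix (Fin N) (Fin N) ℝ) : Arr N := fun i j k l => H i k * H j l - H i l * H j k

theorem kH_algCurv {H : Matrix (Fin N) (Fin N) ℝ} (hH : H.transpose = H) : IsAlgCurv (kH H) := by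
  sorry

theorem ev_kH {H : Matrix (Fin N) (Fin N) ℝ} (hH : H.transpose = H) (x y : Fin N → ℝ) :
    ev (kH H) x y x y = H79G.areaG H x y := by
  sorry

theorem gb_continuous (n : ℕ) {F : ℝ → Arr (2 * n)} (hF : ∀ i j k l, Continuous fun s => F s i j k l) :
    Continuous fun s => gaussBonnet n (F s) := by
  sorry

end Pool.Agent.H46X
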