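import Pool.Agent.Lib.H46X.Defs
import Pool.Agent.Lib.H79G.P3

/-!
# Chunk A16b: the area is monotone

Gram determinants: for symmetric `2 x 2` matrices `A, B >= 0`, `det (A + B) >= det A`.
-/

namespace Pool.Agent.H46X

open Finset Pool.Agent.H46P Pool.Agent.H69Hopf
open scoped BigOperators ComplexConjugate InnerProductSpace Nat

variable {m N : ℕ}

theorem areaG_mono {H S : Matrix (Fin N) (Fin N) ℝ} (hH : H.PosSemidef) (hS : S.PosSemidef)
    (x y : Fin N → ℝ) : H79G.areaG H x y ≤ H79G.areaG (H + S) x y := by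
  sorry

end Pool.Agent.H46X
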