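import Pool.Agent.Lib.H46X.A16a
import Pool.Agent.Lib.H46X.A16b

/-!
# Chunk A16c: semidefinite `H` by a limit

`H_s = H + s (1 + Jᵀ J)`, `s > 0`, is positive definite and `J`-invariant, `areaG H ≤ areaG H_s`,
`R_s = R + k (kH H - kH H_s) + l (rJ (H J) - rJ (H_s J))` satisfies the hypotheses of the
strict statement with the same `k, l, e`; `gaussBonnet n (R_s)` is continuous in `s`.
`psd_limit0`: the same with `H_s = H + s`, without `J`.
-/

namespace Pool.Agent.H46X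

open Finset Pool.Agent.H46P Pool.Agent.H69Hopf
open scoped BigOperators ComplexConjugate InnerProductSpace Nat

variable {m N : ℕ}

/-- curvature close to `- k area_H - 3 l (H J)^2` -/
def Near (n : ℕ) (k l e : ℝ) (R : Arr (2 * n)) (H J : Matrix (Fin (2 * n)) (Fin (2 * n)) ℝ) : Prop :=
  ∀ x y : Fin (2 * n) → ℝ,
      |ev R x y x y + k * H79G.areaG H x y + 3 * l * bil (H * J) x y ^ 2| ≤
        e * H79G.areaG H x y

/-- the same without complex structure -/
def Near0 (n : ℕ) (k e : ℝ) (R : Arr (2 * n)) (H : Matrix (Fin (2 * n)) (Fin (2 * n)) ℝ) : Prop :=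
  ∀ x y : Fin (2 * n) → ℝ, |ev R x y x y + k * H79G.areaG H x y| ≤ e * H79G.areaG H x y

theorem psd_limit (n : ℕ) {k l e : ℝ} (he : 0 ≤ e)
    (hst : ∀ (R : Arr (2 * n)) (H J : Matrix (Fin (2 * n)) (Fin (2 * n)) ℝ), IsAlgCurv R →
      H.PosDef → J.transpose * H * J = H → J * J = -1 → Near n k l e R H J →
        0 < (-1) ^ n * gaussBonnet n R)
    {R : Arr (2 * n)} {H J : Matrix (Fin (2 * n)) (Fin (2 * n)) ℝ} (hR : IsAlgCurv R)
    (hH : H.PosSemidef) (hHJ : J.transpose * H * J = H) (hJ2 : J * J = -1)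
    (hN : Near n k l e R H J) : 0 ≤ (-1) ^ n * gaussBonnet n R := by
  sorry


theorem psd_limit0 (n : ℕ) {k e : ℝ} (he : 0 ≤ e)
    (hst : ∀ (R : Arr (2 * n)) (H : Matrix (Fin (2 * n)) (Fin (2 * n)) ℝ), IsAlgCurv R →
      H.PosDef → Near0 n k e R H → 0 < (-1) ^ n * gaussBonnet n R)
    {R : Arr (2 * n)} {H : Matrix (Fin (2 * n)) (Fin (2 * n)) ℝ} (hR : IsAlgCurv R)
    (hH : H.PosSemidef) (hN : Near0 n k e R H) : 0 ≤ (-1) ^ n * gaussBonnet n R := by
  sorry

end Pool.Agent.H46X
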