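import Pool.Agent.Lib.H46X.A1

/-!
# Chunk A2: the same for `v * exp w`

`exp (lm w) = ∑' (j !)⁻¹ (lm w) ^ j`, `NormedSpace.exp_series_hasSum_exp'`, `.mapL`, see
`H46P.ell_poly` (H1.lean); `(lm (map O w)) ^ j = lm (map O (w ^ j))`.
-/

namespace Pool.Agent.H46X

open Finset Pool.Agent.H46P Pool.Agent.H69Hopf
open scoped BigOperators ComplexConjugate InnerProductSpace Nat

variable {m N : ℕ}

theorem a2_hasSum (v w : ExteriorAlgebra ℂ (Fin (N + N) → ℂ)) :
    HasSum (fun j : ℕ => ((j ! : ℂ)⁻¹) * h1_phi N (lm (N + N) (v * w ^ j)))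
      (h1_phi N (lm (N + N) v * NormedSpace.exp (lm (N + N) w))) := by
  have h1 := ((NormedSpace.exp_series_hasSum_exp' (𝕂 := ℂ) (lm (N + N) w)).mul_left
    (lm (N + N) v)).mapL (h1_phi N)
  have h2 : (fun j : ℕ => ((j ! : ℂ)⁻¹) * h1_phi N (lm (N + N) (v * w ^ j))) =
      fun j : ℕ => h1_phi N (lm (N + N) v * (((j ! : ℂ)⁻¹) • lm (N + N) w ^ j)) := by
    funext j
    have e : lm (N + N) v * (((j ! : ℂ)⁻¹) • lm (N + N) w ^ j) =
        ((j ! : ℂ)⁻¹) • lm (N + N) (v * w ^ j) := by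
      rw [map_mul, map_pow]
      exact mul_smul_comm _ _ _
    rw [e, map_smul, smul_eq_mul]
  rw [h2]
  exact h1

theorem exp_map (O : (Fin (N + N) → ℂ) →ₗ[ℂ] (Fin (N + N) → ℂ))
    (v w : ExteriorAlgebra ℂ (Fin (N + N) → ℂ)) :
    h1_phi N (lm (N + N) (ExteriorAlgebra.map O v) *
        NormedSpace.exp (lm (N + N) (ExteriorAlgebra.map O w))) =
      LinearMap.det O * h1_phi N (lm (N + N) v * NormedSpace.exp (lm (N + N) w)) := by
  have h1 := a2_hasSum (ExteriorAlgebra.map O v) (ExteriorAlgebra.map O w)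
  have h2 := (a2_hasSum v w).mul_left (LinearMap.det O)
  have h3 : (fun j : ℕ => ((j ! : ℂ)⁻¹) * h1_phi N (lm (N + N) (ExteriorAlgebra.map O v *
      ExteriorAlgebra.map O w ^ j))) =
      fun j : ℕ => LinearMap.det O * (((j ! : ℂ)⁻¹) * h1_phi N (lm (N + N) (v * w ^ j))) := by
    funext j
    rw [← map_pow (ExteriorAlgebra.map O), ← map_mul (ExteriorAlgebra.map O), top_map]
    ring
  rw [h3] at h1
  exact h1.unique h2

end Pool.Agent.H46X
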