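import Pool.Agent.Lib.H46X.A2

/-!
# Chunk A3: rotation of the letters

`lm (ι (Pi.single i 1)) = fA (i, true)`; `map (toLin' O) (ι (Pi.single p 1)) = ∑ i, O i p • ι (Pi.single i 1)`.
-/

namespace Pool.Agent.H46X

open Finset Pool.Agent.H46P Pool.Agent.H69Hopf
open scoped BigOperators ComplexConjugate InnerProductSpace Nat

variable {m N : ℕ}

/-- the letters -/
noncomputable def eL (i : Fin m) : ExteriorAlgebra ℂ (Fin m → ℂ) :=
  ExteriorAlgebra.ι ℂ (Pi.single i 1 : Fin m → ℂ)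

/-- the quadratic element -/
noncomputable def eQ (K : Matrix (Fin m) (Fin m) ℂ) : ExteriorAlgebra ℂ (Fin m → ℂ) :=
  (1 / 2 : ℂ) • ∑ i, ∑ j, K i j • (eL i * eL j)

/-- the quartic element -/
noncomputable def eV (T : R4 m) : ExteriorAlgebra ℂ (Fin m → ℂ) :=
  ∑ i, ∑ j, ∑ k, ∑ l, T i j k l • (eL i * eL j * eL k * eL l)

theorem lm_eL (i : Fin m) : lm m (eL i) = fA (i, true) := by
  unfold lm eL
  rw [ExteriorAlgebra.lift_ι_apply, h2_L_apply, Finset.sum_eq_single i]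
  · simp
  · intro j _ hj
    rw [Pi.single_eq_of_ne hj]
    exact zero_smul ℂ (fA (j, true))
  · simp

theorem map_eL (O : Matrix (Fin m) (Fin m) ℂ) (j : Fin m) :
    ExteriorAlgebra.map (Matrix.toLin' O) (eL j) = ∑ i, O i j • eL i := by
  unfold eL
  rw [ExteriorAlgebra.map_apply_ι]
  have h : (Matrix.toLin' O) (Pi.single j 1) = ∑ i, O i j • (Pi.single i 1 : Fin m → ℂ) := by
    funext p
    rw [Matrix.toLin'_apply, Matrix.mulVec_single_one]
    simp [Finset.sum_apply, Pi.single_apply]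
  rw [h, map_sum]
  simp only [map_smul]

theorem lm_eQ (K : Matrix (Fin m) (Fin m) ℂ) : lm m (eQ K) = Qg K := by
  unfold eQ Qg
  rw [map_smul, map_sum]
  simp only [map_sum, map_smul, map_mul, lm_eL]

theorem lm_eV (T : R4 m) : lm m (eV T) = Vg T := by
  unfold eV Vg
  simp only [map_sum, map_smul, map_mul, lm_eL]

theorem a3_abs2 {𝓡 : Type*} [Ring 𝓡] [Algebra ℂ 𝓡] (x : Fin m → 𝓡) (O K : Matrix (Fin m) (Fin m) ℂ) :
    ∑ i, ∑ j, K i j • ((∑ p, O p i • x p) * (∑ q, O q j • x q)) =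
      ∑ p, ∑ q, (O * K * O.transpose) p q • (x p * x q) := by
  have e1 : ∀ i j, K i j • ((∑ p, O p i • x p) * (∑ q, O q j • x q)) =
      ∑ p, ∑ q, (O p i * K i j * O q j) • (x p * x q) := by
    intro i j
    rw [Finset.sum_mul_sum, Finset.smul_sum]
    refine Finset.sum_congr rfl fun p _ => ?_
    rw [Finset.smul_sum]
    refine Finset.sum_congr rfl fun q _ => ?_
    rw [smul_mul_smul_comm, smul_smul]
    congr 1
    ring
  simp only [e1]
  have e2 : ∀ p q, (O * K * O.transpose) p q • (x p * x q) =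
      ∑ i, ∑ j, (O p i * K i j * O q j) • (x p * x q) := by
    intro p q
    simp only [← Finset.sum_smul]
    congr 1
    rw [Matrix.mul_apply]
    simp only [Matrix.mul_apply, Matrix.transpose_apply, Finset.sum_mul]
    exact Finset.sum_comm
  simp only [e2]
  rw [Finset.sum_comm]
  have e3 : ∀ j, (∑ i, ∑ p, ∑ q, (O p i * K i j * O q j) • (x p * x q)) =
      ∑ p, ∑ q, ∑ i, (O p i * K i j * O q j) • (x p * x q) := by
    intro j
    rw [Finset.sum_comm]
    refine Finset.sum_congr rfl fun p _ => ?_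
    rw [Finset.sum_comm]
  simp only [e3]
  rw [Finset.sum_comm]
  refine Finset.sum_congr rfl fun p _ => ?_
  rw [Finset.sum_comm]
  refine Finset.sum_congr rfl fun q _ => ?_
  rw [Finset.sum_comm]

theorem map_eQ (O K : Matrix (Fin m) (Fin m) ℂ) :
    ExteriorAlgebra.map (Matrix.toLin' O) (eQ K) = eQ (O * K * O.transpose) := by
  unfold eQ
  rw [map_smul, map_sum]
  simp only [map_sum, map_smul, map_mul, map_eL]
  rw [a3_abs2]

theorem a3_four {M : Type*} [AddCommMonoid M] (F : Fin m → Fin m → Fin m → Fin m → M) :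
    ∑ i, ∑ j, ∑ k, ∑ l, F i j k l = ∑ v : Fin 4 → Fin m, F (v 0) (v 1) (v 2) (v 3) :=
  (m5_four (fun v : Fin 4 → Fin m => F (v 0) (v 1) (v 2) (v 3))).symm

theorem a3_mul4 {𝓡 : Type*} [Ring 𝓡] [Algebra ℂ 𝓡] (x : Fin m → 𝓡) (O : Matrix (Fin m) (Fin m) ℂ)
    (i j k l : Fin m) : (∑ p, O p i • x p) * (∑ p, O p j • x p) * (∑ p, O p k • x p) *
      (∑ p, O p l • x p) = ∑ p, ∑ q, ∑ r, ∑ s, (O p i * O q j * O r k * O s l) •
        (x p * x q * x r * x s) := by
  rw [Finset.sum_mul_sum, Finset.sum_mul, Finset.sum_mul]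
  refine Finset.sum_congr rfl fun p _ => ?_
  rw [Finset.sum_mul, Finset.sum_mul]
  refine Finset.sum_congr rfl fun q _ => ?_
  rw [mul_assoc, Finset.sum_mul_sum, Finset.mul_sum]
  refine Finset.sum_congr rfl fun r _ => ?_
  rw [Finset.mul_sum]
  refine Finset.sum_congr rfl fun s _ => ?_
  rw [← mul_assoc, smul_mul_smul_comm, smul_mul_smul_comm, smul_mul_smul_comm]

theorem a3_abs4 {𝓡 : Type*} [Ring 𝓡] [Algebra ℂ 𝓡] (x : Fin m → 𝓡) (O : Matrix (Fin m) (Fin m) ℂ)
    (T : R4 m) :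
    ∑ i, ∑ j, ∑ k, ∑ l, T i j k l • ((∑ p, O p i • x p) * (∑ p, O p j • x p) *
      (∑ p, O p k • x p) * (∑ p, O p l • x p)) =
      ∑ i, ∑ j, ∑ k, ∑ l, rot O T i j k l • (x i * x j * x k * x l) := by
  simp only [a3_mul4]
  unfold rot
  rw [a3_four, a3_four]
  simp only [a3_four (fun p q r s => (_ : ℂ) • (x p * x q * x r * x s))]
  have e1 : ∀ v : Fin 4 → Fin m, T (v 0) (v 1) (v 2) (v 3) • ∑ w : Fin 4 → Fin m,
      (O (w 0) (v 0) * O (w 1) (v 1) * O (w 2) (v 2) * O (w 3) (v 3)) •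
        (x (w 0) * x (w 1) * x (w 2) * x (w 3)) = ∑ w : Fin 4 → Fin m,
      (O (w 0) (v 0) * O (w 1) (v 1) * O (w 2) (v 2) * O (w 3) (v 3) *
        T (v 0) (v 1) (v 2) (v 3)) • (x (w 0) * x (w 1) * x (w 2) * x (w 3)) := by
    intro v
    rw [Finset.smul_sum]
    refine Finset.sum_congr rfl fun w _ => ?_
    rw [smul_smul, mul_comm (T _ _ _ _)]
  simp only [e1]
  rw [Finset.sum_comm]
  refine Finset.sum_congr rfl fun w _ => ?_
  rw [← Finset.sum_smul]
  congr 1
  exact (a3_four (fun p q r s => O (w 0) p * O (w 1) q * O (w 2) r * O (w 3) s * T p q r s)).symm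

theorem map_eV (O : Matrix (Fin m) (Fin m) ℂ) (T : R4 m) :
    ExteriorAlgebra.map (Matrix.toLin' O) (eV T) = eV (rot O T) := by
  unfold eV
  simp only [map_sum, map_smul, map_mul, map_eL]
  rw [a3_abs4]

/-- rotation invariance of the top coefficient -/
theorem exp_rot (O K : Matrix (Fin (N + N)) (Fin (N + N)) ℂ) (T : R4 (N + N)) :
    h1_phi N (NormedSpace.exp (Qg (O * K * O.transpose) + Vg (rot O T))) =
      O.det * h1_phi N (NormedSpace.exp (Qg K + Vg T)) := by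
  have h := exp_map (Matrix.toLin' O) 1 (eQ K + eV T)
  rw [map_one, map_one, one_mul, one_mul, map_add, map_add, map_add, map_eQ, map_eV, lm_eQ, lm_eQ,
    lm_eV, lm_eV, LinearMap.det_toLin'] at h
  exact h

end Pool.Agent.H46X
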