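import Pool.Agent.Lib.H46X.Defs

/-!
# Chunk A6: `r ↦ ⟨top, exp (r ω + s V)⟩` is a polynomial

Copy of `H46P.h1_deg_pow`, `h1_top_zero`, `h1_F`, `h1_pow`, `h1_sum`, `ell_poly` (H1.lean) with
`Vh R` replaced by `Vg T` and `om` by `r • om`; `zg_zero` is `H46P.zc_zero`; `zg_real` as
`H46P.h4_real_Vh`, `h4_real_pow`, `zc_real` (H4.lean).
-/

namespace Pool.Agent.H46X

open Finset Pool.Agent.H46P Pool.Agent.H69Hopf
open scoped BigOperators ComplexConjugate InnerProductSpace Nat

variable {m N : ℕ}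

theorem a6_pair {m : ℕ} (T : R4 m) (i j : Fin m) :
    Commute (fA (i, true) * fA (j, true)) (Vg T) := by
  unfold Vg
  refine Commute.sum_right _ _ _ fun a _ => Commute.sum_right _ _ _ fun b _ =>
    Commute.sum_right _ _ _ fun c _ => Commute.sum_right _ _ _ fun d _ => Commute.smul_right ?_ _
  exact (((show Commute _ _ from h2_pair_comm i j _).mul_right
    (show Commute _ _ from h2_pair_comm i j _)).mul_right
    (show Commute _ _ from h2_pair_comm i j _)).mul_right
    (show Commute _ _ from h2_pair_comm i j _)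

theorem om_Vg_comm (T : R4 (N + N)) : Commute (om N) (Vg T) := by
  unfold om
  exact Commute.sum_left _ _ _ fun i _ => a6_pair T _ _

theorem a6_deg_Vg {m d : ℕ} (T : R4 m) (f : Fk m) (hf : h1_deg d f) :
    h1_deg (d + 4) (Vg T f) := by
  unfold Vg
  rw [_root_.sum_apply]
  refine h1_deg_sum _ _ fun i _ => ?_
  rw [_root_.sum_apply]
  refine h1_deg_sum _ _ fun j _ => ?_
  rw [_root_.sum_apply]
  refine h1_deg_sum _ _ fun k _ => ?_
  rw [_root_.sum_apply]
  refine h1_deg_sum _ _ fun l _ => ?_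
  have e : (T i j k l • (fA (i, true) * fA (j, true) * fA (k, true) *
      fA (l, true))) f = T i j k l • (fA (i, true) (fA (j, true) (fA (k, true)
      (fA (l, true) f)))) := rfl
  rw [e]
  have h1 := h1_deg_cre l f hf
  have h2 := h1_deg_cre k _ h1
  have h3 := h1_deg_cre j _ h2
  have h4 := h1_deg_cre i _ h3
  exact h1_deg_smul _ _ h4

theorem a6_deg_pow {N : ℕ} (T : R4 (N + N)) (a k : ℕ) :
    h1_deg (2 * a + 4 * k) ((om N ^ a * Vg T ^ k) vac) := by
  induction a with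
  | zero =>
    rw [pow_zero, one_mul]
    induction k with
    | zero => exact h1_deg_vac
    | succ k ih =>
      have e : (Vg T ^ (k + 1)) vac = Vg T ((Vg T ^ k) vac) := by
        rw [pow_succ']
        rfl
      have e2 : 2 * 0 + 4 * (k + 1) = 2 * 0 + 4 * k + 4 := by ring
      rw [e, e2]
      exact a6_deg_Vg T _ ih
  | succ a ih =>
    have e : (om N ^ (a + 1) * Vg T ^ k) vac = om N ((om N ^ a * Vg T ^ k) vac) := by
      rw [pow_succ', mul_assoc]
      rfl
    have e2 : 2 * (a + 1) + 4 * k = 2 * a + 4 * k + 2 := by ring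
    rw [e, e2]
    exact h1_deg_om _ ih

theorem a6_top_zero {N : ℕ} (T : R4 (N + N)) (a k : ℕ) (h : a + 2 * k ≠ N) :
    ((om N ^ a * Vg T ^ k) vac) (univ : Finset (Fin (N + N))) = 0 := by
  apply a6_deg_pow
  rw [Finset.card_univ, Fintype.card_fin]
  omega

/-- general term -/
noncomputable def a6_F (n : ℕ) (T : R4 (2 * n + 2 * n)) (r s : ℂ) (p : ℕ × ℕ) : ℂ :=
  r ^ p.1 * s ^ p.2 * (h1_phi (2 * n) (om (2 * n) ^ p.1 * Vg T ^ p.2) /
    ((p.1.factorial : ℂ) * p.2.factorial))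

theorem a6_F_zero (n : ℕ) (T : R4 (2 * n + 2 * n)) (r s : ℂ) (p : ℕ × ℕ)
    (h : p.1 + 2 * p.2 ≠ 2 * n) : a6_F n T r s p = 0 := by
  unfold a6_F
  rw [h1_phi_apply, a6_top_zero T _ _ h, zero_div, mul_zero]

theorem a6_pow (n : ℕ) (T : R4 (2 * n + 2 * n)) (r s : ℂ) (j : ℕ) :
    h1_phi (2 * n) (((j.factorial : ℂ)⁻¹) • (r • om (2 * n) + s • Vg T) ^ j) =
      ∑ p ∈ antidiagonal j, a6_F n T r s p := by
  rw [(((om_Vg_comm T).smul_left r).smul_right s).add_pow', map_smul, map_sum, smul_eq_mul,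
    Finset.mul_sum]
  refine Finset.sum_congr rfl fun p hp => ?_
  rw [Finset.HasAntidiagonal.mem_antidiagonal] at hp
  rw [map_nsmul, smul_pow, smul_pow, mul_smul_comm (s ^ p.2) (r ^ p.1 • om (2 * n) ^ p.1)
    (Vg T ^ p.2), smul_mul_assoc, map_smul, map_smul, smul_eq_mul, smul_eq_mul, nsmul_eq_mul]
  unfold a6_F
  have h := Nat.choose_mul_factorial_mul_factorial (show p.1 ≤ j by omega)
  rw [show j - p.1 = p.2 by omega] at h
  have h' : ((j.choose p.1 : ℕ) : ℂ) * (p.1.factorial : ℂ) * (p.2.factorial : ℂ) = j.factorial := by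
    exact_mod_cast h
  have g1 : (p.1.factorial : ℂ) ≠ 0 := by exact_mod_cast Nat.factorial_ne_zero _
  have g2 : (p.2.factorial : ℂ) ≠ 0 := by exact_mod_cast Nat.factorial_ne_zero _
  have g3 : (j.factorial : ℂ) ≠ 0 := by exact_mod_cast Nat.factorial_ne_zero _
  rw [mul_div_assoc', inv_mul_eq_div, div_eq_div_iff g3 (mul_ne_zero g1 g2), ← h']
  ring

theorem a6_sum (n : ℕ) (T : R4 (2 * n + 2 * n)) (r s : ℂ) :
    ∑ j ∈ range (2 * n + 1), ∑ p ∈ antidiagonal j, a6_F n T r s p =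
      ∑ k ∈ range (n + 1), a6_F n T r s (2 * n - 2 * k, k) := by
  rw [Finset.sum_sigma']
  symm
  refine Finset.sum_of_injOn (fun k => (⟨2 * n - k, (2 * n - 2 * k, k)⟩ : Σ _ : ℕ, ℕ × ℕ)) ?_ ?_ ?_ ?_
  · intro a _ b _ hab
    simp only [Sigma.mk.injEq, heq_eq_eq, Prod.mk.injEq] at hab
    exact hab.2.2
  · intro k hk
    simp only [Finset.coe_range, Set.mem_Iio, Finset.coe_sigma, Set.mem_sigma_iff,
      Finset.mem_coe, Finset.HasAntidiagonal.mem_antidiagonal] at hk ⊢
    omega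
  · rintro ⟨j, ⟨a, b⟩⟩ hj hne
    apply a6_F_zero
    intro h
    apply hne
    simp only [Finset.mem_sigma, Finset.mem_range, Finset.HasAntidiagonal.mem_antidiagonal] at hj
    change a + 2 * b = 2 * n at h
    refine ⟨b, ?_, ?_⟩
    · simp only [Finset.coe_range, Set.mem_Iio]
      omega
    · simp only
      have e1 : 2 * n - b = j := by omega
      have e2 : 2 * n - 2 * b = a := by omega
      rw [e1, e2]
  · intro k _
    rfl

theorem exp_poly (n : ℕ) (T : R4 (2 * n + 2 * n)) (r s : ℂ) :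
    h1_phi (2 * n) (NormedSpace.exp (r • om (2 * n) + s • Vg T)) =
      ∑ k ∈ range (n + 1), r ^ (2 * n - 2 * k) * s ^ k * zg n T k := by
  have h1 := (NormedSpace.exp_series_hasSum_exp' (𝕂 := ℂ) (r • om (2 * n) + s • Vg T)).mapL
    (h1_phi (2 * n))
  have h2 : ∀ j ∉ range (2 * n + 1),
      h1_phi (2 * n) (((j.factorial : ℂ)⁻¹) • (r • om (2 * n) + s • Vg T) ^ j) = 0 := by
    intro j hj
    rw [Finset.mem_range, not_lt] at hj
    rw [a6_pow]
    refine Finset.sum_eq_zero fun p hp => ?_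
    rw [Finset.HasAntidiagonal.mem_antidiagonal] at hp
    apply a6_F_zero
    omega
  have h3 := h1.unique (hasSum_sum_of_ne_finset_zero h2)
  rw [h3, Finset.sum_congr rfl fun j _ => a6_pow n T r s j, a6_sum]
  rfl

theorem zg_zero (n : ℕ) (T : R4 (2 * n + 2 * n)) : zg n T 0 = (-1) ^ n := by
  have h := zc_zero n (0 : R4 (2 * n))
  rw [← h]
  unfold zg zc
  rw [pow_zero, pow_zero, h1_phi_apply]

theorem a6_real_smul {m : ℕ} (c : ℂ) (hc : c.im = 0) (f : Fk m) (hf : h4_real f) :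
    h4_real (c • f) := by
  have e : c = ((c.re : ℝ) : ℂ) := by
    apply Complex.ext
    · rw [Complex.ofReal_re]
    · rw [Complex.ofReal_im, hc]
  rw [e]
  exact h4_real_smul _ _ hf

theorem a6_real_Vg {m : ℕ} {T : R4 m} (hT : RealR4 T) (f : Fk m) (hf : h4_real f) :
    h4_real (Vg T f) := by
  unfold Vg
  rw [_root_.sum_apply]
  refine h4_real_sum _ _ fun i _ => ?_
  rw [_root_.sum_apply]
  refine h4_real_sum _ _ fun j _ => ?_
  rw [_root_.sum_apply]
  refine h4_real_sum _ _ fun k _ => ?_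
  rw [_root_.sum_apply]
  refine h4_real_sum _ _ fun l _ => ?_
  have e : (T i j k l • (fA (i, true) * fA (j, true) * fA (k, true) *
      fA (l, true))) f = T i j k l • (fA (i, true) (fA (j, true) (fA (k, true)
      (fA (l, true) f)))) := rfl
  rw [e]
  have h1 := h4_real_cre l f hf
  have h2 := h4_real_cre k _ h1
  have h3 := h4_real_cre j _ h2
  have h4 := h4_real_cre i _ h3
  exact a6_real_smul _ (hT i j k l) _ h4

theorem a6_real_pow {N : ℕ} {T : R4 (N + N)} (hT : RealR4 T) (a k : ℕ) :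
    h4_real ((om N ^ a * Vg T ^ k) vac) := by
  induction a with
  | zero =>
    rw [pow_zero, one_mul]
    induction k with
    | zero => exact h4_real_vac
    | succ k ih =>
      have e : (Vg T ^ (k + 1)) vac = Vg T ((Vg T ^ k) vac) := by
        rw [pow_succ']
        rfl
      rw [e]
      exact a6_real_Vg hT _ ih
  | succ a ih =>
    have e : (om N ^ (a + 1) * Vg T ^ k) vac = om N ((om N ^ a * Vg T ^ k) vac) := by
      rw [pow_succ', mul_assoc]
      rfl
    rw [e]
    exact h4_real_om _ ih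

theorem zg_real (n : ℕ) {T : R4 (2 * n + 2 * n)} (hT : RealR4 T) (k : ℕ) :
    ((zg n T k).re : ℂ) = zg n T k := by
  have h := a6_real_pow hT (2 * n - 2 * k) k (univ : Finset (Fin (2 * n + 2 * n)))
  have h2 : h1_phi (2 * n) (om (2 * n) ^ (2 * n - 2 * k) * Vg T ^ k) =
      ((h1_phi (2 * n) (om (2 * n) ^ (2 * n - 2 * k) * Vg T ^ k)).re : ℂ) := by
    rw [h1_phi_apply]
    apply Complex.ext
    · rw [Complex.ofReal_re]
    · rw [Complex.ofReal_im, h]
  have h3 : zg n T k = (((h1_phi (2 * n) (om (2 * n) ^ (2 * n - 2 * k) * Vg T ^ k)).re /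
      (((2 * n - 2 * k).factorial : ℝ) * (k.factorial : ℝ)) : ℝ) : ℂ) := by
    unfold zg
    rw [h2]
    push_cast
    rw [Complex.ofReal_re]
  rw [h3, Complex.ofReal_re]

end Pool.Agent.H46X
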