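import Pool.Agent.Lib.H46X.Defs

/-!
# Chunk A8: Gaussian linearisation

`φ (exp (x u + W)) = ∑_{p < 2 M} x ^ p / p ! φ (u ^ p exp W)`, the average over `x = ± √t` is
`∑_{a < M} t ^ a / (2 a)! φ (u ^ (2 a) exp W)`; integrate against `H46P.double_fact_measure`;
`(2 a - 1)‼ / (2 a)! = 1 / (2 ^ a a !)` (`H46P.h4_dfact`).  `NormedSpace.exp_add_of_commute` needs
`NormedAlgebra ℚ 𝓐` (`NormedAlgebra.restrictScalars ℚ ℂ 𝓐`), see `H46P.exp_conj`.
-/

namespace Pool.Agent.H46X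

open Finset Pool.Agent.H46P Pool.Agent.H69Hopf MeasureTheory
open scoped BigOperators ComplexConjugate InnerProductSpace Nat

variable {𝓐 : Type*} [NormedRing 𝓐] [NormedAlgebra ℂ 𝓐] [CompleteSpace 𝓐]

/-- the exponential of a nilpotent element -/
theorem exp_nil {u : 𝓐} {M : ℕ} (hM : u ^ M = 0) (c : ℂ) :
    NormedSpace.exp (c • u) = ∑ p ∈ range M, (c ^ p / (p ! : ℂ)) • u ^ p := by
  have h1 := NormedSpace.exp_series_hasSum_exp' (𝕂 := ℂ) (c • u)
  have h2 : ∀ p ∉ range M, ((p.factorial : ℂ)⁻¹) • (c • u) ^ p = 0 := by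
    intro p hp
    rw [Finset.mem_range, not_lt] at hp
    have h3 : u ^ p = 0 := by
      obtain ⟨q, rfl⟩ := Nat.exists_eq_add_of_le hp
      rw [pow_add, hM, zero_mul]
    rw [smul_pow, h3, smul_zero, smul_zero]
  have h3 := h1.unique (hasSum_sum_of_ne_finset_zero h2)
  rw [h3]
  refine Finset.sum_congr rfl fun p _ => ?_
  rw [smul_pow, smul_smul]
  congr 1
  rw [div_eq_mul_inv, mul_comm]

theorem exp_add' {u W : 𝓐} (h : Commute u W) :
    NormedSpace.exp (u + W) = NormedSpace.exp u * NormedSpace.exp W := by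
  let _ : NormedAlgebra ℚ 𝓐 := NormedAlgebra.restrictScalars ℚ ℂ 𝓐
  exact NormedSpace.exp_add_of_commute h

theorem a8_phi (ph : 𝓐 →L[ℂ] ℂ) {u W : 𝓐} (h : Commute u W) {M : ℕ} (hM : u ^ M = 0) (c : ℂ) :
    ph (NormedSpace.exp (c • u + W)) =
      ∑ p ∈ range M, (c ^ p / (p ! : ℂ)) * ph (u ^ p * NormedSpace.exp W) := by
  rw [exp_add' (h.smul_left c), exp_nil hM, Finset.sum_mul, map_sum]
  refine Finset.sum_congr rfl fun p _ => ?_
  rw [smul_mul_assoc, map_smul, smul_eq_mul]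

theorem a8_evenodd (M : ℕ) (f : ℕ → ℂ) :
    ∑ p ∈ range (2 * M), f p = ∑ a ∈ range M, (f (2 * a) + f (2 * a + 1)) := by
  induction M with
  | zero => simp
  | succ M ih =>
    rw [show 2 * (M + 1) = 2 * M + 1 + 1 by ring, Finset.sum_range_succ, Finset.sum_range_succ, ih,
      Finset.sum_range_succ]
    ring

theorem a8_avg (ph : 𝓐 →L[ℂ] ℂ) {u W : 𝓐} (h : Commute u W) {M : ℕ} (hM : u ^ M = 0) (y : ℝ) :
    ph (NormedSpace.exp ((y : ℂ) • u + W)) + ph (NormedSpace.exp (((-y : ℝ) : ℂ) • u + W)) =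
      2 * ∑ a ∈ range M, (((y ^ 2) ^ a / ((2 * a)! : ℝ) : ℝ) : ℂ) *
        ph (u ^ (2 * a) * NormedSpace.exp W) := by
  have hM2 : u ^ (2 * M) = 0 := by rw [two_mul, pow_add, hM, zero_mul]
  rw [a8_phi ph h hM2, a8_phi ph h hM2, a8_evenodd, a8_evenodd, ← Finset.sum_add_distrib,
    Finset.mul_sum]
  refine Finset.sum_congr rfl fun a _ => ?_
  have e1 : (((-y : ℝ) : ℂ)) ^ (2 * a) = (y : ℂ) ^ (2 * a) := by
    push_cast
    rw [Even.neg_pow (even_two_mul a)]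
  have e2 : (((-y : ℝ) : ℂ)) ^ (2 * a + 1) = - (y : ℂ) ^ (2 * a + 1) := by
    push_cast
    rw [Odd.neg_pow (odd_two_mul_add_one a)]
  rw [e1, e2]
  push_cast
  rw [pow_mul]
  ring

theorem stage_gauss (ph : 𝓐 →L[ℂ] ℂ) {u W : 𝓐} (h : Commute u W) {M : ℕ} (hM : u ^ M = 0)
    (n : ℕ) (h1 h0 : ℝ)
    (hx : ∀ x : ℝ, h1 * x ^ (2 * n) + h0 ≤ (ph (NormedSpace.exp ((x : ℂ) • u + W))).re) :
    h1 * (((2 * n - 1)‼ : ℕ) : ℝ) + h0 ≤ (ph (NormedSpace.exp ((1 / 2 : ℂ) • (u * u) + W))).re := by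
  obtain ⟨μ, hμ, hnn, hmom⟩ := double_fact_measure
  set c : ℕ → ℝ := fun a => (ph (u ^ (2 * a) * NormedSpace.exp W)).re with hc
  have hpt : ∀ t : ℝ, 0 ≤ t → h1 * t ^ n + h0 ≤
      ∑ a ∈ range M, (c a / ((2 * a)! : ℝ)) * t ^ a := by
    intro t ht
    have hy : (Real.sqrt t) ^ 2 = t := Real.sq_sqrt ht
    have ha := hx (Real.sqrt t)
    have hb := hx (-Real.sqrt t)
    rw [Even.neg_pow (even_two_mul n)] at hb
    rw [pow_mul, hy] at ha hb
    have hs := congrArg Complex.re (a8_avg ph h hM (Real.sqrt t))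
    rw [hy, Complex.add_re] at hs
    have e2 : ∀ z : ℂ, (2 * z).re = 2 * z.re := fun z => by simp
    rw [e2, Complex.re_sum] at hs
    have e3 : ∑ a ∈ range M, ((((t ^ a / ((2 * a)! : ℝ) : ℝ) : ℂ) *
        ph (u ^ (2 * a) * NormedSpace.exp W))).re =
        ∑ a ∈ range M, (c a / ((2 * a)! : ℝ)) * t ^ a := by
      refine Finset.sum_congr rfl fun a _ => ?_
      rw [Complex.re_ofReal_mul, hc]
      ring
    rw [e3] at hs
    linarith
  have hI : Integrable (fun t : ℝ => ∑ a ∈ range M, (c a / ((2 * a)! : ℝ)) * t ^ a) μ :=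
    integrable_finsetSum _ fun a _ => (hmom a).1.const_mul _
  have hIv : ∫ t, (∑ a ∈ range M, (c a / ((2 * a)! : ℝ)) * t ^ a) ∂μ =
      ∑ a ∈ range M, (c a / ((2 * a)! : ℝ)) * (((2 * a - 1)‼ : ℕ) : ℝ) := by
    rw [integral_finsetSum _ fun a _ => (hmom a).1.const_mul _]
    refine Finset.sum_congr rfl fun a _ => ?_
    rw [integral_const_mul, (hmom a).2]
  have hL : Integrable (fun t : ℝ => h1 * t ^ n + h0) μ :=
    ((hmom n).1.const_mul _).add (integrable_const _)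
  have hLv : ∫ t, (h1 * t ^ n + h0) ∂μ = h1 * (((2 * n - 1)‼ : ℕ) : ℝ) + h0 := by
    rw [integral_add ((hmom n).1.const_mul _) (integrable_const _), integral_const_mul,
      (hmom n).2]
    simp
  have hmono : ∫ t, (h1 * t ^ n + h0) ∂μ ≤
      ∫ t, (∑ a ∈ range M, (c a / ((2 * a)! : ℝ)) * t ^ a) ∂μ := by
    refine integral_mono_ae hL hI ?_
    filter_upwards [hnn] with t ht
    exact hpt t ht
  rw [hLv, hIv] at hmono
  refine hmono.trans (le_of_eq ?_)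
  have hM2 : (u * u) ^ M = 0 := by
    rw [← pow_two, ← pow_mul, two_mul, pow_add, hM, zero_mul]
  rw [a8_phi ph (h.mul_left h) hM2, Complex.re_sum]
  refine Finset.sum_congr rfl fun a _ => ?_
  have e4 : (1 / 2 : ℂ) ^ a / (a ! : ℂ) = (((((2 * a - 1)‼ : ℕ) : ℝ) / ((2 * a)! : ℝ) : ℝ) : ℂ) := by
    have g := h4_dfact a
    have g1 : ((2 * a).factorial : ℂ) ≠ 0 := by exact_mod_cast Nat.factorial_ne_zero _
    have g2 : (a.factorial : ℂ) ≠ 0 := by exact_mod_cast Nat.factorial_ne_zero _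
    push_cast
    rw [div_eq_div_iff g2 g1, g, div_pow, one_pow]
    field_simp
  rw [e4, Complex.re_ofReal_mul, ← pow_two, ← pow_mul, hc]
  ring

end Pool.Agent.H46X
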