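import Pool.Agent.Lib.H46X.A8

/-!
# Chunk A9: the complex linearisation

`fact_measure`: `ProbabilityTheory.gammaMeasure 1 1`, see `H46P.double_fact_measure` (H5.lean).
`stage_ray`: `φ (exp (z (A - B) + W)) = ∑ z ^ (i + j) (-1) ^ j / (i ! j !) φ (A ^ i B ^ j exp W)
= ∑_c z ^ (2 c) (-1) ^ c / (c !) ^ 2 φ ((A B) ^ c exp W)`; with `z = √t` integrate against
`fact_measure`.
-/

namespace Pool.Agent.H46X

open Finset Pool.Agent.H46P Pool.Agent.H69Hopf MeasureTheory
open scoped BigOperators ComplexConjugate InnerProductSpace Nat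

variable {𝓐 : Type*} [NormedRing 𝓐] [NormedAlgebra ℂ 𝓐] [CompleteSpace 𝓐]

theorem fact_measure : ∃ μ : Measure ℝ, IsProbabilityMeasure μ ∧ (∀ᵐ x ∂μ, 0 ≤ x) ∧
    ∀ j : ℕ, Integrable (fun x => x ^ j) μ ∧ ∫ x, x ^ j ∂μ = (j ! : ℝ) := by
  have hone : (0 : ℝ) < 1 := one_pos
  refine ⟨ProbabilityTheory.gammaMeasure 1 1,
    ProbabilityTheory.isProbabilityMeasure_gammaMeasure hone hone, ?_, ?_⟩
  · rw [ProbabilityTheory.gammaMeasure, ae_iff]
    have : {a : ℝ | ¬ 0 ≤ a} = Set.Iio 0 := by ext; simp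
    rw [this, withDensity_apply _ measurableSet_Iio]
    exact ProbabilityTheory.lintegral_gammaPDF_of_nonpos le_rfl
  · intro j
    have hm : Measurable (ProbabilityTheory.gammaPDF 1 1) :=
      (ProbabilityTheory.measurable_gammaPDFReal _ _).ennreal_ofReal
    have hlt : ∀ᵐ x ∂(volume : Measure ℝ), ProbabilityTheory.gammaPDF 1 1 x < ⊤ :=
      Filter.Eventually.of_forall fun x => ENNReal.ofReal_lt_top
    have hfun : (fun x : ℝ => (ProbabilityTheory.gammaPDF 1 1 x).toReal • x ^ j)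
        =ᵐ[volume] Set.indicator (Set.Ioi (0 : ℝ))
          (fun x => x ^ ((j : ℝ) + 1 - 1) * Real.exp (-(1 * x))) := by
      have h0 : ∀ᵐ x ∂(volume : Measure ℝ), x ≠ 0 := by
        simp [ae_iff]
      filter_upwards [h0] with x hx
      by_cases hx0 : 0 < x
      · rw [Set.indicator_of_mem (Set.mem_Ioi.2 hx0),
          ProbabilityTheory.gammaPDF_of_nonneg hx0.le, smul_eq_mul,
          ENNReal.toReal_ofReal (by positivity)]
        have h1 : x ^ ((j : ℝ) + 1 - 1) = x ^ j := by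
          rw [add_sub_cancel_right, Real.rpow_natCast]
        rw [h1]
        simp
        ring
      · have hx1 : x < 0 := lt_of_le_of_ne (not_lt.1 hx0) hx
        rw [Set.indicator_of_notMem (by simpa using hx1.le),
          ProbabilityTheory.gammaPDF_of_neg hx1]
        simp
    have hint : IntegrableOn (fun x : ℝ => x ^ ((j : ℝ) + 1 - 1) *
        Real.exp (-(1 * x))) (Set.Ioi 0) := by
      have h1 := integrableOn_rpow_mul_exp_neg_mul_rpow (p := 1) (s := (j : ℝ) + 1 - 1)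
        (b := 1) (by have : (0 : ℝ) ≤ j := by positivity
                     linarith) one_pos hone
      refine h1.congr_fun (fun x _ => ?_) measurableSet_Ioi
      simp only [Real.rpow_one]
      ring_nf
    refine ⟨?_, ?_⟩
    · rw [ProbabilityTheory.gammaMeasure, integrable_withDensity_iff_integrable_smul' hm hlt]
      exact ((integrable_indicator_iff measurableSet_Ioi).2 hint).congr hfun.symm
    · rw [ProbabilityTheory.gammaMeasure, integral_withDensity_eq_integral_toReal_smul hm hlt,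
        integral_congr_ae hfun, integral_indicator measurableSet_Ioi,
        Real.integral_rpow_mul_exp_neg_mul_Ioi (by positivity) hone, Real.Gamma_nat_eq_factorial]
      simp

theorem a9_exp (ph : 𝓐 →L[ℂ] ℂ) {A B W : 𝓐} (hAB : Commute A B) (hAW : Commute A W)
    (hBW : Commute B W) {M : ℕ} (hA : A ^ M = 0) (hB : B ^ M = 0)
    (hbi : ∀ i j : ℕ, i ≠ j → ph (A ^ i * B ^ j * NormedSpace.exp W) = 0) (z : ℝ) :
    ph (NormedSpace.exp ((z : ℂ) • (A - B) + W)) =
      ∑ i ∈ range M, (((-1) ^ i * (z ^ 2) ^ i / ((i ! : ℝ) * (i ! : ℝ)) : ℝ) : ℂ) *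
        ph (A ^ i * B ^ i * NormedSpace.exp W) := by
  have e1 : (z : ℂ) • (A - B) + W = (z : ℂ) • A + ((-(z : ℂ)) • B + W) := by
    rw [smul_sub, neg_smul]
    abel
  have c1 : Commute ((z : ℂ) • A) ((-(z : ℂ)) • B + W) :=
    ((hAB.smul_right _).smul_left _).add_right (hAW.smul_left _)
  have c2 : Commute ((-(z : ℂ)) • B) W := hBW.smul_left _
  rw [e1, exp_add' c1, exp_add' c2, exp_nil hA, exp_nil hB, Finset.sum_mul, map_sum]
  refine Finset.sum_congr rfl fun i hi => ?_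
  rw [Finset.sum_mul, Finset.mul_sum, map_sum, Finset.sum_eq_single i]
  · rw [smul_mul_assoc, smul_mul_assoc, mul_smul_comm, smul_smul, map_smul, smul_eq_mul, mul_assoc (A ^ i)]
    congr 1
    push_cast
    have h1 : (-(z : ℂ)) ^ i = (-1) ^ i * (z : ℂ) ^ i := by
      rw [neg_pow]
    rw [h1]
    ring
  · intro j _ hj
    rw [smul_mul_assoc, smul_mul_assoc, mul_smul_comm, smul_smul, map_smul, ← mul_assoc (A ^ i),
      hbi i j (Ne.symm hj), smul_zero]
  · intro h
    exact absurd hi h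

theorem stage_ray (ph : 𝓐 →L[ℂ] ℂ) {A B W : 𝓐} (hAB : Commute A B) (hAW : Commute A W)
    (hBW : Commute B W) {M : ℕ} (hA : A ^ M = 0) (hB : B ^ M = 0)
    (hbi : ∀ i j : ℕ, i ≠ j → ph (A ^ i * B ^ j * NormedSpace.exp W) = 0)
    (n : ℕ) (h1 h0 : ℝ)
    (hz : ∀ z : ℝ, 0 ≤ z →
      h1 * z ^ (2 * n) + h0 ≤ (ph (NormedSpace.exp ((z : ℂ) • (A - B) + W))).re) :
    h1 * (n ! : ℝ) + h0 ≤ (ph (NormedSpace.exp (-(A * B) + W))).re := by
  obtain ⟨μ, hμ, hpos, hmom⟩ := fact_measure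
  obtain ⟨a, ha⟩ : ∃ a : ℕ → ℝ, ∀ i, a i = (ph (A ^ i * B ^ i * NormedSpace.exp W)).re := ⟨_, fun _ => rfl⟩
  have hre : (ph (NormedSpace.exp (-(A * B) + W))).re = ∑ i ∈ range M, ((-1) ^ i / (i ! : ℝ)) * a i := by
    have c1 : Commute (-(A * B)) W := (hAW.mul_left hBW).neg_left
    have c2 : (A * B) ^ M = 0 := by rw [hAB.mul_pow, hA, zero_mul]
    have e1 : -(A * B) = (-1 : ℂ) • (A * B) := by rw [neg_smul, one_smul]
    rw [exp_add' c1, e1, exp_nil c2, Finset.sum_mul, map_sum, Complex.re_sum]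
    refine Finset.sum_congr rfl fun i _ => ?_
    rw [smul_mul_assoc, map_smul, smul_eq_mul, hAB.mul_pow, ha,
      show ((-1 : ℂ) ^ i / (i ! : ℂ)) = (((-1) ^ i / (i ! : ℝ) : ℝ) : ℂ) by push_cast; rfl, Complex.re_ofReal_mul]
  have hF : ∀ t : ℝ, 0 ≤ t → h1 * t ^ n + h0 ≤
      ∑ i ∈ range M, ((-1) ^ i / ((i ! : ℝ) * (i ! : ℝ)) * a i) * t ^ i := by
    intro t ht
    have e1 := hz (Real.sqrt t) (Real.sqrt_nonneg t)
    rw [a9_exp ph hAB hAW hBW hA hB hbi, Complex.re_sum, pow_mul, Real.sq_sqrt ht] at e1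
    refine e1.trans (le_of_eq ?_)
    refine Finset.sum_congr rfl fun i _ => ?_
    rw [Complex.re_ofReal_mul, ← ha]
    ring
  have hint1 : Integrable (fun t : ℝ => h1 * t ^ n + h0) μ :=
    ((hmom n).1.const_mul h1).add (integrable_const h0)
  have hint2 : Integrable (fun t : ℝ => ∑ i ∈ range M, ((-1) ^ i / ((i ! : ℝ) * (i ! : ℝ)) * a i) * t ^ i) μ :=
    integrable_finsetSum _ fun i _ => (hmom i).1.const_mul _
  have hle := integral_mono_ae hint1 hint2 (hpos.mono fun t ht => hF t ht)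
  rw [integral_add ((hmom n).1.const_mul h1) (integrable_const h0), integral_const_mul, (hmom n).2,
    integral_const, probReal_univ, one_smul, integral_finsetSum _ fun i _ => (hmom i).1.const_mul _] at hle
  rw [hre]
  refine hle.trans (le_of_eq ?_)
  refine Finset.sum_congr rfl fun i _ => ?_
  rw [integral_const_mul, (hmom i).2]
  have hi : (i ! : ℝ) ≠ 0 := by positivity
  field_simp

end Pool.Agent.H46X
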