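import Pool.Agent.Lib.H46X.A14

/-!
# Chunk B1: the sectional form of `gb_cx`

`sp H x y = ∑ H i j x i y j`.  If `J` is an orthogonal complex structure, `max k (2 l) = 1`, `R` an
algebraic curvature tensor and `|R(x,y,x,y) + k area2 x y + 3 l (sp J x y)^2| ≤ cxConst n * area2 x y`,
then `0 < (-1)^n gaussBonnet n R`.
-/

namespace Pool.Agent.H46X

open Finset Pool.Agent.H46P Pool.Agent.H69Hopf
open scoped BigOperators

variable {N : ℕ}

/-- The bilinear form with matrix `H`. -/
def sp (H : Matrix (Fin N) (Fin N) ℝ) (x y : Fin N → ℝ) : ℝ := ∑ i, ∑ j, H i j * x i * y j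

/-- The constant of the complex case. -/
noncomputable def cxConst (n : ℕ) : ℝ := 1 / (10 ^ 13 * (1 + Real.log n) ^ 3)

theorem b1_ev (J : Matrix (Fin N) (Fin N) ℝ) (x y z w : Fin N → ℝ) :
    H69Hopf.ev (rJ J) x y z w =
      sp J x z * sp J y w - sp J x w * sp J y z + 2 * (sp J x y * sp J z w) := by
  have e1 : sp J x z * sp J y w =
      ∑ i, ∑ j, ∑ k, ∑ l, J i k * J j l * x i * y j * z k * w l := by
    unfold sp
    rw [Finset.sum_mul_sum]
    refine Finset.sum_congr rfl fun i _ => Finset.sum_congr rfl fun j _ => ?_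
    rw [Finset.sum_mul_sum]
    refine Finset.sum_congr rfl fun k _ => Finset.sum_congr rfl fun l _ => ?_
    ring
  have e2 : sp J x w * sp J y z =
      ∑ i, ∑ j, ∑ k, ∑ l, J i l * J j k * x i * y j * z k * w l := by
    unfold sp
    rw [Finset.sum_mul_sum]
    refine Finset.sum_congr rfl fun i _ => Finset.sum_congr rfl fun j _ => ?_
    rw [Finset.sum_mul_sum, Finset.sum_comm]
    refine Finset.sum_congr rfl fun k _ => Finset.sum_congr rfl fun l _ => ?_
    ring
  have e3 : sp J x y * sp J z w =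
      ∑ i, ∑ j, ∑ k, ∑ l, J i j * J k l * x i * y j * z k * w l := by
    unfold sp
    rw [Finset.sum_mul_sum]
    refine Finset.sum_congr rfl fun i _ => ?_
    have h1 : ∀ k, (∑ j, J i j * x i * y j) * (∑ l, J k l * z k * w l) =
        ∑ j, ∑ l, J i j * J k l * x i * y j * z k * w l := by
      intro k
      rw [Finset.sum_mul_sum]
      refine Finset.sum_congr rfl fun j _ => Finset.sum_congr rfl fun l _ => ?_
      ring
    rw [Finset.sum_congr rfl fun k _ => h1 k, Finset.sum_comm]
  rw [e1, e2, e3, Finset.mul_sum, ← Finset.sum_sub_distrib, ← Finset.sum_add_distrib]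
  unfold H69Hopf.ev rJ
  refine Finset.sum_congr rfl fun i _ => ?_
  rw [Finset.mul_sum, ← Finset.sum_sub_distrib, ← Finset.sum_add_distrib]
  refine Finset.sum_congr rfl fun j _ => ?_
  rw [Finset.mul_sum, ← Finset.sum_sub_distrib, ← Finset.sum_add_distrib]
  refine Finset.sum_congr rfl fun k _ => ?_
  rw [Finset.mul_sum, ← Finset.sum_sub_distrib, ← Finset.sum_add_distrib]
  refine Finset.sum_congr rfl fun l _ => ?_
  ring

theorem b1_skew {J : Matrix (Fin N) (Fin N) ℝ} (hJt : J.transpose = -J) (i j : Fin N) :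
    J j i = -J i j := by
  have h := congrFun (congrFun hJt i) j
  rwa [Matrix.transpose_apply, Matrix.neg_apply] at h

theorem b1_sp_skew {J : Matrix (Fin N) (Fin N) ℝ} (hJt : J.transpose = -J) (x y : Fin N → ℝ) :
    sp J y x = -sp J x y := by
  unfold sp
  rw [Finset.sum_comm, ← Finset.sum_neg_distrib]
  refine Finset.sum_congr rfl fun i _ => ?_
  rw [← Finset.sum_neg_distrib]
  refine Finset.sum_congr rfl fun j _ => ?_
  rw [b1_skew hJt i j]
  ring

theorem b1_sec {J : Matrix (Fin N) (Fin N) ℝ} (hJt : J.transpose = -J) (x y : Fin N → ℝ) :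
    H69Hopf.ev (rJ J) x y x y = 3 * sp J x y ^ 2 := by
  have h1 := b1_sp_skew hJt x y
  have h2 := b1_sp_skew hJt x x
  have h3 := b1_sp_skew hJt y y
  have h4 : sp J x x = 0 := by linarith
  rw [b1_ev, h1, h4]
  ring

theorem b1_alg {J : Matrix (Fin N) (Fin N) ℝ} (hJt : J.transpose = -J) : IsAlgCurv (rJ J) where
  skew i j k l := by
    unfold rJ
    rw [b1_skew hJt i j]
    ring
  pair i j k l := by
    unfold rJ
    rw [b1_skew hJt i k, b1_skew hJt j l, b1_skew hJt j k, b1_skew hJt i l]
    ring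
  bianchi i j k l := by
    unfold rJ
    rw [b1_skew hJt i j, b1_skew hJt i k, b1_skew hJt j k]
    ring

theorem gb_cx_sec (n : ℕ) (hn : 1 ≤ n) {J : Matrix (Fin (2 * n)) (Fin (2 * n)) ℝ}
    (hJt : J.transpose = -J) (hJ2 : J * J = -1) {R : Arr (2 * n)} (hR : IsAlgCurv R) {k l : ℝ}
    (hk : 0 ≤ k) (hl : 0 ≤ l) (hkl : max k (2 * l) = 1)
    (h : ∀ x y : Fin (2 * n) → ℝ,
      |H69Hopf.ev R x y x y + k * area2 x y + 3 * l * sp J x y ^ 2| ≤ cxConst n * area2 x y) :
    0 < (-1) ^ n * gaussBonnet n R := by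
  have hn' : (1 : ℝ) ≤ n := by exact_mod_cast hn
  have hlog : 0 ≤ Real.log n := Real.log_nonneg hn'
  obtain ⟨lam, hlam1, hlam2⟩ := h9_lam n hn
  have hL3 : 0 < 10 ^ 13 * (1 + Real.log n) ^ 3 := by positivity
  have he0 : 0 ≤ cxConst n := by
    unfold cxConst
    positivity
  have halg := b1_alg hJt
  have hP : IsAlgCurv (fun i j a b => R i j a b + k * idA (2 * n) i j a b + l * rJ J i j a b) := by
    have h1 := algCurv_sub_idA hR (-k)
    refine ⟨fun i j a b => ?_, fun i j a b => ?_, fun i j a b => ?_⟩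
    · have h2 := h1.skew i j a b
      have h3 := halg.skew i j a b
      linear_combination h2 + l * h3
    · have h2 := h1.pair i j a b
      have h3 := halg.pair i j a b
      linear_combination h2 + l * h3
    · have h2 := h1.bianchi i j a b
      have h3 := halg.bianchi i j a b
      linear_combination h2 + l * h3
  have hev : ∀ x y : Fin (2 * n) → ℝ,
      H69Hopf.ev (fun i j a b => R i j a b + k * idA (2 * n) i j a b + l * rJ J i j a b) x y x y =
        H69Hopf.ev R x y x y + k * area2 x y + 3 * l * sp J x y ^ 2 := by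
    intro x y
    have h1 := ev_sub_idA R (-k) x y
    have h2 := b1_sec hJt x y
    have h3 : H69Hopf.ev (fun i j a b => R i j a b + k * idA (2 * n) i j a b + l * rJ J i j a b)
        x y x y = H69Hopf.ev (fun i j a b => R i j a b - -k * idA (2 * n) i j a b) x y x y +
          l * H69Hopf.ev (rJ J) x y x y := by
      unfold H69Hopf.ev
      simp only [Finset.mul_sum, ← Finset.sum_add_distrib]
      refine Finset.sum_congr rfl fun i _ => Finset.sum_congr rfl fun j _ =>
        Finset.sum_congr rfl fun a _ => Finset.sum_congr rfl fun b _ => ?_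
      ring
    rw [h3, h1, h2]
    ring
  have hRB := rb_of_sec hP he0 (fun x y => by rw [hev]; exact h x y)
  have hnum := h9_num (L := 1 + Real.log n) (lam := lam) (e := cxConst n) (b := 2) (k := 1)
    (by linarith) (Nat.cast_nonneg lam) hlam2 he0 (by norm_num)
    (by
      unfold cxConst
      rw [div_le_div_iff₀ hL3 (by positivity)]
      linarith) (by norm_num)
  have hmain := gb_cx n hn hJt hJ2 _ (r := 16 / 3 * cxConst n) (k := k) (l := l) (by positivity)
    hk hl (by rw [hkl]; norm_num) hRB hlam1 (by rw [hkl]; exact hnum)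
  have hfin : (fun i j a b => (fun i j a b => R i j a b + k * idA (2 * n) i j a b +
      l * rJ J i j a b) i j a b - k * idA (2 * n) i j a b - l * rJ J i j a b) = R := by
    funext i j a b
    ring
  rw [hfin] at hmain
  exact hmain

end Pool.Agent.H46X
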