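import Pool.Agent.Lib.H69.Hopf.Strict
import Pool.Agent.Lib.Frob61.FrobeniusPinching
import Pool.Agent.Lib.H46P.H9

/-!
# Chunk B4: the pointwise theorem near real hyperbolic curvature

`pointwise` is the pointwise theorem of the former hand-in `Pinching`.
-/

namespace Pool.Agent.H46X

open Pool.Agent.H69Hopf

/-- The pinching constant: the smallest of `(4 n ^ 2 - 27) / (4 n ^ 2 + 12 n - 27)`,
`1 - 1 / (37 √(2 n + 2))` and `1 - 1 / (10 ^ 13 (1 + log n) ^ 3)`. -/
noncomputable def pinchConst (n : ℕ) : ℝ :=
  min (min ((4 * (n : ℝ) ^ 2 - 27) / (4 * (n : ℝ) ^ 2 + 12 * n - 27)) (1 - 1 / (37 * √(2 * n + 2))))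
    (1 - 1 / (10 ^ 13 * (1 + Real.log n) ^ 3))

/-- Pointwise version: every algebraic curvature tensor on `ℝ^(2 n)`, `n ≥ 3`, with sectional
curvatures in `[-b, -a]`, `a ≥ δ b`, has Gauss–Bonnet–Chern integrand of sign `(-1) ^ n`. -/
theorem pointwise (n : ℕ) (hn : 3 ≤ n) (R : Arr (2 * n)) (hR : IsAlgCurv R) (a b : ℝ)
    (hb : 0 < b) (hab : pinchConst n * b ≤ a) :
    ((∀ x y : Fin (2 * n) → ℝ,
        -b * area2 x y ≤ ev R x y x y ∧ ev R x y x y ≤ -a * area2 x y) →
      0 < (-1) ^ n * gaussBonnet n R) ∧
    ((∀ x y : Fin (2 * n) → ℝ,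
        a * area2 x y ≤ ev R x y x y ∧ ev R x y x y ≤ b * area2 x y) →
      0 < gaussBonnet n R) := by
  unfold pinchConst at hab
  have key : ∀ S : Arr (2 * n), IsAlgCurv S → (∀ x y : Fin (2 * n) → ℝ,
      a * area2 x y ≤ ev S x y x y ∧ ev S x y x y ≤ b * area2 x y) → 0 < gaussBonnet n S := by
    intro S hS hsec
    rcases le_total (min ((4 * (n : ℝ) ^ 2 - 27) / (4 * (n : ℝ) ^ 2 + 12 * n - 27))
      (1 - 1 / (37 * √(2 * n + 2)))) (1 - 1 / (10 ^ 13 * (1 + Real.log n) ^ 3)) with h0 | h0
    swap
    · rw [min_eq_right h0] at hab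
      have hneg := Pool.Agent.H46P.pointwise_neg n (by omega) (fun i j k l => -S i j k l)
        (algCurv_neg hS) a b hb hab (fun x y => by
          rw [ev_neg]
          obtain ⟨h1, h2⟩ := hsec x y
          constructor <;> linarith)
      rw [gb_neg, ← mul_assoc, ← mul_pow] at hneg
      simpa using hneg
    rw [min_eq_left h0] at hab
    clear h0
    rcases le_total ((4 * (n : ℝ) ^ 2 - 27) / (4 * (n : ℝ) ^ 2 + 12 * n - 27))
      (1 - 1 / (37 * √(2 * n + 2))) with h | h
    · rw [min_eq_left h] at hab
      have hn2 : (3 : ℝ) ≤ n := by exact_mod_cast hn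
      have hD : 4 * (n : ℝ) ^ 2 + 12 * n - 27 ≠ 0 := by nlinarith
      have he : dlc (27 / 4) n =
          (4 * (n : ℝ) ^ 2 - 27) / (4 * (n : ℝ) ^ 2 + 12 * n - 27) := by
        have hD' : (n : ℝ) ^ 2 + 3 * n - 27 / 4 ≠ 0 := by nlinarith
        unfold dlc
        rw [eq_div_iff hD, sub_mul, one_mul]
        have h4 : 4 * (n : ℝ) ^ 2 + 12 * n - 27 = 4 * ((n : ℝ) ^ 2 + 3 * n - 27 / 4) := by ring
        rw [h4, mul_comm (4 : ℝ), ← mul_assoc, div_mul_cancel₀ _ hD']
        ring
      rw [← he] at hab
      refine pinch_strict n hn S hS b hb fun x y => ?_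
      obtain ⟨h1, h2⟩ := hsec x y
      have h3 := mul_le_mul_of_nonneg_right hab (area2_nonneg x y)
      constructor <;> linarith
    · rw [min_eq_right h] at hab
      by_cases hba : b < a
      · -- the interval is empty: `x = e_0`, `y = e_1`
        exfalso
        have h1 := hsec (Pi.single ⟨0, by omega⟩ 1) (Pi.single ⟨1, by omega⟩ 1)
        have h2 : area2 (Pi.single (⟨0, by omega⟩ : Fin (2 * n)) (1 : ℝ) : Fin (2 * n) → ℝ)
            (Pi.single (⟨1, by omega⟩ : Fin (2 * n)) (1 : ℝ)) = 1 := by
          simp [area2, Pi.single_apply]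
        rw [h2] at h1
        linarith [h1.1, h1.2]
      · have hba' : a ≤ b := not_lt.mp hba
        set s : ℝ := √(2 * n + 2) with hs
        have hs1 : (1 : ℝ) ≤ s := by
          rw [hs]
          refine Real.one_le_sqrt.mpr ?_
          have : (0 : ℝ) ≤ n := Nat.cast_nonneg n
          linarith
        have hq : (1 - 1 / (37 * s)) * b = b - b / (37 * s) := by
          field_simp
        rw [hq] at hab
        have hlt : b / (37 * s) ≤ b / 37 := by
          apply div_le_div_of_nonneg_left hb.le (by norm_num)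
          linarith
        have ha : 0 < a := by
          have : b / 37 < b := by linarith
          linarith
        have hbs : b - a ≤ b / (37 * s) := by linarith
        have hmain : 72 * s * ((b - a) / 2) ≤ (a + b) / 2 := by
          have h1 : 72 * s * ((b - a) / 2) ≤ 72 * s * ((b / (37 * s)) / 2) := by
            apply mul_le_mul_of_nonneg_left _ (by positivity)
            linarith
          have h2 : 72 * s * ((b / (37 * s)) / 2) = 36 / 37 * b := by
            field_simp
            ring
          have h3 : b - b / 37 ≤ a := by linarith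
          linarith
        have hneg := Pool.Agent.Lib.Frob61.FrobeniusPinching.sectional n (by omega)
          (fun i j k l => -S i j k l) (algCurv_neg hS) ((a + b) / 2) ((b - a) / 2)
          (by linarith) (by linarith) hmain (fun x y => by
            rw [ev_neg]
            obtain ⟨h1, h2⟩ := hsec x y
            have e1 : -((a + b) / 2 + (b - a) / 2) * area2 x y = -(b * area2 x y) := by ring
            have e2 : -((a + b) / 2 - (b - a) / 2) * area2 x y = -(a * area2 x y) := by ring
            rw [e1, e2]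
            constructor <;> linarith)
        rw [gb_neg, ← mul_assoc, ← mul_pow] at hneg
        simpa using hneg
  constructor
  · intro hp
    rw [← gb_neg]
    refine key _ (algCurv_neg hR) fun x y => ?_
    rw [ev_neg]
    obtain ⟨h1, h2⟩ := hp x y
    constructor <;> linarith
  · intro hp
    exact key R hR hp

end Pool.Agent.H46X
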