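import Pool.Agent.Lib.H46P.M5
import Pool.Agent.Lib.H46P.H9

/-!
# H46X: pinching around real or complex hyperbolic curvature, definitions

`N + N` creation operators `c`: `a_i = c (lo i)`, `b_i = c (hi i)`.  `Qg K = (1/2) ∑ K i j c_i c_j`,
`Vg T = ∑ T i j k l c_i c_j c_k c_l` (`H46P.Vg`), `h1_phi N B` = coefficient of the top vector in
`B vac`.  See `PROOF.md`.
-/

namespace Pool.Agent.H46X

open Finset Pool.Agent.H46P Pool.Agent.H69Hopf
open scoped BigOperators ComplexConjugate InnerProductSpace Nat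

variable {m N : ℕ}

/-- `(1/2) ∑ K i j c_i c_j` -/
noncomputable def Qg (K : Matrix (Fin m) (Fin m) ℂ) : Fk m →L[ℂ] Fk m :=
  (1 / 2 : ℂ) • ∑ i, ∑ j, K i j • (fA (i, true) * fA (j, true))

/-- the exterior algebra acts on Fock space -/
noncomputable def lm (m : ℕ) : ExteriorAlgebra ℂ (Fin m → ℂ) →ₐ[ℂ] (Fk m →L[ℂ] Fk m) :=
  ExteriorAlgebra.lift ℂ ⟨h2_L m, h2_sq⟩

/-- rotation of an array -/
noncomputable def rot (O : Matrix (Fin m) (Fin m) ℂ) (T : R4 m) : R4 m := fun i j k l =>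
  ∑ p, ∑ q, ∑ r, ∑ s, O i p * O j q * O k r * O l s * T p q r s

/-- extension by zero along the low modes -/
noncomputable def zl (x : Fin N → ℂ) : Fin (N + N) → ℂ :=
  Fin.addCases (motive := fun _ => ℂ) x (fun _ => 0)

/-- extension by zero along the high modes -/
noncomputable def zh (x : Fin N → ℂ) : Fin (N + N) → ℂ :=
  Fin.addCases (motive := fun _ => ℂ) (fun _ => 0) x

/-- the array `R` as an array on all modes: `emb R (lo i) (lo j) (hi k) (hi l) = R i j k l`, and `0`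
for all other indices -/
noncomputable def emb (R : R4 N) : R4 (N + N) := fun q r s t =>
  zl (fun i => zl (fun j => zh (fun k => zh (fun l => R i j k l) t) s) r) q

/-- real matrices as complex matrices -/
noncomputable def cM : Matrix (Fin m) (Fin m) ℝ →+* Matrix (Fin m) (Fin m) ℂ :=
  Complex.ofRealHom.mapMatrix

/-- block matrix on the `N + N` modes -/
noncomputable def blk (A B C D : Matrix (Fin N) (Fin N) ℝ) :
    Matrix (Fin (N + N)) (Fin (N + N)) ℝ :=
  Matrix.reindex finSumFinEquiv finSumFinEquiv (Matrix.fromBlocks A B C D)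

/-- the matrix of `X ω + Y ω_J + Z (Ω_A - Ω_B)` -/
noncomputable def Km (J : Matrix (Fin N) (Fin N) ℝ) (X Y Z : ℝ) :
    Matrix (Fin (N + N)) (Fin (N + N)) ℝ :=
  blk ((2 * Z) • J) (X • 1 + Y • J) (-X • 1 + Y • J) (-(2 * Z) • J)

/-- `∑ J i j a_i b_j` -/
noncomputable def omJ (J : Matrix (Fin N) (Fin N) ℝ) : Fk (N + N) →L[ℂ] Fk (N + N) :=
  ∑ i, ∑ j, (J i j : ℂ) • (fA (lo i, true) * fA (hi j, true))

/-- `∑ J i j a_i a_j` -/
noncomputable def OmA (J : Matrix (Fin N) (Fin N) ℝ) : Fk (N + N) →L[ℂ] Fk (N + N) :=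
  ∑ i, ∑ j, (J i j : ℂ) • (fA (lo i, true) * fA (lo j, true))

/-- `∑ J i j b_i b_j` -/
noncomputable def OmB (J : Matrix (Fin N) (Fin N) ℝ) : Fk (N + N) →L[ℂ] Fk (N + N) :=
  ∑ i, ∑ j, (J i j : ℂ) • (fA (hi i, true) * fA (hi j, true))

/-- the Kähler part of the curvature of complex projective space: `ev (rJ J) x y x y = 3 (x, J y)^2` -/
def rJ (J : Matrix (Fin N) (Fin N) ℝ) : Arr N := fun i j k l =>
  J i k * J j l - J i l * J j k + 2 * (J i j * J k l)

/-- coefficients of the polynomial `r ↦ ⟨top, exp (r ω + V)⟩` -/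
noncomputable def zg (n : ℕ) (T : R4 (2 * n + 2 * n)) (k : ℕ) : ℂ :=
  h1_phi (2 * n) (om (2 * n) ^ (2 * n - 2 * k) * Vg T ^ k) /
    (((2 * n - 2 * k)! : ℂ) * (k ! : ℂ))

/-- real coordinates -/
def RealR4 (T : R4 m) : Prop := ∀ i j k l, (T i j k l).im = 0

theorem zl_lo (x : Fin N → ℂ) (i : Fin N) : zl x (lo i) = x i :=
  Fin.addCases_left (motive := fun _ => ℂ) (left := x) (right := fun _ => 0) i
theorem zl_hi (x : Fin N → ℂ) (i : Fin N) : zl x (hi i) = 0 :=
  Fin.addCases_right (motive := fun _ => ℂ) (left := x) (right := fun _ => 0) i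
theorem zh_lo (x : Fin N → ℂ) (i : Fin N) : zh x (lo i) = 0 :=
  Fin.addCases_left (motive := fun _ => ℂ) (left := fun _ => 0) (right := x) i
theorem zh_hi (x : Fin N → ℂ) (i : Fin N) : zh x (hi i) = x i :=
  Fin.addCases_right (motive := fun _ => ℂ) (left := fun _ => 0) (right := x) i

theorem cM_apply (O : Matrix (Fin m) (Fin m) ℝ) (i j : Fin m) : cM O i j = (O i j : ℂ) := rfl

theorem blk_symm_lo (i : Fin N) : finSumFinEquiv.symm (lo i) = Sum.inl i :=
  finSumFinEquiv_symm_apply_castAdd i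
theorem blk_symm_hi (i : Fin N) : finSumFinEquiv.symm (hi i) = Sum.inr i :=
  finSumFinEquiv_symm_apply_natAdd i

theorem blk_lo_lo (A B C D : Matrix (Fin N) (Fin N) ℝ) (i j : Fin N) :
    blk A B C D (lo i) (lo j) = A i j := by
  unfold blk
  rw [Matrix.reindex_apply, Matrix.submatrix_apply, blk_symm_lo, blk_symm_lo]
  rfl
theorem blk_lo_hi (A B C D : Matrix (Fin N) (Fin N) ℝ) (i j : Fin N) :
    blk A B C D (lo i) (hi j) = B i j := by
  unfold blk
  rw [Matrix.reindex_apply, Matrix.submatrix_apply, blk_symm_lo, blk_symm_hi]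
  rfl
theorem blk_hi_lo (A B C D : Matrix (Fin N) (Fin N) ℝ) (i j : Fin N) :
    blk A B C D (hi i) (lo j) = C i j := by
  unfold blk
  rw [Matrix.reindex_apply, Matrix.submatrix_apply, blk_symm_hi, blk_symm_lo]
  rfl
theorem blk_hi_hi (A B C D : Matrix (Fin N) (Fin N) ℝ) (i j : Fin N) :
    blk A B C D (hi i) (hi j) = D i j := by
  unfold blk
  rw [Matrix.reindex_apply, Matrix.submatrix_apply, blk_symm_hi, blk_symm_hi]
  rfl

/-- sums over all modes -/
theorem sum_modes {M : Type*} [AddCommMonoid M] (f : Fin (N + N) → M) :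
    ∑ q, f q = ∑ i, f (lo i) + ∑ i, f (hi i) := Fin.sum_univ_add f

end Pool.Agent.H46X
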