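import Pool.Agent.Lib.H69.Hopf.Strict
import Pool.Agent.Lib.Frob61.FrobeniusPinching
import Pool.Agent.Lib.H79G.F1
import Pool.Agent.Lib.H79G.P3
import Pool.Agent.Lib.H46P.H9
import Pool.Agent.Lib.H46X.A15
import Pool.Agent.Lib.H46X.A16

/-!
# Candidate for the new version of `Results/MP_5a30bb_gt/Pinching.lean`
-/

namespace Pool.Agent.H46X.Final

open Pool.Agent.H69Hopf Pool.Agent.H46X

/-- The pinching constant: the smallest of `(4 n ^ 2 - 27) / (4 n ^ 2 + 12 n - 27)`,
`1 - 1 / (37 √(2 n + 2))` and `1 - 1 / (10 ^ 13 (1 + log n) ^ 3)`. -/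
noncomputable def pinchConst (n : ℕ) : ℝ :=
  min (min ((4 * (n : ℝ) ^ 2 - 27) / (4 * (n : ℝ) ^ 2 + 12 * n - 27)) (1 - 1 / (37 * √(2 * n + 2))))
    (1 - 1 / (10 ^ 13 * (1 + Real.log n) ^ 3))

/-- The radius `1 / (10 ^ 13 (1 + log n) ^ 3)`. -/
noncomputable def radius (n : ℕ) : ℝ := 1 / (10 ^ 13 * (1 + Real.log n) ^ 3)

/-- Relatively pinched: there is a positive semidefinite form `H` with
`-area_H (u, v) ≤ R (u, v, u, v) ≤ -δ area_H (u, v)`, `δ = pinchConst n`. -/
def RelPinched (n : ℕ) (R : Arr (2 * n)) : Prop :=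
  ∃ H : Matrix (Fin (2 * n)) (Fin (2 * n)) ℝ, H.PosSemidef ∧ ∀ u v : Fin (2 * n) → ℝ,
    -H79G.areaG H u v ≤ ev R u v u v ∧ ev R u v u v ≤ -(pinchConst n * H79G.areaG H u v)

/-- Close to the curvature `-κ area_H (u, v) - 3 μ H(u, J v)^2`, `κ, μ ≥ 0`, of a positive
semidefinite form `H` with a complex structure `J` preserving `H`. -/
def NearHermitian (n : ℕ) (R : Arr (2 * n)) : Prop :=
  ∃ H J : Matrix (Fin (2 * n)) (Fin (2 * n)) ℝ, H.PosSemidef ∧ J * J = -1 ∧
    J.transpose * H * J = H ∧ ∃ κ μ : ℝ, 0 ≤ κ ∧ 0 ≤ μ ∧ ∀ u v : Fin (2 * n) → ℝ,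
      |ev R u v u v + κ * H79G.areaG H u v + 3 * μ * (∑ i, ∑ j, (H * J) i j * u i * v j) ^ 2| ≤
        radius n * max κ (2 * μ) * H79G.areaG H u v

/-- The pointwise condition on the curvature tensor. -/
def Negative (n : ℕ) (R : Arr (2 * n)) : Prop := RelPinched n R ∨ NearHermitian n R

theorem pinchConst_lt (n : ℕ) (hn : 3 ≤ n) : pinchConst n < 1 := by
  have hn' : (1 : ℝ) ≤ n := by exact_mod_cast (by omega : 1 ≤ n)
  have hlog : 0 ≤ Real.log n := Real.log_nonneg hn'
  unfold pinchConst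
  have h1 : 0 < 1 / (10 ^ 13 * (1 + Real.log n) ^ 3) := by positivity
  exact (min_le_right _ _).trans_lt (by linarith)

theorem radius_nonneg (n : ℕ) (hn : 3 ≤ n) : 0 ≤ radius n := by
  have hn' : (1 : ℝ) ≤ n := by exact_mod_cast (by omega : 1 ≤ n)
  have hlog : 0 ≤ Real.log n := Real.log_nonneg hn'
  unfold radius
  positivity

/-- absolute pinching with respect to the standard scalar product (`Results/MP_5a30bb_gt/Pinching`) -/
theorem pointwise (n : ℕ) (hn : 3 ≤ n) (R : Arr (2 * n)) (hR : IsAlgCurv R)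
    (hp : ∀ x y : Fin (2 * n) → ℝ,
        -area2 x y ≤ ev R x y x y ∧ ev R x y x y ≤ -(pinchConst n * area2 x y)) :
    0 < (-1) ^ n * gaussBonnet n R := by
  sorry

/-- positive definite `H`, relatively pinched -/
theorem relA (n : ℕ) (hn : 3 ≤ n) {R : Arr (2 * n)} (hR : IsAlgCurv R)
    {H : Matrix (Fin (2 * n)) (Fin (2 * n)) ℝ} (hH : H.PosDef)
    (h : ∀ u v : Fin (2 * n) → ℝ,
      -H79G.areaG H u v ≤ ev R u v u v ∧ ev R u v u v ≤ -(pinchConst n * H79G.areaG H u v)) :
    0 < (-1) ^ n * gaussBonnet n R := by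
  obtain ⟨E, hE⟩ := H79G.exists_frame H
    (fun i j => by
      have h1 := congrFun (congrFun hH.isHermitian i) j
      rw [Matrix.conjTranspose_apply, star_trivial] at h1
      exact h1.symm)
    (fun v hv => by
      have h1 := hH.dotProduct_mulVec_pos hv
      refine h1.trans_le (le_of_eq ?_)
      simp only [dotProduct, Matrix.mulVec, Finset.mul_sum, star_trivial]
      exact Finset.sum_congr rfl fun i _ => Finset.sum_congr rfl fun j _ => by ring)
  have h1 := pointwise n hn (H79G.frameR R E) (H79G.frame_algCurv hR E) fun x y => by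
    rw [H79G.sec_frame, ← H79G.area_frame hE]
    exact h _ _
  rw [gb_pull, mul_left_comm] at h1
  exact pos_of_mul_pos_right h1 (sq_nonneg _)

/-- all sectional values zero -/
theorem gb_zero (n : ℕ) (hn : 1 ≤ n) {R : Arr (2 * n)} (hR : IsAlgCurv R)
    (h : ∀ x y : Fin (2 * n) → ℝ, ev R x y x y = 0) : gaussBonnet n R = 0 := by
  sorry

theorem pointwise_rel (n : ℕ) (hn : 3 ≤ n) (R : Arr (2 * n)) (hR : IsAlgCurv R)
    (h : Negative n R) :
    0 ≤ (-1) ^ n * gaussBonnet n R ∧
      ((∀ u : Fin (2 * n) → ℝ, u ≠ 0 → ∃ v : Fin (2 * n) → ℝ, ev R u v u v ≠ 0) →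
        0 < (-1) ^ n * gaussBonnet n R) := by
  rcases h with ⟨H, hH, hp⟩ | ⟨H, J, hH, hJ2, hHJ, k, l, hk, hl, hp⟩
  · -- relative pinching
    have hd := pinchConst_lt n hn
    have h0 : Near0 n ((1 + pinchConst n) / 2) ((1 - pinchConst n) / 2) R H := by
      intro x y
      obtain ⟨h1, h2⟩ := hp x y
      rw [abs_le]
      constructor <;> linarith
    constructor
    · refine psd_limit0 n (by linarith) ?_ hR hH h0
      intro R' H' hR' hH' hN
      refine relA n hn hR' hH' fun u v => ?_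
      have h1 := abs_le.1 (hN u v)
      constructor <;> linarith [h1.1, h1.2]
    · intro hstr
      by_cases hpd : H.PosDef
      · exact relA n hn hR hpd hp
      · obtain ⟨x, hx, hx0⟩ := near_kernel0 n hH h0 hpd
        obtain ⟨v, hv⟩ := hstr x hx
        exact absurd (hx0 v) hv
  · -- near Hermitian curvature
    have hr := radius_nonneg n hn
    rcases (le_max_of_le_left hk : 0 ≤ max k (2 * l)).eq_or_lt with h0 | h0
    · have hk0 : k = 0 := le_antisymm ((le_max_left _ _).trans h0.ge) hk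
      have hl0 : l = 0 := by
        have := (le_max_right k (2 * l)).trans h0.ge
        linarith
      have hz : ∀ x y : Fin (2 * n) → ℝ, ev R x y x y = 0 := by
        intro x y
        have h1 := hp x y
        rw [← h0, hk0, hl0] at h1
        simp only [mul_zero, zero_mul, add_zero] at h1
        exact abs_nonpos_iff.1 h1
      refine ⟨by rw [gb_zero n (by omega) hR hz, mul_zero], fun hstr => ?_⟩
      obtain ⟨v, hv⟩ := hstr (Pi.single ⟨0, by omega⟩ 1) (by
        intro h
        have := congrFun h ⟨0, by omega⟩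
        simp at this)
      exact absurd (hz _ _) hv
    · have hN : Near n k l (radius n * max k (2 * l)) R H J := hp
      have hst : ∀ (R' : Arr (2 * n)) (H' J' : Matrix (Fin (2 * n)) (Fin (2 * n)) ℝ),
          IsAlgCurv R' → H'.PosDef → J'.transpose * H' * J' = H' → J' * J' = -1 →
          Near n k l (radius n * max k (2 * l)) R' H' J' →
            0 < (-1) ^ n * gaussBonnet n R' := by
        intro R' H' J' hR' hH' hHJ' hJ2' hN'
        refine point_rel n (by omega) hR' hH' hHJ' hJ2' hk hl h0 ?_ hN'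
        have hn' : (1 : ℝ) ≤ n := by exact_mod_cast (by omega : 1 ≤ n)
        have hlog : 0 ≤ Real.log n := Real.log_nonneg hn'
        unfold radius
        refine le_of_eq ?_
        field_simp
      constructor
      · exact psd_limit n (by positivity) hst hR hH hHJ hJ2 hN
      · intro hstr
        by_cases hpd : H.PosDef
        · exact hst R H J hR hpd hHJ hJ2 hN
        · obtain ⟨x, hx, hx0⟩ := near_kernel n hH hHJ hJ2 hN hpd
          obtain ⟨v, hv⟩ := hstr x hx
          exact absurd (hx0 v) hv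

open H31R H79G in
/-- Closed manifolds. -/
theorem result (n : ℕ) (hn : 3 ≤ n) (M : Closed (2 * n)) (g : Ch.Metric (2 * n) M.carrier) :
    ((∀ p : M.carrier, ∀ y ∈ (chartAt (EE (2 * n)) p).target, Negative n (riem (g.mat p) y)) →
      ∃ χ : ℤ, IsEulerCharacteristic (2 * n) M.carrier χ ∧ 0 ≤ (-1) ^ n * χ ∧
        ((∃ m : M.carrier, ∀ u : Fin (2 * n) → ℝ, u ≠ 0 → ∃ v : Fin (2 * n) → ℝ,
          ev (riem (g.mat m) (chartAt (EE (2 * n)) m m)) u v u v ≠ 0) → 0 < (-1) ^ n * χ)) ∧
    ((∀ p : M.carrier, ∀ y ∈ (chartAt (EE (2 * n)) p).target,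
        Negative n (fun i j k l => -riem (g.mat p) y i j k l)) →
      ∃ χ : ℤ, IsEulerCharacteristic (2 * n) M.carrier χ ∧ 0 ≤ χ ∧
        ((∃ m : M.carrier, ∀ u : Fin (2 * n) → ℝ, u ≠ 0 → ∃ v : Fin (2 * n) → ℝ,
          ev (riem (g.mat m) (chartAt (EE (2 * n)) m m)) u v u v ≠ 0) → 0 < χ)) := by
  have hdet : ∀ (G E : Mt (2 * n)), E.transpose * G * E = 1 → 0 < E.det ^ 2 := by
    intro G E hE
    refine sq_pos_of_ne_zero fun h0 => ?_
    have := congrArg Matrix.det hE
    rw [Matrix.det_mul, h0, mul_zero, Matrix.det_one] at this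
    exact zero_ne_one this
  constructor
  · intro hK
    obtain ⟨χ, h1, h2, h3⟩ := sign_principle n M g ((-1) ^ n) fun p y hy E hE => by
      rw [gb_pull, mul_left_comm]
      exact mul_nonneg (sq_nonneg _)
        (pointwise_rel n hn _ (riem_algCurv (metOn g p) hy) (hK p y hy)).1
    refine ⟨χ, h1, by exact_mod_cast h2, ?_⟩
    rintro ⟨m, hm⟩
    have h4 := h3 ⟨m, fun E hE => by
      rw [gb_pull, mul_left_comm]
      exact mul_pos (hdet _ E hE) ((pointwise_rel n hn _
        (riem_algCurv (metOn g m) (mem_chart_target (EE (2 * n)) m))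
        (hK m _ (mem_chart_target (EE (2 * n)) m))).2 hm)⟩
    exact_mod_cast h4
  · intro hK
    have key : ∀ (R : Arr (2 * n)), IsAlgCurv R → Negative n (fun i j k l => -R i j k l) →
        0 ≤ gaussBonnet n R ∧
        ((∀ u : Fin (2 * n) → ℝ, u ≠ 0 → ∃ v : Fin (2 * n) → ℝ, ev R u v u v ≠ 0) →
          0 < gaussBonnet n R) := by
      intro R hR hneg
      obtain ⟨h1, h2⟩ := pointwise_rel n hn _ (algCurv_neg hR) hneg
      rw [gb_neg, ← mul_assoc, ← mul_pow] at h1 h2
      simp only [mul_neg, mul_one, neg_neg, one_pow, one_mul] at h1 h2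
      refine ⟨h1, fun hs => h2 fun u hu => ?_⟩
      obtain ⟨v, hv⟩ := hs u hu
      refine ⟨v, ?_⟩
      rw [ev_neg]
      exact neg_ne_zero.2 hv
    obtain ⟨χ, h1, h2, h3⟩ := sign_principle n M g 1 fun p y hy E hE => by
      rw [one_mul, gb_pull]
      exact mul_nonneg (sq_nonneg _) (key _ (riem_algCurv (metOn g p) hy) (hK p y hy)).1
    rw [one_mul] at h2
    refine ⟨χ, h1, by exact_mod_cast h2, ?_⟩
    rintro ⟨m, hm⟩
    have h4 := h3 ⟨m, fun E hE => by
      rw [one_mul, gb_pull]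
      exact mul_pos (hdet _ E hE) ((key _
        (riem_algCurv (metOn g m) (mem_chart_target (EE (2 * n)) m))
        (hK m _ (mem_chart_target (EE (2 * n)) m))).2 hm)⟩
    rw [one_mul] at h4
    exact_mod_cast h4

end Pool.Agent.H46X.Final
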